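import Mathlib
import Pool.Agent.Bern2.Defs

/-!
# Bernoulli polynomials: no factor of middle degree (project HK)

Notation of the whole project:

* `h : ℤ[X]` is a primitive polynomial which divides `B_n` in `ℚ[X]` (`Fac n h`), `D = h.natDegree`;
* `p` is usable for `n` if `n = m (p - 1) + e` with `6 ≤ e < m < p`: then `h` has full degree modulo
  `p`, it splits there, and its multiplicities `m_a`, `a ∈ F_p`, satisfy `m_a ≤ i_a` or
  `m_a ≥ e - i_a`, where `i_a` is the multiplicity of `a` in a polynomial `f` with `IsF p e f`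
  (so `∑ i_a ≤ e`, `i_a ≤ 2 √e`);
* so `h` has only few different zeros modulo `p` if `D` is slightly larger than a multiple of `e`.
  If there are many such `p`, this contradicts the size of the Hankel determinant of the power sums
  of the zeros of `h` of the order `L` = number of the zeros of `h` modulo another usable prime.
-/

namespace Pool.Agent.Bern3

open Polynomial Finset

/-- The Hankel matrix of the power sums of `α`. -/
noncomputable def hank {R : Type*} [CommRing R] {D : ℕ} (α : Fin D → R) (L : ℕ) :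
    Matrix (Fin L) (Fin L) R :=
  Matrix.of fun i j => ∑ r, α r ^ ((i : ℕ) + (j : ℕ))

/-- The number of the zeros of `h` modulo `p`. -/
noncomputable def nzr (p : ℕ) (h : ℤ[X]) : ℕ := by
  classical
  exact ((range p).filter fun a : ℕ => (p : ℤ) ∣ h.eval (a : ℤ)).card

/-- `h` has full degree modulo `p` and splits there. -/
def Spl (p : ℕ) (h : ℤ[X]) : Prop :=
  ¬ (p : ℤ) ∣ h.leadingCoeff ∧ ∃ β : Fin h.natDegree → ZMod p,
    h.map (Int.castRingHom (ZMod p)) =
      C ((h.leadingCoeff : ℤ) : ZMod p) * ∏ r, (X - C (β r))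

/-- `h` is a primitive integral polynomial which divides the Bernoulli polynomial `B_n`. -/
def Fac (n : ℕ) (h : ℤ[X]) : Prop :=
  h.IsPrimitive ∧ h.map (Int.castRingHom ℚ) ∣ Polynomial.bernoulli n

/-- `p` is usable for `n`: `n = m (p - 1) + e` with `6 ≤ e < m < p`. -/
def Usable (n p : ℕ) : Prop :=
  p.Prime ∧ 6 ≤ n % (p - 1) ∧ n % (p - 1) < n / (p - 1) ∧ n / (p - 1) < p

/-- The number of the primes `p` with `2 √N < p ≤ Q` and `x < n % (p - 1) ≤ y`. -/
noncomputable def Cnt (Q : ℝ) (N n x y : ℕ) : ℕ := by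
  classical
  exact ((Icc 1 N).filter fun p : ℕ => p.Prime ∧ 2 * √(N : ℝ) < p ∧ (p : ℝ) ≤ Q ∧
    x < n % (p - 1) ∧ n % (p - 1) ≤ y).card

/-- The sum of the logarithms of the primes `q ≤ D + 1`, `D < q (q - 1)`, for which
`n % q ≥ q - D / (q - 1)`. -/
noncomputable def XS (n D : ℕ) : ℝ := by
  classical
  exact ∑ q ∈ (Icc 2 (D + 1)).filter fun q : ℕ => q.Prime ∧ D < q * (q - 1) ∧
    q ≤ n % q + D / (q - 1), Real.log q

/-- The input from multiplicative number theory (Matomaki-Radziwill method). -/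
def EQ (c c' A : ℝ) : Prop :=
  ∃ N0 : ℕ, ∀ N : ℕ, N0 ≤ N → ∀ u h : ℕ, Real.log N ^ A ≤ h → h ≤ u →
    (u : ℝ) ≤ (N : ℝ) ^ (1 / 5 : ℝ) →
    (((Ioc (N / 2) N).filter fun n => Even n ∧
      (Cnt ((N : ℝ) ^ (79 / 100 : ℝ)) N n u (u + h) : ℝ) < c * h).card : ℝ) ≤
      N * (h : ℝ) ^ (-c')

end Pool.Agent.Bern3
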