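import Mathlib
import Pool.Agent.Bern3.Defs

/-!
# HK-Sub: `c ^ d * ∏ α_r ^ (a_r)` is integral if all `a_r ≤ d`

`h : ℤ[X]` with leading coefficient `c` and complex zeros `α_r` (with multiplicity). Mathlib only.

(1) It suffices to show that `c * ∏_{r ∈ T} α_r` is integral over `ℤ` for all `T`.
(2) If `g` has integral coefficients and `g = (X - C α) * g1` then all coefficients of `g1` and of `C α * g1` are integral
(descending induction on the coefficients `w_j` of `g1`: `∑_{i ≤ j} g_i α ^ i + w_j α ^ (j + 1) = 0`, so `w_j α` is integral if `w_j` is).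
(3) Apply (2) for all `r` one after another.
-/

namespace Pool.Agent.Bern3

open Polynomial Finset

/-- leading coefficient times zero, over the ring of integral elements -/
private theorem lead_mul {α w : ℂ} (hw : IsIntegral ℤ w) (j : ℕ) (q : ℕ → ℂ)
    (hq : ∀ i, IsIntegral ℤ (q i))
    (h : ∑ i ∈ range (j + 1), q i * α ^ i + w * α ^ (j + 1) = 0) : IsIntegral ℤ (w * α) := by
  by_cases hw0 : w = 0
  · rw [hw0, zero_mul]
    exact isIntegral_zero
  set w' : integralClosure ℤ ℂ := ⟨w, hw⟩ with hw'
  set q' : ℕ → integralClosure ℤ ℂ := fun i => ⟨q i, hq i⟩ with hq'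
  have hw'0 : w' ≠ 0 := by
    intro h1
    apply hw0
    have := congrArg (Subtype.val) h1
    exact this
  set P0 : (integralClosure ℤ ℂ)[X] := ∑ i : Fin (j + 1), C (q' i) * X ^ (i : ℕ) with hP0
  set P1 : (integralClosure ℤ ℂ)[X] := C w' * X ^ (j + 1) with hP1
  have hdeg : P0.degree < P1.degree := by
    rw [hP1, degree_C_mul_X_pow _ hw'0]
    exact degree_sum_fin_lt _
  have hlc : (P0 + P1).leadingCoeff = w' := by
    rw [leadingCoeff_add_of_degree_lt hdeg, hP1, leadingCoeff_C_mul_X_pow]
  have hev : aeval α (P0 + P1) = 0 := by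
    rw [hP0, hP1, map_add, map_sum]
    simp only [map_mul, map_pow, aeval_X, aeval_C]
    have h2 : ∀ x : integralClosure ℤ ℂ, algebraMap (integralClosure ℤ ℂ) ℂ x = x := fun _ => rfl
    simp only [h2]
    rw [← h, Finset.sum_range]
  have h3 := isIntegral_leadingCoeff_smul (P0 + P1) α hev
  rw [hlc] at h3
  have h4 : w' • α = w * α := rfl
  rw [h4] at h3
  exact isIntegral_trans (R := ℤ) (A := integralClosure ℤ ℂ) _ h3

/-- the coefficients of the quotient -/
private theorem quot {g g1 : ℂ[X]} {α : ℂ} (hg : ∀ i, IsIntegral ℤ (g.coeff i))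
    (h : g = (X - C α) * g1) (j : ℕ) :
    IsIntegral ℤ (g1.coeff j) ∧ IsIntegral ℤ (g1.coeff j * α) := by
  have h0 : g.coeff 0 = - (g1.coeff 0 * α) := by
    rw [h, sub_mul, coeff_sub, coeff_X_mul_zero, coeff_C_mul]
    ring
  have hs : ∀ i, g.coeff (i + 1) = g1.coeff i - g1.coeff (i + 1) * α := by
    intro i
    rw [h, sub_mul, coeff_sub, coeff_X_mul, coeff_C_mul]
    ring
  have htel : ∀ i, ∑ l ∈ range (i + 1), g.coeff l * α ^ l + g1.coeff i * α ^ (i + 1) = 0 := by
    intro i
    induction i with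
    | zero =>
      rw [sum_range_one, h0]
      ring
    | succ i ih =>
      rw [sum_range_succ, hs]
      have e : ∑ l ∈ range (i + 1), g.coeff l * α ^ l + (g1.coeff i - g1.coeff (i + 1) * α) *
          α ^ (i + 1) + g1.coeff (i + 1) * α ^ (i + 1 + 1) =
          ∑ l ∈ range (i + 1), g.coeff l * α ^ l + g1.coeff i * α ^ (i + 1) := by ring
      rw [e, ih]
  have key : ∀ k j, g1.natDegree + 1 ≤ j + k →
      IsIntegral ℤ (g1.coeff j) ∧ IsIntegral ℤ (g1.coeff j * α) := by
    intro k
    induction k with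
    | zero =>
      intro j hj
      have h1 : g1.coeff j = 0 := coeff_eq_zero_of_natDegree_lt (by omega)
      rw [h1, zero_mul]
      exact ⟨isIntegral_zero, isIntegral_zero⟩
    | succ k ih =>
      intro j hj
      have h1 : IsIntegral ℤ (g1.coeff j) := by
        have h2 : g1.coeff j = g.coeff (j + 1) + g1.coeff (j + 1) * α := by
          rw [hs]
          ring
        rw [h2]
        exact (hg _).add (ih (j + 1) (by omega)).2
      exact ⟨h1, lead_mul h1 j (fun i => g.coeff i) hg (htel j)⟩
  exact key (g1.natDegree + 1) j (by omega)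

private theorem sub_one (h : ℤ[X]) {D : ℕ} (α : Fin D → ℂ)
    (hh : h.map (Int.castRingHom ℂ) = C ((h.leadingCoeff : ℤ) : ℂ) * ∏ r, (X - C (α r)))
    (T : Finset (Fin D)) :
    IsIntegral ℤ (((h.leadingCoeff : ℤ) : ℂ) * ∏ r, (if r ∈ T then α r else 1)) := by
  have key : ∀ s : Finset (Fin D), ∀ i, IsIntegral ℤ ((C ((h.leadingCoeff : ℤ) : ℂ) *
      (∏ r ∈ s, C (if r ∈ T then α r else 1)) * ∏ r ∈ sᶜ, (X - C (α r))).coeff i) := by
    intro s
    induction s using Finset.induction_on with
    | empty =>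
      intro i
      rw [prod_empty, mul_one, compl_empty, ← hh, coeff_map]
      exact isIntegral_algebraMap
    | insert a s ha ih =>
      intro i
      have hac : a ∈ sᶜ := mem_compl.2 ha
      set g1 : ℂ[X] := C ((h.leadingCoeff : ℤ) : ℂ) *
        (∏ r ∈ s, C (if r ∈ T then α r else 1)) * ∏ r ∈ sᶜ.erase a, (X - C (α r)) with hg1
      have h1 := quot (g1 := g1) (α := α a) ih (by
        rw [hg1, ← mul_prod_erase _ _ hac]
        ring) i
      have h2 : C ((h.leadingCoeff : ℤ) : ℂ) *
          (∏ r ∈ insert a s, C (if r ∈ T then α r else 1)) *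
          ∏ r ∈ (insert a s)ᶜ, (X - C (α r)) = C (if a ∈ T then α a else 1) * g1 := by
        rw [prod_insert ha, compl_insert, hg1]
        ring
      rw [h2, coeff_C_mul]
      split_ifs
      · rw [mul_comm]
        exact h1.2
      · rw [one_mul]
        exact h1.1
  have h1 := key univ 0
  rw [compl_univ, prod_empty, mul_one] at h1
  have h2 : C ((h.leadingCoeff : ℤ) : ℂ) * (∏ r : Fin D, C (if r ∈ T then α r else 1)) =
      C (((h.leadingCoeff : ℤ) : ℂ) * ∏ r, (if r ∈ T then α r else 1)) := by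
    rw [map_mul, map_prod]
  rw [h2, coeff_C_zero] at h1
  exact h1

theorem hsub (h : ℤ[X]) {D : ℕ} (α : Fin D → ℂ)
    (hh : h.map (Int.castRingHom ℂ) = C ((h.leadingCoeff : ℤ) : ℂ) * ∏ r, (X - C (α r)))
    (d : ℕ) (a : Fin D → ℕ) (ha : ∀ r, a r ≤ d) :
    IsIntegral ℤ (((h.leadingCoeff : ℤ) : ℂ) ^ d * ∏ r, α r ^ a r) := by
  classical
  have h1 : ((h.leadingCoeff : ℤ) : ℂ) ^ d * ∏ r, α r ^ a r =
      ∏ k ∈ range d, (((h.leadingCoeff : ℤ) : ℂ) *
        ∏ r, (if r ∈ univ.filter (fun r => k < a r) then α r else 1)) := by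
    rw [prod_mul_distrib, prod_const, card_range, prod_comm]
    refine congrArg _ (prod_congr rfl fun r _ => ?_)
    have h2 : ∀ k, (if r ∈ univ.filter (fun r => k < a r) then α r else 1) =
        if k < a r then α r else 1 := by
      intro k
      have h3 : r ∈ univ.filter (fun r => k < a r) ↔ k < a r := by simp
      simp only [h3]
    simp only [h2]
    rw [← prod_filter, prod_const]
    have h4 : (range d).filter (fun k => k < a r) = range (a r) := by
      ext k
      rw [mem_filter, mem_range, mem_range]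
      have := ha r
      omega
    rw [h4, card_range]
  rw [h1]
  exact IsIntegral.prod _ fun k _ => sub_one h α hh _

end Pool.Agent.Bern3
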