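import Mathlib
import Pool.Agent.Bern3.Sub

/-!
# HK-Hin: `c ^ (2 (L - 1)) * Δ_L` is integral; the size of `Δ_L`

`Δ_L = det (s_(i+j))`, `i, j < L`, `s_k = ∑_r α_r ^ k`.
-/

namespace Pool.Agent.Bern3

open Polynomial Finset

private theorem hin_expand {D : ℕ} (α : Fin D → ℂ) (L : ℕ) :
    (hank α L).det = ∑ f : Fin L → Fin D, ∑ σ : Equiv.Perm (Fin L),
      ((Equiv.Perm.sign σ : ℤ) : ℂ) * ∏ i, α (f i) ^ ((σ i : ℕ) + (i : ℕ)) := by
  rw [Matrix.det_apply', Finset.sum_comm]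
  refine Finset.sum_congr rfl fun σ _ => ?_
  rw [← Finset.mul_sum]
  congr 1
  have h1 : ∀ i : Fin L, hank α L (σ i) i = ∑ r : Fin D, α r ^ ((σ i : ℕ) + (i : ℕ)) := by
    intro i
    rfl
  rw [Finset.prod_congr rfl fun i _ => h1 i, Finset.prod_univ_sum, Fintype.piFinset_univ]

private theorem hin_zero {D : ℕ} (α : Fin D → ℂ) (L : ℕ) (f : Fin L → Fin D)
    (hf : ¬ Function.Injective f) :
    ∑ σ : Equiv.Perm (Fin L),
      ((Equiv.Perm.sign σ : ℤ) : ℂ) * ∏ i, α (f i) ^ ((σ i : ℕ) + (i : ℕ)) = 0 := by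
  have h1 : ∀ σ : Equiv.Perm (Fin L),
      ((Equiv.Perm.sign σ : ℤ) : ℂ) * ∏ i, α (f i) ^ ((σ i : ℕ) + (i : ℕ)) =
      (((Equiv.Perm.sign σ : ℤ) : ℂ) * ∏ i, α (f i) ^ (σ i : ℕ)) *
        ∏ i : Fin L, α (f i) ^ (i : ℕ) := by
    intro σ
    rw [mul_assoc, ← Finset.prod_mul_distrib]
    congr 1
    refine Finset.prod_congr rfl fun i _ => ?_
    rw [pow_add]
  rw [Finset.sum_congr rfl fun σ _ => h1 σ, ← Finset.sum_mul]
  have h2 : (∑ σ : Equiv.Perm (Fin L),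
      ((Equiv.Perm.sign σ : ℤ) : ℂ) * ∏ i, α (f i) ^ (σ i : ℕ)) =
      (Matrix.of fun a i : Fin L => α (f i) ^ (a : ℕ)).det := by
    rw [Matrix.det_apply']
    rfl
  rw [h2]
  unfold Function.Injective at hf
  push Not at hf
  obtain ⟨i, j, hij, hne⟩ := hf
  rw [Matrix.det_zero_of_column_eq hne, zero_mul]
  intro k
  simp only [Matrix.of_apply, hij]

theorem hint (h : ℤ[X]) {D : ℕ} (α : Fin D → ℂ)
    (hh : h.map (Int.castRingHom ℂ) = C ((h.leadingCoeff : ℤ) : ℂ) * ∏ r, (X - C (α r)))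
    (L : ℕ) :
    IsIntegral ℤ (((h.leadingCoeff : ℤ) : ℂ) ^ (2 * (L - 1)) * (hank α L).det) := by
  rw [hin_expand, Finset.mul_sum]
  refine IsIntegral.sum _ fun f _ => ?_
  by_cases hf : Function.Injective f
  · rw [Finset.mul_sum]
    refine IsIntegral.sum _ fun σ _ => ?_
    have h1 : ((h.leadingCoeff : ℤ) : ℂ) ^ (2 * (L - 1)) *
        (((Equiv.Perm.sign σ : ℤ) : ℂ) * ∏ i, α (f i) ^ ((σ i : ℕ) + (i : ℕ))) =
        ((Equiv.Perm.sign σ : ℤ) : ℂ) * (((h.leadingCoeff : ℤ) : ℂ) ^ (2 * (L - 1)) *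
          ∏ i, α (f i) ^ ((σ i : ℕ) + (i : ℕ))) := by ring
    rw [h1]
    have h2 : IsIntegral ℤ (((Equiv.Perm.sign σ : ℤ) : ℂ)) := by
      have h3 : (((Equiv.Perm.sign σ : ℤ) : ℂ)) = algebraMap ℤ ℂ (Equiv.Perm.sign σ : ℤ) := rfl
      rw [h3]
      exact isIntegral_algebraMap
    refine h2.mul ?_
    have h4 := hsub h α hh (2 * (L - 1))
      (fun r => ∑ i ∈ univ.filter (fun i => f i = r), ((σ i : ℕ) + (i : ℕ))) (by
        intro r
        have h5 : ∑ i ∈ univ.filter (fun i => f i = r), ((σ i : ℕ) + (i : ℕ)) ≤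
            (univ.filter (fun i => f i = r)).card • (2 * (L - 1)) := by
          apply Finset.sum_le_card_nsmul
          intro i _
          have h6 := (σ i).isLt
          have h7 := i.isLt
          omega
        have h8 : (univ.filter (fun i => f i = r)).card ≤ 1 := by
          rw [Finset.card_le_one]
          intro i hi j hj
          rw [Finset.mem_filter] at hi hj
          exact hf (hi.2.trans hj.2.symm)
        calc _ ≤ _ := h5
          _ = (univ.filter (fun i => f i = r)).card * (2 * (L - 1)) := smul_eq_mul _ _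
          _ ≤ 1 * (2 * (L - 1)) := Nat.mul_le_mul_right _ h8
          _ = _ := one_mul _)
    have h9 : ∏ r, α r ^ (∑ i ∈ univ.filter (fun i => f i = r), ((σ i : ℕ) + (i : ℕ))) =
        ∏ i, α (f i) ^ ((σ i : ℕ) + (i : ℕ)) := by
      rw [← Finset.prod_fiberwise univ f]
      refine Finset.prod_congr rfl fun r _ => ?_
      rw [← Finset.prod_pow_eq_pow_sum]
      refine Finset.prod_congr rfl fun i hi => ?_
      rw [(Finset.mem_filter.1 hi).2]
    rw [h9] at h4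
    exact h4
  · rw [hin_zero α L f hf, mul_zero]
    exact isIntegral_zero

theorem hbd {D : ℕ} (α : Fin D → ℂ) (R : ℝ) (hR : 1 ≤ R) (hα : ∀ r, ‖α r‖ ≤ R) (L : ℕ) :
    ‖(hank α L).det‖ ≤ (D : ℝ) ^ L * L.factorial * R ^ (L * (L - 1)) := by
  have h0 : 0 ≤ R := zero_le_one.trans hR
  rw [Matrix.det_apply']
  have h1 : ∀ σ : Equiv.Perm (Fin L),
      ‖((Equiv.Perm.sign σ : ℤ) : ℂ) * ∏ i, hank α L (σ i) i‖ ≤
        (D : ℝ) ^ L * R ^ (L * (L - 1)) := by
    intro σ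
    rw [norm_mul]
    have h2 : ‖((Equiv.Perm.sign σ : ℤ) : ℂ)‖ = 1 := by
      rcases Int.units_eq_one_or (Equiv.Perm.sign σ) with h3 | h3 <;> rw [h3] <;> simp
    rw [h2, one_mul, norm_prod]
    have h3 : ∀ i : Fin L, ‖hank α L (σ i) i‖ ≤ D * R ^ ((σ i : ℕ) + (i : ℕ)) := by
      intro i
      have h4 : hank α L (σ i) i = ∑ r : Fin D, α r ^ ((σ i : ℕ) + (i : ℕ)) := rfl
      rw [h4]
      calc ‖∑ r : Fin D, α r ^ ((σ i : ℕ) + (i : ℕ))‖
          ≤ ∑ r : Fin D, ‖α r ^ ((σ i : ℕ) + (i : ℕ))‖ := norm_sum_le _ _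
        _ ≤ ∑ _r : Fin D, R ^ ((σ i : ℕ) + (i : ℕ)) := by
            refine Finset.sum_le_sum fun r _ => ?_
            rw [norm_pow]
            exact pow_le_pow_left₀ (norm_nonneg _) (hα r) _
        _ = D * R ^ ((σ i : ℕ) + (i : ℕ)) := by
            rw [Finset.sum_const, Finset.card_univ, Fintype.card_fin, nsmul_eq_mul]
    calc ∏ i, ‖hank α L (σ i) i‖ ≤ ∏ i : Fin L, ((D : ℝ) * R ^ ((σ i : ℕ) + (i : ℕ))) :=
          Finset.prod_le_prod (fun i _ => norm_nonneg _) fun i _ => h3 i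
      _ = (D : ℝ) ^ L * R ^ (∑ i : Fin L, ((σ i : ℕ) + (i : ℕ))) := by
          rw [Finset.prod_mul_distrib, Finset.prod_const, Finset.card_univ, Fintype.card_fin,
            Finset.prod_pow_eq_pow_sum]
      _ = (D : ℝ) ^ L * R ^ (L * (L - 1)) := by
          congr 2
          rw [Finset.sum_add_distrib, Equiv.sum_comp σ (fun i : Fin L => (i : ℕ)),
            Fin.sum_univ_eq_sum_range (fun i => i) L, ← Finset.sum_range_id_mul_two L]
          ring
  calc ‖∑ σ : Equiv.Perm (Fin L), ((Equiv.Perm.sign σ : ℤ) : ℂ) * ∏ i, hank α L (σ i) i‖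
      ≤ ∑ σ : Equiv.Perm (Fin L), ‖((Equiv.Perm.sign σ : ℤ) : ℂ) *
          ∏ i, hank α L (σ i) i‖ := norm_sum_le _ _
    _ ≤ ∑ _σ : Equiv.Perm (Fin L), (D : ℝ) ^ L * R ^ (L * (L - 1)) :=
        Finset.sum_le_sum fun σ _ => h1 σ
    _ = (D : ℝ) ^ L * L.factorial * R ^ (L * (L - 1)) := by
        rw [Finset.sum_const, Finset.card_univ, Fintype.card_perm, Fintype.card_fin,
          nsmul_eq_mul]
        ring

end Pool.Agent.Bern3
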