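import Mathlib
import Pool.Agent.Bern3.Defs

/-!
# HK-Psm: power sums as integral polynomials in the coefficients

PLAN. (1) `psum_coeff`: the power sum `MvPolynomial.psum (Fin D) ℤ j` is symmetric
(`MvPolynomial.psum_isSymmetric`), so by the fundamental theorem (`MvPolynomial.esymmAlgHom_fin_surjective`
or `MvPolynomial.esymmAlgEquiv`, file `Mathlib/RingTheory/MvPolynomial/Symmetric/FundamentalTheorem.lean`)
it is `MvPolynomial.aeval (fun i : Fin D => esymm (Fin D) ℤ (i + 1)) P` for some
`P : MvPolynomial (Fin D) ℤ`. Evaluate at `α` (`MvPolynomial.aeval α`): `∑_r α_r ^ j` is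
`aeval (fun i => (esymm i+1)(α)) P`, and `(esymm (i+1))(α) = (-1)^(i+1) * (∏ (X - C α_r)).coeff (D - (i+1))`
(Vieta: `Multiset.prod_X_sub_C_coeff`, `MvPolynomial.aeval_esymm_eq_multiset_esymm`,
`Finset.prod_X_add_C_coeff`, ...). Compose `P` with the substitution of signs and of the indices.
(Alternatively: Newton's identities and strong induction on `j`; any proof of the statement is fine.)

(2) `psum_int`: `F := h.integralNormalization` is monic of degree `D = h.natDegree` (if `D = 0` both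
sides are `0`; take `S = 0`), and over a field `K` in which `c = h.leadingCoeff` is not zero
`F.map = ∏ (X - C (c α_r))`: `F.map = (h.map).integralNormalization`
(`Polynomial.integralNormalization_map`) and `integralNormalization (C c * ∏ (X - C α_r)) =
∏ (X - C (c α_r))`: e.g. both are monic of degree `D` and
`integralNormalization p * C c = p.scaleRoots ..` (`Polynomial.integralNormalization_mul_C_leadingCoeff`),
or compare values at `c * x`: `integralNormalization_eval₂_leadingCoeff_mul` gives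
`F(c x) * c = c ^ D * h(x)` as polynomials in `x` (substitute `X`, comp with `C c * X`), cancel `c`
and use that comp with `C c * X` is injective. Or directly by coefficients:
`F.coeff i = h.coeff i * c ^ (D - 1 - i)` for `i < D`, `h.coeff i = c * (∏ (X - C α_r)).coeff i`,
`(∏ (X - C (c α_r))).coeff i = c ^ (D - i) * (∏ (X - C α_r)).coeff i`
(`∏ (X - C (c α_r)) = (∏ (X - C α_r)).scaleRoots c`, `Polynomial.scaleRoots`, `coeff_scaleRoots`).
Put `S j := aeval (fun i => F.coeff i) P_j` and apply (1) to `c α_r`: `c ^ j * ∑ α_r ^ j =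
∑ (c α_r) ^ j = aeval (fun i => (F.map).coeff i) P_j`, which is the cast of `S j`
(`MvPolynomial.aeval` and ring homs: `MvPolynomial.map_aeval`, `MvPolynomial.eval₂_comp_..`).
-/

namespace Pool.Agent.Bern3

open Polynomial Finset

theorem psum_coeff (D j : ℕ) : ∃ P : MvPolynomial (Fin D) ℤ,
    ∀ (R : Type) [CommRing R] (α : Fin D → R), ∑ r, α r ^ j =
      MvPolynomial.aeval (fun i : Fin D => (∏ r, (X - C (α r)) : R[X]).coeff i) P := by
  obtain ⟨Q, hQ⟩ := MvPolynomial.esymmAlgHom_fin_surjective ℤ (le_refl D)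
    ⟨MvPolynomial.psum (Fin D) ℤ j, MvPolynomial.psum_isSymmetric (Fin D) ℤ j⟩
  have hQ' : MvPolynomial.aeval (fun i : Fin D => MvPolynomial.esymm (Fin D) ℤ (i + 1)) Q =
      MvPolynomial.psum (Fin D) ℤ j := by
    have h1 := congrArg Subtype.val hQ
    rw [MvPolynomial.esymmAlgHom_apply] at h1
    exact h1
  refine ⟨MvPolynomial.aeval (fun i : Fin D => (MvPolynomial.C ((-1) ^ ((i : ℕ) + 1)) *
    MvPolynomial.X (Fin.rev i) : MvPolynomial (Fin D) ℤ)) Q, ?_⟩
  intro R _ α
  have h2 : ∑ r, α r ^ j = MvPolynomial.aeval α (MvPolynomial.psum (Fin D) ℤ j) := by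
    simp [MvPolynomial.psum]
  rw [h2, ← hQ', MvPolynomial.comp_aeval_apply, MvPolynomial.comp_aeval_apply]
  congr 2
  funext i
  rw [MvPolynomial.aeval_esymm_eq_multiset_esymm]
  have hcard : Multiset.card ((Finset.univ : Finset (Fin D)).val.map α) = D := by simp
  have h3 : (∏ r, (X - C (α r)) : R[X]) =
      (((Finset.univ : Finset (Fin D)).val.map α).map fun t => X - C t).prod := by
    rw [Multiset.map_map]
    rfl
  have h4 := Multiset.prod_X_sub_C_coeff ((Finset.univ : Finset (Fin D)).val.map α)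
    (k := (Fin.rev i : ℕ)) (by rw [hcard]; exact (Fin.rev i).2.le)
  have h5 : D - (Fin.rev i : ℕ) = (i : ℕ) + 1 := by
    have := i.2
    rw [Fin.val_rev]
    omega
  rw [hcard, h5] at h4
  rw [map_mul, MvPolynomial.aeval_X, MvPolynomial.aeval_C, h3, h4, ← mul_assoc]
  simp only [map_pow, map_neg, map_one]
  rw [← mul_pow, neg_mul_neg, one_mul, one_pow, one_mul]

theorem psum_int (h : ℤ[X]) (hh : h ≠ 0) : ∃ S : ℕ → ℤ, ∀ (K : Type) [Field K]
    (α : Fin h.natDegree → K), ((h.leadingCoeff : ℤ) : K) ≠ 0 →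
    h.map (Int.castRingHom K) = C ((h.leadingCoeff : ℤ) : K) * ∏ r, (X - C (α r)) →
    ∀ j, ((h.leadingCoeff : ℤ) : K) ^ j * ∑ r, α r ^ j = ((S j : ℤ) : K) := by
  choose P hP using psum_coeff h.natDegree
  refine ⟨fun j => MvPolynomial.aeval (fun i : Fin h.natDegree =>
    (h.leadingCoeff ^ (h.natDegree - 1 - (i : ℕ)) * h.coeff i : ℤ)) (P j), ?_⟩
  intro K _ α hc hf j
  set c : K := ((h.leadingCoeff : ℤ) : K) with hcdef
  have h1 := hP j K (fun r => c * α r)
  have h2 : c ^ j * ∑ r, α r ^ j = ∑ r, (c * α r) ^ j := by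
    rw [Finset.mul_sum]
    exact Finset.sum_congr rfl fun r _ => by rw [mul_pow]
  rw [h2, h1]
  have h3 := MvPolynomial.comp_aeval_apply (R := ℤ) (fun i : Fin h.natDegree =>
    (h.leadingCoeff ^ (h.natDegree - 1 - (i : ℕ)) * h.coeff i : ℤ))
    ((Int.castRingHom K).toIntAlgHom) (P j)
  have h4 : (((MvPolynomial.aeval (fun i : Fin h.natDegree =>
    (h.leadingCoeff ^ (h.natDegree - 1 - (i : ℕ)) * h.coeff i : ℤ)) (P j) : ℤ)) : K) =
    (Int.castRingHom K).toIntAlgHom (MvPolynomial.aeval (fun i : Fin h.natDegree =>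
    (h.leadingCoeff ^ (h.natDegree - 1 - (i : ℕ)) * h.coeff i : ℤ)) (P j)) := rfl
  rw [h4, h3]
  congr 2
  funext i
  have h5 : (∏ r, (X - C (c * α r)) : K[X]).comp (C c * X) =
      C (c ^ h.natDegree) * ∏ r, (X - C (α r)) := by
    rw [Polynomial.prod_comp]
    have h6 : ∀ r : Fin h.natDegree, (X - C (c * α r) : K[X]).comp (C c * X) =
        C c * (X - C (α r)) := by
      intro r
      rw [sub_comp, X_comp, C_comp, C_mul]
      ring
    rw [Finset.prod_congr rfl fun r _ => h6 r, Finset.prod_mul_distrib, Finset.prod_const,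
      Finset.card_univ, Fintype.card_fin, C_pow]
  have h7 := congrArg (fun p : K[X] => p.coeff i) h5
  simp only [comp_C_mul_X_coeff, coeff_C_mul] at h7
  have h8 := congrArg (fun p : K[X] => p.coeff i) hf
  simp only [coeff_map, coeff_C_mul, eq_intCast] at h8
  have hi := i.2
  have h9 : c ^ h.natDegree = c ^ (h.natDegree - 1 - (i : ℕ)) * c * c ^ (i : ℕ) := by
    rw [← pow_succ, ← pow_add]
    congr 1
    omega
  have h10 : (∏ r, (X - C (c * α r)) : K[X]).coeff i * c ^ (i : ℕ) =
      (c ^ (h.natDegree - 1 - (i : ℕ)) * ((h.coeff i : ℤ) : K)) * c ^ (i : ℕ) := by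
    rw [h7, h9, h8]
    ring
  have h11 := mul_right_cancel₀ (pow_ne_zero _ hc) h10
  rw [h11, hcdef]
  show _ = ((h.leadingCoeff ^ (h.natDegree - 1 - (i : ℕ)) * h.coeff i : ℤ) : K)
  push_cast
  rfl

end Pool.Agent.Bern3
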