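import Mathlib
import Pool.Agent.Bern3.Defs

/-!
# HK-Rnk: an integral matrix of small rank modulo `p`

PLAN. `rnk`: `B = fromBlocks (p • 1) V (-U) E`, `W = fromBlocks 1 (-V) 0 (p • 1)`
(block sizes `T`, `Fin L`): `B * W = fromBlocks (p • 1) 0 (-U) (U * V + p • E)`
(`Matrix.fromBlocks_multiply`), determinants: `det B * p ^ L = p ^ (card T) * det A`
(`Matrix.det_fromBlocks_zero₁₂`, `Matrix.det_fromBlocks_zero₂₁`, `Matrix.det_smul`).

`hdv`: let `T` be the set of the values of `β` (`univ.image β`, as a type), `r = card T`. Lift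
everything to `ℤ`: `U i t = lift of c̄ ^ i * t ^ i * m_t`, `V t j = lift of c̄ ^ j t ^ j`
(`m_t` = number of the `r` with `β r = t`; lift: `ZMod.cast`/`ZMod.val`), then
`(Matrix.of S(i+j)) - U * V` is zero modulo `p` entrywise, so it is `p • E`
(`S (i+j) = c ^ (i+j) * ∑_t m_t t ^ (i+j)` in `ZMod p`, `Finset.sum_fiberwise`/`Finset.sum_comp`).
By `rnk` `p ^ L ∣ p ^ r * det`, so `p ^ (L - r) ∣ det` if `r ≤ L` (cancel `p ^ r`), and
`L - r = 0` otherwise.

`hnz`: modulo `p` the matrix is `Vᵀ * diag (m_t) * V` with `V t j = (c t) ^ j` square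
(reindex `T ≃ Fin L`, `T` has `L` elements), `Matrix.vandermonde`; its determinant is
`∏ m_t * det(vandermonde)^2`, `m_t ≠ 0` modulo `p` since `1 ≤ m_t ≤ D < p`, the elements `c t` are
different (`c ≠ 0`), `Matrix.det_vandermonde_ne_zero_iff`. (`Matrix.det` and ring homs:
`RingHom.map_det`, `Int.cast_det`.)
-/

namespace Pool.Agent.Bern3

open Polynomial Finset

theorem rnk (p : ℤ) (L : ℕ) {T : Type*} [Fintype T] [DecidableEq T]
    (A E : Matrix (Fin L) (Fin L) ℤ) (U : Matrix (Fin L) T ℤ) (V : Matrix T (Fin L) ℤ)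
    (hA : A = U * V + p • E) : p ^ L ∣ p ^ (Fintype.card T) * A.det := by
  have h1 : Matrix.fromBlocks (p • (1 : Matrix T T ℤ)) V (-U) E *
      Matrix.fromBlocks (1 : Matrix T T ℤ) (-V) 0 (p • (1 : Matrix (Fin L) (Fin L) ℤ)) =
      Matrix.fromBlocks (p • (1 : Matrix T T ℤ)) 0 (-U) A := by
    rw [Matrix.fromBlocks_multiply, hA]
    simp only [Matrix.mul_one, Matrix.mul_zero, add_zero, Matrix.mul_smul, Matrix.smul_mul,
      Matrix.one_mul, Matrix.mul_neg, Matrix.neg_mul, neg_neg, neg_add_cancel]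
  have h2 := congrArg Matrix.det h1
  rw [Matrix.det_mul, Matrix.det_fromBlocks_zero₁₂, Matrix.det_fromBlocks_zero₂₁, Matrix.det_smul,
    Matrix.det_smul, Matrix.det_one, Matrix.det_one, Fintype.card_fin, mul_one, one_mul,
    mul_one] at h2
  exact ⟨_, by rw [← h2, mul_comm]⟩

private theorem rnk_val {p : ℕ} [NeZero p] (x : ZMod p) : (((x.val : ℕ) : ℤ) : ZMod p) = x := by
  rw [Int.cast_natCast, ZMod.natCast_zmod_val]

private theorem rnk_sum {p : ℕ} {D : ℕ} (β : Fin D → ZMod p) (k : ℕ) :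
    ∑ r, β r ^ k = ∑ t : ↥(univ.image β), ((#{r | β r = (t : ZMod p)} : ℕ) : ZMod p) * (t : ZMod p) ^ k := by
  rw [Finset.sum_comp (fun x : ZMod p => x ^ k) β, ← Finset.sum_coe_sort]
  refine Finset.sum_congr rfl fun t _ => ?_
  rw [nsmul_eq_mul]

theorem hdv (p : ℕ) [Fact p.Prime] (L : ℕ) (c : ℤ) (S : ℕ → ℤ) {D : ℕ} (β : Fin D → ZMod p)
    (hS : ∀ j, (c : ZMod p) ^ j * ∑ r, β r ^ j = ((S j : ℤ) : ZMod p)) :
    (p : ℤ) ^ (L - (univ.image β).card) ∣
      (Matrix.of fun i j : Fin L => S ((i : ℕ) + (j : ℕ))).det := by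
  classical
  have hp : p.Prime := Fact.out
  have hp0 : NeZero p := ⟨hp.ne_zero⟩
  set U : Matrix (Fin L) ↥(univ.image β) ℤ := Matrix.of fun i t =>
    (((c : ZMod p) ^ (i : ℕ) * (t : ZMod p) ^ (i : ℕ) *
      ((#{r | β r = (t : ZMod p)} : ℕ) : ZMod p)).val : ℤ) with hU
  set W : Matrix ↥(univ.image β) (Fin L) ℤ := Matrix.of fun t j =>
    (((c : ZMod p) ^ (j : ℕ) * (t : ZMod p) ^ (j : ℕ)).val : ℤ) with hW
  have h1 : ∀ i j : Fin L, ∃ e : ℤ, S ((i : ℕ) + (j : ℕ)) - (U * W) i j = p * e := by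
    intro i j
    have h2 : (((S ((i : ℕ) + (j : ℕ)) - (U * W) i j : ℤ)) : ZMod p) = 0 := by
      rw [Int.cast_sub, ← hS, rnk_sum, Matrix.mul_apply, Int.cast_sum, sub_eq_zero, Finset.mul_sum]
      refine Finset.sum_congr rfl fun t _ => ?_
      rw [hU, hW, Matrix.of_apply, Matrix.of_apply, Int.cast_mul, rnk_val, rnk_val, pow_add, pow_add]
      ring
    exact (ZMod.intCast_zmod_eq_zero_iff_dvd _ p).1 h2
  choose e he using h1
  have h3 : (Matrix.of fun i j : Fin L => S ((i : ℕ) + (j : ℕ))) = U * W + (p : ℤ) • Matrix.of e := by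
    ext i j
    rw [Matrix.add_apply, Matrix.smul_apply, Matrix.of_apply, Matrix.of_apply, smul_eq_mul,
      ← he i j]
    ring
  have h4 := rnk (p : ℤ) L _ (Matrix.of e) U W h3
  rw [Fintype.card_coe] at h4
  by_cases h5 : (univ.image β).card ≤ L
  · have h6 : (p : ℤ) ^ L = (p : ℤ) ^ (univ.image β).card * (p : ℤ) ^ (L - (univ.image β).card) := by
      rw [← pow_add]
      congr 1
      omega
    rw [h6] at h4
    have h7 : (p : ℤ) ^ (univ.image β).card ≠ 0 := pow_ne_zero _ (by exact_mod_cast hp.ne_zero)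
    exact (mul_dvd_mul_iff_left h7).1 h4
  · rw [Nat.sub_eq_zero_of_le (by omega), pow_zero]
    exact one_dvd _

theorem hnz (p : ℕ) [Fact p.Prime] (L : ℕ) (c : ℤ) (hc : ¬ (p : ℤ) ∣ c) (S : ℕ → ℤ) {D : ℕ}
    (hD : D < p) (β : Fin D → ZMod p)
    (hS : ∀ j, (c : ZMod p) ^ j * ∑ r, β r ^ j = ((S j : ℤ) : ZMod p))
    (hL : (univ.image β).card = L) :
    ¬ (p : ℤ) ∣ (Matrix.of fun i j : Fin L => S ((i : ℕ) + (j : ℕ))).det := by
  classical
  have hp : p.Prime := Fact.out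
  have hc' : (c : ZMod p) ≠ 0 := fun h => hc ((ZMod.intCast_zmod_eq_zero_iff_dvd _ p).1 h)
  let e : Fin L ≃ ↥(univ.image β) := (Finset.equivFinOfCardEq hL).symm
  set m : Fin L → ZMod p := fun k => ((#{r | β r = (e k : ZMod p)} : ℕ) : ZMod p) with hm
  set v : Fin L → ZMod p := fun k => (c : ZMod p) * (e k : ZMod p) with hv
  have h1 : (Int.castRingHom (ZMod p)).mapMatrix
      (Matrix.of fun i j : Fin L => S ((i : ℕ) + (j : ℕ))) =
      (Matrix.vandermonde v).transpose * Matrix.diagonal m * Matrix.vandermonde v := by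
    ext i j
    rw [RingHom.mapMatrix_apply, Matrix.map_apply, Matrix.of_apply, eq_intCast, ← hS, rnk_sum,
      Matrix.mul_apply, ← Equiv.sum_comp e, Finset.mul_sum]
    refine Finset.sum_congr rfl fun k _ => ?_
    rw [Matrix.mul_diagonal, Matrix.transpose_apply, Matrix.vandermonde_apply,
      Matrix.vandermonde_apply, hm, hv]
    simp only
    rw [mul_pow, mul_pow, pow_add, pow_add]
    ring
  rw [← ZMod.intCast_zmod_eq_zero_iff_dvd]
  have h2 : (((Matrix.of fun i j : Fin L => S ((i : ℕ) + (j : ℕ))).det : ℤ) : ZMod p) =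
      ((Int.castRingHom (ZMod p)).mapMatrix
        (Matrix.of fun i j : Fin L => S ((i : ℕ) + (j : ℕ)))).det := by
    rw [← RingHom.map_det]
    rfl
  rw [h2, h1, Matrix.det_mul, Matrix.det_mul, Matrix.det_transpose, Matrix.det_diagonal]
  have h3 : (Matrix.vandermonde v).det ≠ 0 := by
    rw [Matrix.det_vandermonde_ne_zero_iff]
    intro k l hkl
    have h4 : (e k : ZMod p) = e l := mul_left_cancel₀ hc' hkl
    exact e.injective (Subtype.ext h4)
  have h4 : ∏ k, m k ≠ 0 := by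
    rw [Finset.prod_ne_zero_iff]
    intro k _ h5
    have h6 : p ∣ #{r | β r = (e k : ZMod p)} := (ZMod.natCast_eq_zero_iff _ p).1 h5
    have h7 : 0 < #{r | β r = (e k : ZMod p)} := by
      rw [Finset.card_pos]
      obtain ⟨r, _, hr⟩ := Finset.mem_image.1 (e k).2
      exact ⟨r, Finset.mem_filter.2 ⟨Finset.mem_univ _, hr⟩⟩
    have h8 : #{r | β r = (e k : ZMod p)} ≤ D := by
      refine (Finset.card_filter_le _ _).trans ?_
      rw [Finset.card_univ, Fintype.card_fin]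
    have h9 := Nat.le_of_dvd h7 h6
    omega
  exact mul_ne_zero (mul_ne_zero h3 h4) h3

end Pool.Agent.Bern3
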