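import Mathlib
import Pool.Agent.Bern3.Hin
import Pool.Agent.Bern3.Psm
import Pool.Agent.Bern3.Rnk

/-!
# HK-Hkl: the Hankel inequality

PLAN. `nzr_eq`: `h(a) ≡ 0` iff `a` is one of the `β r` (the leading coefficient is not `0` in the
field `ZMod p`; `Polynomial.eval_map`, `Finset.prod_eq_zero_iff`; the map `a ↦ (a : ZMod p)` is a
bijection of `range p` with `ZMod p`, inverse `ZMod.val`). (`nzr` is defined with classical
decidability: `unfold nzr; classical; ...`, `Finset.card_bij` or `card_nbij'`.)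

`hkl`: let `D = h.natDegree ≥ 1`, `c = h.leadingCoeff ≠ 0`, `L = nzr q h`.
(1) Zeros: over `ℂ` there is `α : Fin D → ℂ` with `h.map = C c * ∏ (X - C (α r))`
(`IsAlgClosed.splits`, `Polynomial.Splits.eq_prod_roots` or similar, the multiset of roots has `D`
elements; `Multiset.toList`, `List.get`, `Multiset.map_univ_val_equiv`...). `‖α r‖ ≤ R`.
(2) `S` from `psum_int`, `M := Matrix.of fun i j : Fin L => S (i + j)`, `z0 = M.det : ℤ`.
Over `ℂ`: `(M.det : ℂ) = c ^ (L (L - 1)) * (hank α L).det`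
(entry `S (i + j) = c ^ (i + j) * s_(i+j)`, `Matrix.det_mul_row`, `det_mul_column`, `∏_i c ^ i`).
(3) By `hint` `y := c ^ (2 (L - 1)) * (hank α L).det` is integral over `ℤ`; it is rational:
`y * c ^ (L (L - 1)) = c ^ (2 (L - 1)) * M.det` is an integer and `c ≠ 0`, so `y` is the image of a
rational number which is integral over `ℤ`, hence of an integer `z`
(`IsIntegrallyClosed.isIntegral_iff`, `isIntegral_algebraMap_iff`). So
`z * c ^ (L (L - 1)) = c ^ (2 (L - 1)) * M.det` in `ℤ`.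
(4) For `p ∈ U`: `p ^ (L - nzr p h) ∣ M.det` (`hdv` with `psum_int` for `K = ZMod p`, `nzr_eq`),
`p ∤ c`, so `p ^ (L - nzr p h) ∣ z` (`IsCoprime` / `Prime.pow_dvd_of_dvd_mul_right`...).
(5) `z ≠ 0`: `q ∤ M.det` by `hnz`, `q ∤ c`, so `z = 0` is impossible.
(6) The powers for different `p ∈ U` are coprime, so their product divides `z`
(`Finset.prod_dvd_of_coprime` / `Finset.prod_dvd_of_isRelPrime`, `Nat.Coprime.pow`,
`Nat.coprime_primes`), so it is `≤ |z| = ‖y‖ ≤ |c| ^ (2 (L - 1)) * D ^ L * L! * R ^ (L (L - 1))` (`hbd`).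
-/

namespace Pool.Agent.Bern3

open Polynomial Finset

theorem nzr_eq (p : ℕ) [Fact p.Prime] (h : ℤ[X]) (hc : ¬ (p : ℤ) ∣ h.leadingCoeff) {D : ℕ}
    (β : Fin D → ZMod p) (hβ : h.map (Int.castRingHom (ZMod p)) =
      C ((h.leadingCoeff : ℤ) : ZMod p) * ∏ r, (X - C (β r))) :
    nzr p h = (univ.image β).card := by
  classical
  unfold nzr
  have hc' : ((h.leadingCoeff : ℤ) : ZMod p) ≠ 0 := by
    rw [Ne, ZMod.intCast_zmod_eq_zero_iff_dvd]; exact hc
  have key : ∀ a : ℕ, (p : ℤ) ∣ h.eval (a : ℤ) ↔ ∃ r, β r = (a : ZMod p) := by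
    intro a
    rw [← ZMod.intCast_zmod_eq_zero_iff_dvd]
    have h1 : ((h.eval (a:ℤ) : ℤ) : ZMod p) =
        (h.map (Int.castRingHom (ZMod p))).eval (a : ZMod p) := by
      rw [Polynomial.eval_natCast_map]; rfl
    rw [h1, hβ, eval_mul, eval_C, eval_prod, mul_eq_zero, Finset.prod_eq_zero_iff]
    simp only [eval_sub, eval_X, eval_C, mem_univ, true_and, hc', false_or, sub_eq_zero]
    constructor
    · rintro ⟨r, hr⟩; exact ⟨r, hr.symm⟩
    · rintro ⟨r, hr⟩; exact ⟨r, hr.symm⟩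
  have himg : ((range p).filter fun a : ℕ => (p : ℤ) ∣ h.eval (a : ℤ)).image
      (fun a : ℕ => (a : ZMod p)) = univ.image β := by
    ext x
    simp only [mem_image, mem_filter, mem_range, mem_univ, true_and]
    constructor
    · rintro ⟨a, ⟨_, ha⟩, rfl⟩
      exact (key a).1 ha
    · rintro ⟨r, rfl⟩
      refine ⟨(β r).val, ⟨ZMod.val_lt _, ?_⟩, ZMod.natCast_zmod_val _⟩
      exact (key _).2 ⟨r, (ZMod.natCast_zmod_val _).symm⟩
  rw [← himg, Finset.card_image_of_injOn]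
  intro a ha b hb hab
  simp only [coe_filter, mem_range, Set.mem_ofPred_eq] at ha hb
  have := congrArg ZMod.val hab
  simpa [ZMod.val_natCast_of_lt ha.1, ZMod.val_natCast_of_lt hb.1] using this

private theorem exists_roots (h : ℤ[X]) : ∃ α : Fin h.natDegree → ℂ,
    h.map (Int.castRingHom ℂ) = C ((h.leadingCoeff : ℤ) : ℂ) * ∏ r, (X - C (α r)) := by
  set P := h.map (Int.castRingHom ℂ) with hP
  have hinj : Function.Injective (Int.castRingHom ℂ) := RingHom.injective_int _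
  have hdeg : P.natDegree = h.natDegree := Polynomial.natDegree_map_eq_of_injective hinj h
  have hlc : P.leadingCoeff = ((h.leadingCoeff : ℤ) : ℂ) :=
    Polynomial.leadingCoeff_map_of_injective hinj h
  have hsp : P.Splits := IsAlgClosed.splits P
  have hcard : P.roots.card = P.natDegree := hsp.natDegree_eq_card_roots.symm
  have hPe : P = C P.leadingCoeff * (P.roots.map (fun a => X - C a)).prod := hsp.eq_prod_roots
  have hl : P.roots.toList.length = h.natDegree := by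
    rw [Multiset.length_toList, hcard, hdeg]
  refine ⟨fun i => P.roots.toList.get (Fin.cast hl.symm i), ?_⟩
  rw [← hlc]
  conv_lhs => rw [hPe]
  congr 1
  have h1 : (P.roots.map (fun a => X - C a)).prod =
      (P.roots.toList.map (fun a => X - C a)).prod := by
    rw [← Multiset.prod_coe, ← Multiset.map_coe, Multiset.coe_toList]
  rw [h1, ← Fin.prod_univ_fun_getElem]
  refine (Fintype.prod_equiv (finCongr hl.symm) _ _ ?_).symm
  intro i
  rfl

private theorem sum_fin_id (L : ℕ) : (∑ i : Fin L, (i : ℕ)) + ∑ i : Fin L, (i : ℕ) =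
    L * (L - 1) := by
  rw [Fin.sum_univ_eq_sum_range (fun i => i) L, ← two_mul, mul_comm, Finset.sum_range_id_mul_two]

private theorem det_cast (S : ℕ → ℤ) {D : ℕ} (α : Fin D → ℂ) (c : ℤ) (L : ℕ)
    (hS : ∀ j, (c : ℂ) ^ j * ∑ r, α r ^ j = ((S j : ℤ) : ℂ)) :
    (((Matrix.of fun i j : Fin L => S ((i : ℕ) + (j : ℕ))).det : ℤ) : ℂ) =
      (c : ℂ) ^ (L * (L - 1)) * (hank α L).det := by
  rw [Int.cast_det]
  have h1 : ((Matrix.of fun i j : Fin L => S ((i : ℕ) + (j : ℕ))).map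
      (fun x : ℤ => (x : ℂ))) = Matrix.of fun i j : Fin L => (c : ℂ) ^ (i : ℕ) *
        (Matrix.of fun i j : Fin L => (c : ℂ) ^ (j : ℕ) * hank α L i j) i j := by
    ext i j
    simp only [Matrix.map_apply, Matrix.of_apply, hank]
    rw [← hS, pow_add]
    ring
  rw [h1, Matrix.det_mul_column, Matrix.det_mul_row, ← mul_assoc,
    Finset.prod_pow_eq_pow_sum, ← pow_add, sum_fin_id]

theorem hkl (h : ℤ[X]) (hD : 1 ≤ h.natDegree) (R : ℝ) (hR : 1 ≤ R)
    (hroot : ∀ x : ℂ, (h.map (Int.castRingHom ℂ)).IsRoot x → ‖x‖ ≤ R)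
    (q : ℕ) (hq : q.Prime) (hqD : h.natDegree < q) (hqs : Spl q h)
    (U : Finset ℕ) (hU : ∀ p ∈ U, p.Prime ∧ Spl p h) :
    ∏ p ∈ U, (p : ℝ) ^ (nzr q h - nzr p h) ≤
      |(h.leadingCoeff : ℝ)| ^ (2 * (nzr q h - 1)) * (h.natDegree : ℝ) ^ nzr q h *
        (nzr q h).factorial * R ^ (nzr q h * (nzr q h - 1)) := by
  classical
  have h0 : h ≠ 0 := by rintro rfl; simp at hD
  have hc0 : h.leadingCoeff ≠ 0 := leadingCoeff_ne_zero.mpr h0
  have hc0' : ((h.leadingCoeff : ℤ) : ℂ) ≠ 0 := by exact_mod_cast hc0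
  obtain ⟨α, hα⟩ := exists_roots h
  obtain ⟨S, hS⟩ := psum_int h h0
  have hSC := hS ℂ α hc0' hα
  set L := nzr q h with hL
  set M : Matrix (Fin L) (Fin L) ℤ := Matrix.of fun i j : Fin L => S ((i : ℕ) + (j : ℕ)) with hM
  have hdet := det_cast S α h.leadingCoeff L hSC
  rw [← hM] at hdet
  -- the integer z
  have hy := hint h α hα L
  obtain ⟨z, hz⟩ : ∃ z : ℤ, ((z : ℤ) : ℂ) =
      ((h.leadingCoeff : ℤ) : ℂ) ^ (2 * (L - 1)) * (hank α L).det := by
    set r : ℚ := ((h.leadingCoeff : ℤ) : ℚ) ^ (2 * (L - 1)) * (M.det : ℚ) /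
      ((h.leadingCoeff : ℤ) : ℚ) ^ (L * (L - 1)) with hr
    have hr1 : algebraMap ℚ ℂ r =
        ((h.leadingCoeff : ℤ) : ℂ) ^ (2 * (L - 1)) * (hank α L).det := by
      rw [hr]
      simp only [map_div₀, map_mul, map_pow, map_intCast]
      rw [hdet]
      have hne : ((h.leadingCoeff : ℤ) : ℂ) ^ (L * (L - 1)) ≠ 0 := pow_ne_zero _ hc0'
      field_simp
    rw [← hr1, isIntegral_algebraMap_iff (algebraMap ℚ ℂ).injective,
      IsIntegrallyClosed.isIntegral_iff] at hy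
    obtain ⟨z, hz⟩ := hy
    refine ⟨z, ?_⟩
    rw [← hr1, ← hz]
    simp
  have hzM : z * h.leadingCoeff ^ (L * (L - 1)) = h.leadingCoeff ^ (2 * (L - 1)) * M.det := by
    have : ((z * h.leadingCoeff ^ (L * (L - 1)) : ℤ) : ℂ) =
        ((h.leadingCoeff ^ (2 * (L - 1)) * M.det : ℤ) : ℂ) := by
      rw [Int.cast_mul, Int.cast_mul, Int.cast_pow, Int.cast_pow, hz, hdet]
      ring
    exact_mod_cast this
  -- z is nonzero
  have hz0 : z ≠ 0 := by
    rintro rfl
    have : Fact q.Prime := ⟨hq⟩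
    obtain ⟨hqc, β, hβ⟩ := hqs
    have hcq : ((h.leadingCoeff : ℤ) : ZMod q) ≠ 0 := by
      rw [Ne, ZMod.intCast_zmod_eq_zero_iff_dvd]; exact hqc
    have hSq := hS (ZMod q) β hcq hβ
    have hne := hnz q L h.leadingCoeff hqc S hqD β hSq (nzr_eq q h hqc β hβ).symm
    rw [← hM] at hne
    rw [zero_mul] at hzM
    have hp : Prime (q : ℤ) := Nat.prime_iff_prime_int.mp hq
    have : M.det = 0 := by
      rcases mul_eq_zero.mp hzM.symm with h1 | h1
      · exact absurd h1 (pow_ne_zero _ hc0)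
      · exact h1
    exact hne (this ▸ dvd_zero _)
  -- divisibility
  have hdvd : ∀ p ∈ U, ((p : ℤ) ^ (L - nzr p h)) ∣ z := by
    intro p hp
    obtain ⟨hpp, hpc, β, hβ⟩ := hU p hp
    have : Fact p.Prime := ⟨hpp⟩
    have hcp : ((h.leadingCoeff : ℤ) : ZMod p) ≠ 0 := by
      rw [Ne, ZMod.intCast_zmod_eq_zero_iff_dvd]; exact hpc
    have hSp := hS (ZMod p) β hcp hβ
    have h1 := hdv p L h.leadingCoeff S β hSp
    rw [← nzr_eq p h hpc β hβ, ← hM] at h1
    have h2 : ((p : ℤ) ^ (L - nzr p h)) ∣ z * h.leadingCoeff ^ (L * (L - 1)) := by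
      rw [hzM]; exact Dvd.dvd.mul_left h1 _
    have hpI : Prime (p : ℤ) := Nat.prime_iff_prime_int.mp hpp
    have hcop : IsCoprime ((p : ℤ) ^ (L - nzr p h)) (h.leadingCoeff ^ (L * (L - 1))) := by
      apply IsCoprime.pow
      exact (Prime.coprime_iff_not_dvd hpI).mpr hpc
    exact hcop.dvd_of_dvd_mul_right h2
  have hprod : (∏ p ∈ U, ((p : ℤ) ^ (L - nzr p h))) ∣ z := by
    apply Finset.prod_dvd_of_coprime
    · intro p hp p' hp' hne
      apply IsCoprime.pow
      have h1 := (hU p hp).1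
      have h2 := (hU p' hp').1
      exact Nat.isCoprime_iff_coprime.mpr ((Nat.coprime_primes h1 h2).mpr hne)
    · exact hdvd
  have hle : ((∏ p ∈ U, ((p : ℤ) ^ (L - nzr p h)) : ℤ) : ℝ) ≤ |(z : ℝ)| := by
    have h1 : (∏ p ∈ U, ((p : ℤ) ^ (L - nzr p h))) ≤ |z| :=
      Int.le_of_dvd (abs_pos.mpr hz0) ((dvd_abs _ _).mpr hprod)
    exact_mod_cast h1
  push_cast at hle
  refine hle.trans ?_
  have hαR : ∀ r, ‖α r‖ ≤ R := by
    intro r
    apply hroot
    rw [hα, Polynomial.IsRoot.def, eval_mul, eval_prod]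
    have : ∏ j, (X - C (α j)).eval (α r) = 0 := by
      apply Finset.prod_eq_zero (mem_univ r)
      simp
    rw [this, mul_zero]
  have hb := hbd α R hR hαR L
  have hzn : |(z : ℝ)| = ‖((z : ℤ) : ℂ)‖ := by
    rw [Complex.norm_intCast]
  rw [hzn, hz, norm_mul, norm_pow, Complex.norm_intCast]
  calc |(h.leadingCoeff : ℝ)| ^ (2 * (L - 1)) * ‖(hank α L).det‖
      ≤ |(h.leadingCoeff : ℝ)| ^ (2 * (L - 1)) *
        ((h.natDegree : ℝ) ^ L * L.factorial * R ^ (L * (L - 1))) := by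
        gcongr
    _ = _ := by ring

end Pool.Agent.Bern3
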