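import Mathlib
import Pool.Agent.Bern2.BLK2
import Pool.Agent.Bern3.Defs

/-!
# HK-Loc: the reduction of a factor at a usable prime

The proof follows `Pool.Agent.Bern2.blk`.
-/

namespace Pool.Agent.Bern3

open Polynomial Finset
open Pool.Agent.Bern2 Pool.Agent.Helper29 Pool.Agent.Helper98.Bern

private theorem loc_aux (p m e : ℕ) [Fact p.Prime] (he : 2 ≤ e) (hee : Even e) (hem : e < m)
    (hmp : m < p) (hen : Even (m * (p - 1) + e)) (H1 : ℤ[X]) (hH1p : H1.IsPrimitive)
    (hdv : H1.map (Int.castRingHom ℚ) ∣ Polynomial.bernoulli (m * (p - 1) + e))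
    (hdeg : H1.natDegree + 1 < p) :
    ¬ (p : ℤ) ∣ H1.leadingCoeff ∧ ∃ (f : (ZMod p)[X]) (mm : ZMod p → ℕ), IsF p e f ∧
      H1.map (Int.castRingHom (ZMod p)) =
        C ((H1.leadingCoeff : ℤ) : ZMod p) * ∏ a, (X - C a) ^ mm a ∧
      (∀ a, mm a ≤ e) ∧ ∑ a, mm a = H1.natDegree ∧
      ∀ a, min (mm a) (e - mm a) ≤ f.rootMultiplicity a := by
  have hp : p.Prime := Fact.out
  have hp5 : 5 ≤ p := by
    rcases Nat.lt_or_ge p 5 with h | h
    · exfalso
      have hp4 : p = 4 := by omega
      subst hp4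
      revert hp
      decide
    · exact h
  set n := m * (p - 1) + e with hn
  have hpI : Prime (p : ℤ) := Nat.prime_iff_prime_int.mp hp
  have hp0 : (p : ℚ) ≠ 0 := by exact_mod_cast hp.ne_zero
  set φ : ℤ →+* ZMod p := Int.castRingHom (ZMod p) with hφ
  have hφ0 : ∀ a : ℤ, φ a = 0 ↔ (p : ℤ) ∣ a := fun a => by
    rw [hφ]
    simpa using ZMod.intCast_zmod_eq_zero_iff_dvd a p
  obtain ⟨D, F, hD, hF, u, hu, hFu⟩ := bern_mod p m e (by omega) hem hmp
  rw [← hn] at hF
  obtain ⟨g0, hg0⟩ := hdv
  have hdvd : H1.map (algebraMap ℤ ℚ) ∣ F.map (algebraMap ℤ ℚ) := by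
    change H1.map (Int.castRingHom ℚ) ∣ F.map (Int.castRingHom ℚ)
    rw [hF, hg0]
    exact ⟨C ((D * p : ℤ) : ℚ) * g0, by ring⟩
  obtain ⟨G, hG⟩ := hH1p.dvd_of_fraction_map_dvd_fraction_map hdvd
  have hinj : Function.Injective (Int.castRingHom ℚ) := RingHom.injective_int (Int.castRingHom ℚ)
  have hDp : D * p ≠ 0 := by
    intro h
    rcases mul_eq_zero.1 h with h1 | h1
    · exact hD (h1 ▸ dvd_zero _)
    · exact hp.ne_zero (by exact_mod_cast h1)
  have hDpq : ((D * p : ℤ) : ℚ) ≠ 0 := by exact_mod_cast hDp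
  have hFdeg : F.natDegree = n := by
    rw [← natDegree_map_eq_of_injective hinj, hF, natDegree_C_mul hDpq, natDegree_bernoulli]
  have hFlc : F.leadingCoeff = D * p := by
    have h2 := leadingCoeff_map_of_injective hinj F
    rw [hF, leadingCoeff_mul, leadingCoeff_C, (monic_bernoulli n).leadingCoeff, mul_one] at h2
    have h3 : ((F.leadingCoeff : ℤ) : ℚ) = ((D * p : ℤ) : ℚ) := by simpa using h2.symm
    exact_mod_cast h3
  have hF0 : F ≠ 0 := by
    rintro rfl
    rw [leadingCoeff_zero] at hFlc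
    exact hDp hFlc.symm
  have hG0 : G ≠ 0 := by
    rintro rfl
    rw [mul_zero] at hG
    exact hF0 hG
  have hH10 : H1 ≠ 0 := hH1p.ne_zero
  have hlc : H1.leadingCoeff * G.leadingCoeff = D * p := by
    rw [← leadingCoeff_mul, ← hG, hFlc]
  have hdegs : H1.natDegree + G.natDegree = n := by
    rw [← natDegree_mul hH10 hG0, ← hG, hFdeg]
  have hkey : e * p + (p - 1) ≤ n := by
    have h1 : (e + 1) * (p - 1) ≤ m * (p - 1) := Nat.mul_le_mul_right _ hem
    have h2 : e * p = e * (p - 1) + e := by
      have h3 : p = (p - 1) + 1 := by omega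
      conv_lhs => rw [h3]
      ring
    have h3 : (e + 1) * (p - 1) = e * (p - 1) + (p - 1) := by ring
    omega
  -- reduction of the product
  have hXp : (X ^ p - X : (ZMod p)[X]).natDegree = p := by
    have := FiniteField.X_pow_card_sub_X_natDegree_eq (ZMod p) (p := p) hp.one_lt
    simpa using this
  have hXp0 : (X ^ p - X : (ZMod p)[X]) ≠ 0 := by
    intro h0
    rw [h0, natDegree_zero] at hXp
    exact hp.ne_zero hXp.symm
  have hFm0 : F.map φ ≠ 0 := by
    rw [hFu]
    exact mul_ne_zero (by simpa using hu) (pow_ne_zero _ hXp0)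
  have hFmdeg : (F.map φ).natDegree = e * p := by
    rw [hFu, natDegree_C_mul hu, natDegree_pow, hXp]
  have hprod : H1.map φ * G.map φ = F.map φ := by rw [← Polynomial.map_mul, ← hG]
  have hH1m0 : H1.map φ ≠ 0 := by
    intro h
    rw [h, zero_mul] at hprod
    exact hFm0 hprod.symm
  have hGm0 : G.map φ ≠ 0 := by
    intro h
    rw [h, mul_zero] at hprod
    exact hFm0 hprod.symm
  have hdm : (H1.map φ).natDegree + (G.map φ).natDegree = e * p := by
    rw [← natDegree_mul hH1m0 hGm0, hprod, hFmdeg]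
  have hpH1 : ¬ (p : ℤ) ∣ H1.leadingCoeff := by
    intro h
    have hpG : ¬ (p : ℤ) ∣ G.leadingCoeff := by
      intro h'
      have h2 : (p : ℤ) * p ∣ D * p := by
        rw [← hlc]
        exact mul_dvd_mul h h'
      have h3 : (p : ℤ) ∣ D := (mul_dvd_mul_iff_right hpI.ne_zero).1 h2
      exact hD h3
    have hGd : (G.map φ).natDegree = G.natDegree := by
      apply natDegree_map_of_leadingCoeff_ne_zero
      rw [Ne, hφ0]
      exact hpG
    omega
  have hhd : (H1.map φ).natDegree = H1.natDegree := by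
    apply natDegree_map_of_leadingCoeff_ne_zero
    rw [Ne, hφ0]
    exact hpH1
  -- the polynomial f
  have hPIe : ∀ i ∈ range (e + 1), PI p ((Polynomial.bernoulli e).coeff i) := by
    intro i hi
    rw [Polynomial.coeff_bernoulli]
    split_ifs with h
    · refine PI.mul hp (PI_bernoulli hp (by omega) _ ?_) (PI.nat hp _)
      rcases Nat.eq_zero_or_pos (e - i) with h0 | h0
      · exact Or.inl h0
      · right
        intro hd
        have := Nat.le_of_dvd h0 hd
        omega
    · simpa using PI.int hp 0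
  obtain ⟨D', hD', z, hz⟩ := PI.common hp _ _ hPIe
  set Fe : ℤ[X] := ∑ i ∈ range (e + 1), C (z i) * X ^ i with hFe
  have hFeq : Fe.map (Int.castRingHom ℚ) = C (D' : ℚ) * Polynomial.bernoulli e := by
    conv_rhs => rw [(Polynomial.bernoulli e).as_sum_range_C_mul_X_pow' (n := e + 1)
      (by rw [natDegree_bernoulli]; omega), Finset.mul_sum]
    rw [hFe, Polynomial.map_sum]
    apply Finset.sum_congr rfl
    intro i hi
    rw [Polynomial.map_mul, Polynomial.map_C, Polynomial.map_pow, Polynomial.map_X, ← mul_assoc,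
      ← C_mul, hz i hi]
    rfl
  have hFeco : ∀ i, ((Fe.coeff i : ℤ) : ℚ) = D' * (Polynomial.bernoulli e).coeff i := by
    intro i
    have h2 := congrArg (fun Q => Q.coeff i) hFeq
    simp only [coeff_map, coeff_C_mul] at h2
    simpa using h2
  have hu' : (φ D') ≠ 0 := by rw [Ne, hφ0]; exact hD'
  set f : (ZMod p)[X] := C (φ D')⁻¹ * Fe.map φ with hf
  have hfdeg : f.natDegree ≤ e := by
    rw [hf]
    refine (natDegree_C_mul_le _ _).trans ((natDegree_map_le).trans ?_)
    rw [← natDegree_map_eq_of_injective hinj, hFeq]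
    refine (natDegree_C_mul_le _ _).trans ?_
    rw [natDegree_bernoulli]
  have hfe : f.coeff e = 1 := by
    have h1 : Fe.coeff e = D' := by
      have := hFeco e
      have h2 : (Polynomial.bernoulli e).coeff e = 1 := by
        have := monic_bernoulli e
        rw [Monic, leadingCoeff, natDegree_bernoulli] at this
        exact this
      rw [h2, mul_one] at this
      exact_mod_cast this
    rw [hf, coeff_C_mul, coeff_map, h1, inv_mul_cancel₀ hu']
  have hfm : f.Monic := monic_of_natDegree_le_of_coeff_eq_one e hfdeg hfe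
  have hfd : f.natDegree = e :=
    natDegree_eq_of_le_of_coeff_ne_zero hfdeg (by rw [hfe]; exact one_ne_zero)
  have hfun : Fe.comp (X + 1) - Fe = C (D' * e) * X ^ (e - 1) := by
    apply Polynomial.map_injective _ hinj
    rw [Polynomial.map_sub, Polynomial.map_comp, hFeq]
    have h1 := Polynomial.bernoulli_comp_one_add_X e
    have h2 : (X + 1 : ℤ[X]).map (Int.castRingHom ℚ) = 1 + X := by
      rw [Polynomial.map_add, Polynomial.map_X, Polynomial.map_one, add_comm]
    rw [h2, mul_comp, C_comp, h1]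
    simp only [Polynomial.map_mul, Polynomial.map_C, Polynomial.map_pow, Polynomial.map_X]
    rw [nsmul_eq_mul]
    have h3 : (Int.castRingHom ℚ) (D' * (e : ℤ)) = (D' : ℚ) * (e : ℚ) := by simp
    rw [h3, C_mul]
    have h4 : ((e : ℕ) : ℚ[X]) = C (e : ℚ) := by simp
    rw [h4]
    ring
  have hfunf : f.comp (X + 1) - f = C (e : ZMod p) * X ^ (e - 1) := by
    have h1 := congrArg (Polynomial.map φ) hfun
    have h2 : φ (D' * (e : ℤ)) = φ D' * (e : ZMod p) := by rw [map_mul, map_natCast]
    have h3 : (X + 1 : ℤ[X]).map φ = X + 1 := by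
      rw [Polynomial.map_add, Polynomial.map_X, Polynomial.map_one]
    rw [Polynomial.map_sub, Polynomial.map_comp, Polynomial.map_mul, Polynomial.map_C,
      Polynomial.map_pow, Polynomial.map_X, h2, h3] at h1
    rw [hf, mul_comp, C_comp, ← mul_sub, h1, ← mul_assoc, ← C_mul, ← mul_assoc,
      inv_mul_cancel₀ hu', one_mul]
  have hroots : (H1.map φ).roots + (G.map φ).roots = e • (Finset.univ : Finset (ZMod p)).val := by
    rw [← roots_mul (by rw [hprod]; exact hFm0), hprod, hFu, roots_C_mul _ hu, roots_pow]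
    congr 1
    have := FiniteField.roots_X_pow_card_sub_X (K := ZMod p)
    rwa [ZMod.card] at this
  have hcount : ∀ a : ZMod p, (H1.map φ).rootMultiplicity a + (G.map φ).rootMultiplicity a = e := by
    intro a
    have h1 := congrArg (Multiset.count a) hroots
    rw [Multiset.count_add, count_roots, count_roots, Multiset.count_nsmul] at h1
    rw [h1, Multiset.count_eq_one_of_mem (Finset.univ.nodup) (Finset.mem_univ a), mul_one]
  have hcard : (H1.map φ).roots.card + (G.map φ).roots.card = e * p := by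
    rw [← Multiset.card_add, hroots, Multiset.card_nsmul]
    congr 1
    change (Finset.univ : Finset (ZMod p)).card = p
    rw [Finset.card_univ, ZMod.card]
  have hc1 := card_roots' (H1.map φ)
  have hc2 := card_roots' (G.map φ)
  have hsumH : ∑ a : ZMod p, (H1.map φ).rootMultiplicity a = H1.natDegree := by
    rw [← hhd]
    have h1 : (H1.map φ).roots.card = (H1.map φ).natDegree := by omega
    rw [← h1, ← Multiset.sum_count_eq_card (s := Finset.univ) (fun a _ => Finset.mem_univ a)]
    apply Finset.sum_congr rfl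
    intro a _
    rw [count_roots]
  -- the main claim
  have hclaim : ∀ a : ZMod p, min ((H1.map φ).rootMultiplicity a)
      (e - (H1.map φ).rootMultiplicity a) ≤ f.rootMultiplicity a := by
    intro a
    set a' : ℕ := a.val with ha'
    have haa : (a' : ZMod p) = a := ZMod.natCast_zmod_val a
    rw [le_rootMultiplicity_iff hfm.ne_zero]
    rw [hf]
    apply Dvd.dvd.mul_left
    rw [← haa, blk_dvd_iff]
    intro i hi
    rw [haa, lt_min_iff] at hi
    obtain ⟨hi1, hi2⟩ := hi
    have hka : (G.map φ).rootMultiplicity a = e - (H1.map φ).rootMultiplicity a := by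
      have := hcount a
      omega
    have hH1a := (blk_dvd_iff H1 a' ((H1.map φ).rootMultiplicity a)).1
      (by rw [haa]; exact pow_rootMultiplicity_dvd _ _)
    have hGa := (blk_dvd_iff G a' ((G.map φ).rootMultiplicity a)).1
      (by rw [haa]; exact pow_rootMultiplicity_dvd _ _)
    have hsq := blk_mul_coeff _ _ _ _ i hH1a hGa hi1 (by rw [hka]; exact hi2)
    rw [← mul_comp, ← hG] at hsq
    obtain ⟨w, hw⟩ := hsq
    have hie : i + 2 ≤ e := by
      obtain ⟨x, hx⟩ := hee
      have := hcount a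
      omega
    have hen' : e ≤ n := by omega
    have hcoF : (((F.comp (X + C (a' : ℤ))).coeff i : ℤ) : ℚ) =
        (D * p : ℚ) * ((n.choose i : ℕ) * (Polynomial.bernoulli (n - i)).eval (a' : ℚ)) := by
      rw [← blk_taylor n i a' (by omega)]
      have h1 : ((F.comp (X + C (a' : ℤ))).map (Int.castRingHom ℚ)) =
          C ((D * p : ℤ) : ℚ) * (Polynomial.bernoulli n).comp (X + C (a' : ℚ)) := by
        rw [Polynomial.map_comp, hF, mul_comp, C_comp]
        simp
      have h2 := congrArg (fun Q => Q.coeff i) h1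
      simp only [coeff_map, coeff_C_mul] at h2
      simpa using h2
    have hcoe : (((Fe.comp (X + C (a' : ℤ))).coeff i : ℤ) : ℚ) =
        (D' : ℚ) * ((e.choose i : ℕ) * (Polynomial.bernoulli (e - i)).eval (a' : ℚ)) := by
      rw [← blk_taylor e i a' (by omega)]
      have h1 : ((Fe.comp (X + C (a' : ℤ))).map (Int.castRingHom ℚ)) =
          C (D' : ℚ) * (Polynomial.bernoulli e).comp (X + C (a' : ℚ)) := by
        rw [Polynomial.map_comp, hFeq, mul_comp, C_comp]
        simp
      have h2 := congrArg (fun Q => Q.coeff i) h1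
      simp only [coeff_map, coeff_C_mul] at h2
      simpa using h2
    have hmod : n ≡ e [MOD (p - 1)] := by
      rw [hn]
      exact (Nat.modEq_iff_dvd' (by omega)).2 (by
        rw [Nat.add_sub_cancel]; exact Dvd.intro_left _ rfl) |>.symm
    obtain ⟨-, hbv⟩ := bern_val p n e i a' hp hp5 he hee hen (by omega) hmod hie (by omega)
    set β := (Polynomial.bernoulli (n - i)).eval (a' : ℚ) with hβ
    set β0 := (Polynomial.bernoulli (e - i)).eval (a' : ℚ) with hβ0
    have hNu := blk_unit (p := p) (m := m) (e := e) (i := i) hp hem hmp (by omega)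
    rw [← hn] at hNu
    have hDN : ¬ (p : ℤ) ∣ D * ((n.choose i * (n - i) : ℕ) : ℤ) := by
      intro h
      rcases hpI.dvd_or_dvd h with h1 | h1
      · exact hD h1
      · exact hNu h1
    have hw' : (D : ℚ) * (n.choose i : ℕ) * β = p * w := by
      have h1 : (D * p : ℚ) * ((n.choose i : ℕ) * β) = (p : ℚ) ^ 2 * w := by
        rw [← hcoF, hw]
        push_cast
        ring
      have h2 : (p : ℚ) * ((D : ℚ) * (n.choose i : ℕ) * β) = (p : ℚ) * (p * w) := by
        linear_combination h1
      exact mul_left_cancel₀ hp0 h2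
    have hPIβ : PI p (β0 / p) := by
      apply blk_PI_of_mul hp hDN
      have h1 : ((D * ((n.choose i * (n - i) : ℕ) : ℤ) : ℤ) : ℚ) * (β0 / p) =
          ((e - i : ℕ) : ℚ) * (w : ℚ) + -((D : ℚ) * ((n.choose i : ℕ) : ℚ) *
            ((((e - i : ℕ) : ℚ) * β - ((n - i : ℕ) : ℚ) * β0) / p)) := by
        push_cast
        field_simp
        linear_combination ((e - i : ℕ) : ℚ) * hw'
      rw [h1]
      apply PI.add hp
      · exact PI.mul hp (PI.nat hp _) (PI.int hp _)
      · exact PI.neg hp (PI.mul hp (PI.mul hp (PI.int hp _) (PI.nat hp _)) hbv)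
    apply blk_dvd_of_PI hp
    rw [hcoe]
    have h1 : (D' : ℚ) * ((e.choose i : ℕ) * β0) / p = (D' : ℚ) * ((e.choose i : ℕ) : ℚ) * (β0 / p) := by
      ring
    rw [h1]
    exact PI.mul hp (PI.mul hp (PI.int hp _) (PI.nat hp _)) hPIβ
  have hcc : (H1.map φ).roots.card = (H1.map φ).natDegree := by omega
  have hprodf : H1.map φ = C ((H1.leadingCoeff : ℤ) : ZMod p) *
      ∏ a, (X - C a) ^ (H1.map φ).rootMultiplicity a := by
    have h1 := Polynomial.C_leadingCoeff_mul_prod_multiset_X_sub_C hcc
    have h2 : (H1.map φ).leadingCoeff = ((H1.leadingCoeff : ℤ) : ZMod p) := by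
      have h3 : φ H1.leadingCoeff ≠ 0 := by
        rw [Ne, hφ0]
        exact hpH1
      rw [leadingCoeff_map_of_leadingCoeff_ne_zero φ h3, hφ]
      simp
    rw [h2, Finset.prod_multiset_map_count] at h1
    have h4 : ∏ a ∈ (H1.map φ).roots.toFinset, (X - C a) ^ Multiset.count a (H1.map φ).roots =
        ∏ a, (X - C a) ^ (H1.map φ).rootMultiplicity a := by
      have h5 : ∏ a ∈ (H1.map φ).roots.toFinset, (X - C a) ^ Multiset.count a (H1.map φ).roots =
          ∏ a, (X - C a) ^ Multiset.count a (H1.map φ).roots := by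
        apply Finset.prod_subset (Finset.subset_univ _)
        intro a _ ha
        rw [Multiset.mem_toFinset] at ha
        rw [Multiset.count_eq_zero_of_notMem ha, pow_zero]
      rw [h5]
      apply Finset.prod_congr rfl
      intro a _
      rw [count_roots]
    rw [h4] at h1
    exact h1.symm
  exact ⟨hpH1, f, fun a => (H1.map φ).rootMultiplicity a, ⟨hfm, hfd, hfunf⟩, hprodf,
    fun a => by
      have := hcount a
      show (H1.map φ).rootMultiplicity a ≤ e
      omega, hsumH, hclaim⟩

theorem loc (n p : ℕ) [Fact p.Prime] (hn : Even n) (hu : Usable n p) (h : ℤ[X]) (hf : Fac n h)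
    (hdeg : h.natDegree + 1 < p) :
    ¬ (p : ℤ) ∣ h.leadingCoeff ∧ ∃ (f : (ZMod p)[X]) (mm : ZMod p → ℕ),
      Bern2.IsF p (n % (p - 1)) f ∧
      h.map (Int.castRingHom (ZMod p)) =
        C ((h.leadingCoeff : ℤ) : ZMod p) * ∏ a, (X - C a) ^ mm a ∧
      (∀ a, mm a ≤ n % (p - 1)) ∧ ∑ a, mm a = h.natDegree ∧
      ∀ a, min (mm a) (n % (p - 1) - mm a) ≤ f.rootMultiplicity a := by
  obtain ⟨hp, h6, hem, hmp⟩ := hu
  obtain ⟨hprim, hdv⟩ := hf
  have hnme : n / (p - 1) * (p - 1) + n % (p - 1) = n := by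
    have := Nat.div_add_mod n (p - 1)
    rwa [mul_comm] at this
  have hodd : Odd p := hp.odd_of_ne_two (by omega)
  have hee : Even (n % (p - 1)) := by
    have h1 : Even (p - 1) := by
      obtain ⟨k, hk⟩ := hodd
      exact ⟨k, by omega⟩
    have h2 : Even (n / (p - 1) * (p - 1)) := h1.mul_left _
    rw [← hnme] at hn
    exact (Nat.even_add.1 hn).1 h2
  apply loc_aux p (n / (p - 1)) (n % (p - 1)) (by omega) hee hem hmp (by rw [hnme]; exact hn) h
    hprim (by rw [hnme]; exact hdv) hdeg

end Pool.Agent.Bern3
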