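import Mathlib
import Pool.Agent.Bern2.WR2
import Pool.Agent.Bern3.Loc
import Pool.Agent.Bern3.Hkl

/-!
# HK-Cmb: the number of different zeros modulo a usable prime

Notation: `e = n % (p - 1)`, `M = Nat.sqrt e`, `i a = f.rootMultiplicity a`, `m a` from `loc`,
`D = h.natDegree`. Facts:
* `∑ a, i a ≤ e` (`f` is monic of degree `e`; `Pool.Agent.Bern2.sum_mult_le`, or `card_roots'`);
* `i a ≤ 2 M`: `Pool.Agent.Bern2.excess` (its first part: `(M + 1) * (i a - M) ≤ e` if
  `2 M + 1 ≤ e`, `e + 2 ≤ p`) and `e < (M + 1) ^ 2` give `i a - M ≤ M`; `2 M + 1 ≤ e` as `6 ≤ e`;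
* `nzr p h` = number of the `a` with `m a ≠ 0` (`Finset.card_bij` with `ZMod.val`, `h(a) = 0` in `ZMod p` iff
  `m a ≠ 0`; `lc ≠ 0`).

`cmb_spl`: write `∏ a, (X - C a) ^ m a` as a product over `Fin D` (`∑ m a = D`): the multiset
`∑ a, m a • {a}` has `D` elements, list it (`Multiset.toList`, `List.get`,
`Fin.prod_univ_getElem`...).

Let `Big = {a | i a < m a}`; then `e - m a ≤ i a` for `a ∈ Big` (from the `min`), and `m a ≤ i a`
for the others. `b = card Big`, `u = ∑_{Big} (e - m a) ≤ b * 2 M`, `s = ∑_{not Big} m a ≤ e`.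
`D = b e - u + s` (in `ℕ`: `D + u = b e + s`), `nzr p h ≤ b + s`.

`cmb_up`: `D = k e + t`, `1 ≤ t`, `t + (k + 1) * (2 M) < e`. If `b ≥ k + 1`: `b e - b 2 M ≤ D`, so
`b (e - 2 M) ≤ k e + t`, `(k + 1)(e - 2M) ≤ k e + t`, `e ≤ t + (k + 1) 2 M`: contradiction
(`2 M < e`). If `b ≤ k - 1`: `D ≤ b e + s ≤ b e + e ≤ k e < D`. So `b = k`, `s = t + u ≤ t + k 2 M`.

`cmb_lo`: `D = ∑ m a ≤ e * #{m a ≠ 0}`. `cmb_st`: `b (e - 2 M) ≤ D`, `2 M ≤ e / 2` for `16 ≤ e`
(`M ≤ e / 4` as `M ^ 2 ≤ e`, `4 ≤ M`), so `b e ≤ 2 D`; `nzr ≤ b + e`.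
-/

namespace Pool.Agent.Bern3

open Polynomial Finset

private theorem cb_list {R : Type} [CommRing R] (l : List R) (D : ℕ) (hl : l.length = D) :
    ∃ β : Fin D → R, ∏ r, (X - C (β r)) = (l.map (fun a => X - C a)).prod := by
  subst hl
  refine ⟨l.get, ?_⟩
  rw [← List.prod_ofFn]
  congr 1
  conv_rhs => rw [← List.ofFn_get l]
  rw [List.map_ofFn]
  rfl

private theorem cb_nzr (p : ℕ) [hp : Fact p.Prime] (h : ℤ[X]) (hlc : ¬ (p : ℤ) ∣ h.leadingCoeff)
    (mm : ZMod p → ℕ) (hmap : h.map (Int.castRingHom (ZMod p)) =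
        C ((h.leadingCoeff : ℤ) : ZMod p) * ∏ a, (X - C a) ^ mm a) :
    nzr p h = (univ.filter (fun a : ZMod p => mm a ≠ 0)).card := by
  classical
  have hz : ∀ a : ℕ, (p : ℤ) ∣ h.eval (a : ℤ) ↔ mm (a : ZMod p) ≠ 0 := by
    intro a
    rw [← ZMod.intCast_zmod_eq_zero_iff_dvd]
    have h1 := eval_intCast_map (Int.castRingHom (ZMod p)) h (a : ℤ)
    rw [hmap, eval_mul, eval_C, eval_prod] at h1
    simp only [eval_pow, eval_sub, eval_X, eval_C, Int.cast_natCast] at h1
    have h2 : ((h.eval (a : ℤ) : ℤ) : ZMod p) =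
        (h.leadingCoeff : ZMod p) * ∏ x : ZMod p, ((a : ZMod p) - x) ^ mm x := by
      rw [h1]
      rfl
    rw [h2, mul_eq_zero, or_iff_right, Finset.prod_eq_zero_iff]
    · constructor
      · rintro ⟨x, -, hx⟩ hzero
        have h4 : (a : ZMod p) = x := by
          by_contra hcon
          exact pow_ne_zero _ (sub_ne_zero.2 hcon) hx
        rw [← h4, hzero, pow_zero] at hx
        exact one_ne_zero hx
      · intro hne
        exact ⟨(a : ZMod p), mem_univ _, by rw [sub_self, zero_pow hne]⟩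
    · rw [ZMod.intCast_zmod_eq_zero_iff_dvd]
      exact hlc
  unfold nzr
  refine Finset.card_bij (fun a _ => (a : ZMod p)) ?_ ?_ ?_
  · intro a ha
    exact Finset.mem_filter.2 ⟨mem_univ _, (hz a).1 (Finset.mem_filter.1 ha).2⟩
  · intro a ha b hb hab
    have h1 := Finset.mem_range.1 (Finset.mem_filter.1 ha).1
    have h2 := Finset.mem_range.1 (Finset.mem_filter.1 hb).1
    rw [ZMod.natCast_eq_natCast_iff', Nat.mod_eq_of_lt h1, Nat.mod_eq_of_lt h2] at hab
    exact hab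
  · intro b hb
    refine ⟨b.val, Finset.mem_filter.2 ⟨Finset.mem_range.2 (ZMod.val_lt b), ?_⟩, ?_⟩
    · rw [hz, ZMod.natCast_zmod_val]
      exact (Finset.mem_filter.1 hb).2
    · exact ZMod.natCast_zmod_val b

theorem cmb_spl (n p : ℕ) (hn : Even n) (hu : Usable n p) (h : ℤ[X]) (hf : Fac n h)
    (hdeg : h.natDegree + 1 < p) : Spl p h := by
  classical
  have : Fact p.Prime := ⟨hu.1⟩
  obtain ⟨hlc, f, mm, -, hmap, -, hsum, -⟩ := loc n p hn hu h hf hdeg
  refine ⟨hlc, ?_⟩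
  obtain ⟨l, hl⟩ : ∃ l : List (ZMod p), (l : Multiset (ZMod p)) =
      ∑ a : ZMod p, mm a • ({a} : Multiset (ZMod p)) :=
    ⟨_, Multiset.coe_toList (∑ a : ZMod p, mm a • ({a} : Multiset (ZMod p)))⟩
  have hcard : l.length = h.natDegree := by
    have h1 : Multiset.card (∑ a : ZMod p, mm a • ({a} : Multiset (ZMod p))) = l.length := by
      rw [← hl]
      rfl
    rw [← h1, ← hsum, Multiset.card_sum]
    apply Finset.sum_congr rfl
    intro a _
    rw [Multiset.card_nsmul, Multiset.card_singleton, mul_one]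
  obtain ⟨β, hβ⟩ := cb_list l h.natDegree hcard
  refine ⟨β, ?_⟩
  rw [hmap, hβ]
  congr 1
  have h2 : ((l.map (fun a => (X - C a : (ZMod p)[X]))).prod) =
      ((∑ a : ZMod p, mm a • ({a} : Multiset (ZMod p))).map
        (fun a => (X - C a : (ZMod p)[X]))).prod := by
    rw [← hl]
    rfl
  rw [h2]
  have h3 : ∀ s : Finset (ZMod p), ((∑ a ∈ s, mm a • ({a} : Multiset (ZMod p))).map
      (fun a => (X - C a : (ZMod p)[X]))).prod = ∏ a ∈ s, (X - C a) ^ mm a := by
    intro s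
    induction s using Finset.induction_on with
    | empty => simp
    | insert a s ha ih =>
      rw [Finset.sum_insert ha, Finset.prod_insert ha, Multiset.map_add, Multiset.prod_add, ih,
        Multiset.map_nsmul, Multiset.prod_nsmul, Multiset.map_singleton, Multiset.prod_singleton]
  exact (h3 univ).symm

private theorem cb_core (n p : ℕ) (hn : Even n) (hu : Usable n p) (h : ℤ[X]) (hf : Fac n h)
    (hdeg : h.natDegree + 1 < p) : ∃ b s : ℕ, s ≤ n % (p - 1) ∧
      h.natDegree ≤ b * (n % (p - 1)) + s ∧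
      b * (n % (p - 1)) + s ≤ h.natDegree + b * (2 * Nat.sqrt (n % (p - 1))) ∧
      nzr p h ≤ b + s ∧ h.natDegree ≤ n % (p - 1) * nzr p h := by
  classical
  have : Fact p.Prime := ⟨hu.1⟩
  obtain ⟨hlc, f, mm, hF, hmap, hle, hsum, hmin⟩ := loc n p hn hu h hf hdeg
  have hnz := cb_nzr p h hlc mm hmap
  obtain ⟨-, h6, hem, hmp⟩ := hu
  generalize n % (p - 1) = e at *
  have hep : e + 2 ≤ p := by omega
  have hM1 : Nat.sqrt e * Nat.sqrt e ≤ e := Nat.sqrt_le e
  have hM2 : e < (Nat.sqrt e + 1) * (Nat.sqrt e + 1) := Nat.lt_succ_sqrt e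
  generalize Nat.sqrt e = M at *
  have hM3 : 2 * M + 1 ≤ e := by
    rcases Nat.lt_or_ge M 3 with h1 | h1
    · omega
    · nlinarith
  obtain ⟨hx, -⟩ := Pool.Agent.Bern2.excess hF M hM3 hep
  have hi : ∀ a : ZMod p, f.rootMultiplicity a ≤ 2 * M := by
    intro a
    by_contra hcon
    push Not at hcon
    have h1 := hx a
    have h2 : M + 1 ≤ f.rootMultiplicity a - M := by omega
    have h3 := Nat.mul_le_mul_left (M + 1) h2
    omega
  have hisum : ∑ a : ZMod p, f.rootMultiplicity a ≤ e := by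
    have h1 := Pool.Agent.Bern2.sum_mult_le f
    rw [hF.2.1] at h1
    exact h1
  let Big : Finset (ZMod p) := univ.filter (fun a => f.rootMultiplicity a < mm a)
  let Sm : Finset (ZMod p) := univ.filter (fun a => ¬ f.rootMultiplicity a < mm a)
  have hBig : ∀ a ∈ Big, e ≤ mm a + 2 * M ∧ mm a ≠ 0 := by
    intro a ha
    have h1 := (Finset.mem_filter.1 ha).2
    have h2 := hmin a
    have h3 := hi a
    rcases min_le_iff.1 h2 with h4 | h4
    · omega
    · constructor
      · omega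
      · omega
  have hSm : ∀ a ∈ Sm, mm a ≤ f.rootMultiplicity a := by
    intro a ha
    have h1 := (Finset.mem_filter.1 ha).2
    omega
  have hsplit : ∑ a ∈ Big, mm a + ∑ a ∈ Sm, mm a = h.natDegree := by
    rw [← hsum]
    exact Finset.sum_filter_add_sum_filter_not univ _ _
  have hs : ∑ a ∈ Sm, mm a ≤ e := by
    refine le_trans ?_ hisum
    refine (Finset.sum_le_sum hSm).trans ?_
    exact Finset.sum_le_sum_of_subset (Finset.subset_univ _)
  have hB1 : ∑ a ∈ Big, mm a ≤ Big.card * e := by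
    have h1 := Finset.sum_le_card_nsmul Big mm e (fun a _ => hle a)
    rw [smul_eq_mul] at h1
    exact h1
  have hB2 : Big.card * e ≤ ∑ a ∈ Big, mm a + Big.card * (2 * M) := by
    have h1 : ∑ a ∈ Big, e ≤ ∑ a ∈ Big, (mm a + 2 * M) :=
      Finset.sum_le_sum (fun a ha => (hBig a ha).1)
    rw [Finset.sum_add_distrib, Finset.sum_const, Finset.sum_const, smul_eq_mul, smul_eq_mul] at h1
    exact h1
  have hcount : (univ.filter (fun a : ZMod p => mm a ≠ 0)).card ≤
      Big.card + ∑ a ∈ Sm, mm a := by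
    have h1 : (univ.filter (fun a : ZMod p => mm a ≠ 0)) ⊆
        Big ∪ Sm.filter (fun a => mm a ≠ 0) := by
      intro a ha
      have h2 := (Finset.mem_filter.1 ha).2
      by_cases h3 : f.rootMultiplicity a < mm a
      · exact Finset.mem_union_left _ (Finset.mem_filter.2 ⟨mem_univ _, h3⟩)
      · exact Finset.mem_union_right _
          (Finset.mem_filter.2 ⟨Finset.mem_filter.2 ⟨mem_univ _, h3⟩, h2⟩)
    refine (Finset.card_le_card h1).trans ((Finset.card_union_le _ _).trans ?_)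
    apply Nat.add_le_add_left
    rw [Finset.card_eq_sum_ones]
    refine le_trans (Finset.sum_le_sum (f := fun _ => 1) (g := mm) ?_)
      (Finset.sum_le_sum_of_subset (Finset.filter_subset _ _))
    intro a ha
    have h2 := (Finset.mem_filter.1 ha).2
    show 1 ≤ mm a
    omega
  have hlow : h.natDegree ≤ e * (univ.filter (fun a : ZMod p => mm a ≠ 0)).card := by
    rw [← hsum, ← Finset.sum_filter_ne_zero]
    have h1 := Finset.sum_le_card_nsmul (univ.filter (fun a : ZMod p => mm a ≠ 0)) mm e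
      (fun a _ => hle a)
    rw [smul_eq_mul, mul_comm] at h1
    exact h1
  refine ⟨Big.card, ∑ a ∈ Sm, mm a, hs, ?_, ?_, ?_, ?_⟩
  · omega
  · omega
  · rw [hnz]
    exact hcount
  · rw [hnz]
    exact hlow

theorem cmb_up (n p : ℕ) (hn : Even n) (hu : Usable n p) (h : ℤ[X]) (hf : Fac n h)
    (hdeg : h.natDegree + 1 < p) (k t : ℕ) (ht : 1 ≤ t)
    (hD : h.natDegree = k * (n % (p - 1)) + t)
    (hlt : t + (k + 1) * (2 * Nat.sqrt (n % (p - 1))) < n % (p - 1)) :
    nzr p h ≤ k + t + k * (2 * Nat.sqrt (n % (p - 1))) := by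
  obtain ⟨b, s, h1, h2, h3, h4, -⟩ := cb_core n p hn hu h hf hdeg
  rw [hD] at h2 h3
  generalize n % (p - 1) = e at *
  generalize Nat.sqrt e = M at *
  generalize nzr p h = z at *
  clear hD hdeg hf hu hn
  obtain ⟨x, hx⟩ : ∃ x, e = 2 * M + x := by
    refine ⟨e - 2 * M, ?_⟩
    have : 2 * M ≤ (k + 1) * (2 * M) := Nat.le_mul_of_pos_left _ (Nat.succ_pos k)
    omega
  subst hx
  rcases Nat.lt_trichotomy b k with hb | hb | hb
  · exfalso
    have h5 : (b + 1) * (2 * M + x) ≤ k * (2 * M + x) := Nat.mul_le_mul_right _ hb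
    rw [Nat.add_mul, one_mul] at h5
    omega
  · subst hb
    omega
  · exfalso
    have h5 : (k + 1) * x ≤ b * x := Nat.mul_le_mul_right _ hb
    have h6 : b * (2 * M + x) = b * (2 * M) + b * x := Nat.mul_add _ _ _
    have h7 : k * (2 * M + x) = k * (2 * M) + k * x := Nat.mul_add _ _ _
    have h8 : (k + 1) * x = k * x + x := by ring
    have h9 : (k + 1) * (2 * M) = k * (2 * M) + 2 * M := by ring
    omega

theorem cmb_lo (n p : ℕ) (hn : Even n) (hu : Usable n p) (h : ℤ[X]) (hf : Fac n h)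
    (hdeg : h.natDegree + 1 < p) : h.natDegree ≤ n % (p - 1) * nzr p h := by
  obtain ⟨b, s, -, -, -, -, h5⟩ := cb_core n p hn hu h hf hdeg
  exact h5

theorem cmb_st (n p : ℕ) (hn : Even n) (hu : Usable n p) (h : ℤ[X]) (hf : Fac n h)
    (hdeg : h.natDegree + 1 < p) (h16 : 16 ≤ n % (p - 1)) :
    nzr p h * (n % (p - 1)) ≤ 2 * h.natDegree + (n % (p - 1)) ^ 2 := by
  obtain ⟨b, s, h1, h2, h3, h4, -⟩ := cb_core n p hn hu h hf hdeg
  have hM1 : Nat.sqrt (n % (p - 1)) * Nat.sqrt (n % (p - 1)) ≤ n % (p - 1) := Nat.sqrt_le _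
  have hM4 : 4 ≤ Nat.sqrt (n % (p - 1)) := Nat.le_sqrt.2 h16
  generalize n % (p - 1) = e at *
  generalize Nat.sqrt e = M at *
  generalize nzr p h = z at *
  generalize h.natDegree = D at *
  have h5 : 4 * M ≤ e := (Nat.mul_le_mul_right M hM4).trans hM1
  have h6 : b * (4 * M) ≤ b * e := Nat.mul_le_mul_left b h5
  have h7 : 2 * (b * (2 * M)) = b * (4 * M) := by ring
  have h8 : b * e ≤ 2 * D := by omega
  calc z * e ≤ (b + s) * e := Nat.mul_le_mul_right _ h4
    _ = b * e + s * e := by ring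
    _ ≤ 2 * D + e * e := Nat.add_le_add h8 (Nat.mul_le_mul_right _ h1)
    _ = 2 * D + e ^ 2 := by ring

end Pool.Agent.Bern3
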