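import Mathlib
import Pool.Agent.Bern3.Defs

/-!
# HK-Rtb: the complex zeros of `B_n` have absolute value at most `2 n`

PLAN. (1) `|B_j| ≤ j!` for all `j` (`_root_.bernoulli j`): put `b j = B_j / j!`. The recursion
`∑_{i ≤ j} C(j + 1, i) B_i = 0` for `j ≥ 1` (`_root_.sum_bernoulli` : `∑ k ∈ range n, n.choose k * B_k =
if n = 1 then 1 else 0`) gives `b j = - ∑_{i < j} b i / (j + 1 - i)!`, so by strong induction
`|b j| ≤ ∑_{k ≥ 2} 1 / k! ≤ 1` (finite sums: `∑_{k=2}^{m} 1/k! ≤ ∑_{k=2}^m 1/2^(k-1) ≤ 1`,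
`k! ≥ 2^(k-1)`: `Nat.two_pow_sub_one_le_factorial` or by induction).
(2) `B_n(x) = ∑_{j ≤ n} C(n, j) B_j x ^ (n - j)` (`Polynomial.bernoulli` unfolded:
`∑ i ∈ range (n + 1), monomial (n - i) (B_i * C(n, i))`). If `‖x‖ > 2 n` then
`‖B_n(x) - x ^ n‖ ≤ ∑_{1 ≤ j ≤ n} C(n, j) j! ‖x‖ ^ (n - j) ≤ ∑_{1 ≤ j ≤ n} n ^ j ‖x‖ ^ (n - j)
≤ ‖x‖ ^ n ∑_{1 ≤ j ≤ n} (1/2) ^ j < ‖x‖ ^ n` (`Nat.choose * j! = descFactorial ≤ n ^ j`).
-/

namespace Pool.Agent.Bern3

open Polynomial Finset

private theorem rtb_fac (i : ℕ) : 2 ^ (i + 1) ≤ (i + 2).factorial := by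
  induction i with
  | zero => decide
  | succ i ih =>
    rw [Nat.factorial_succ, pow_succ]
    nlinarith [Nat.zero_le (i * (i + 2).factorial)]

private theorem rtb_geo (j : ℕ) :
    ∑ i ∈ range j, 1 / ((i + 2).factorial : ℚ) ≤ 1 := by
  have h1 : ∀ j : ℕ, ∑ i ∈ range j, 1 / ((i + 2).factorial : ℚ) ≤ 1 - 1 / 2 ^ j := by
    intro j
    induction j with
    | zero => simp
    | succ j ih =>
      rw [sum_range_succ]
      have h2 : 1 / ((j + 2).factorial : ℚ) ≤ 1 / 2 ^ (j + 1) := by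
        apply one_div_le_one_div_of_le (by positivity)
        exact_mod_cast rtb_fac j
      have h3 : (1 : ℚ) / 2 ^ j = 1 / 2 ^ (j + 1) + 1 / 2 ^ (j + 1) := by
        rw [pow_succ]
        field_simp
        norm_num
      linarith
  have h2 := h1 j
  have h3 : (0 : ℚ) < 1 / 2 ^ j := by positivity
  linarith

private theorem rtb_bern (j : ℕ) : |_root_.bernoulli j| ≤ (j.factorial : ℚ) := by
  induction j using Nat.strong_induction_on with
  | _ j ih =>
    rcases Nat.eq_zero_or_pos j with rfl | hj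
    · rw [_root_.bernoulli_zero]
      simp
    · have h1 := _root_.sum_bernoulli (j + 1)
      rw [if_neg (by omega), sum_range_succ] at h1
      have h2 : ((j + 1).choose j : ℚ) = (j : ℚ) + 1 := by
        rw [Nat.choose_succ_self_right]
        push_cast
        ring
      rw [h2] at h1
      have h3 : ((j : ℚ) + 1) * _root_.bernoulli j =
          -∑ k ∈ range j, ((j + 1).choose k : ℚ) * _root_.bernoulli k := by linarith
      have h4 : ((j : ℚ) + 1) * |_root_.bernoulli j| ≤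
          ∑ k ∈ range j, ((j + 1).choose k : ℚ) * (k.factorial : ℚ) := by
        have h5 : ((j : ℚ) + 1) * |_root_.bernoulli j| = |((j : ℚ) + 1) * _root_.bernoulli j| := by
          rw [abs_mul, abs_of_pos (show (0 : ℚ) < (j : ℚ) + 1 by positivity)]
        rw [h5, h3, abs_neg]
        refine (abs_sum_le_sum_abs _ _).trans (sum_le_sum fun k hk => ?_)
        rw [abs_mul, abs_of_nonneg (by positivity)]
        exact mul_le_mul_of_nonneg_left (ih k (mem_range.1 hk)) (by positivity)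
      have h5 : ∑ k ∈ range j, ((j + 1).choose k : ℚ) * (k.factorial : ℚ) =
          ((j + 1).factorial : ℚ) * ∑ i ∈ range j, 1 / ((i + 2).factorial : ℚ) := by
        rw [← sum_range_reflect, mul_sum]
        refine sum_congr rfl fun k hk => ?_
        have hk' := mem_range.1 hk
        have h6 : (j + 1) - (j - 1 - k) = k + 2 := by omega
        have h7 := Nat.choose_mul_factorial_mul_factorial (n := j + 1) (k := j - 1 - k) (by omega)
        rw [h6] at h7
        have h8 : ((j + 1).choose (j - 1 - k) : ℚ) * ((j - 1 - k).factorial : ℚ) *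
            ((k + 2).factorial : ℚ) = ((j + 1).factorial : ℚ) := by exact_mod_cast h7
        rw [mul_one_div, eq_div_iff (by positivity)]
        exact h8
      have h6 : ((j + 1).factorial : ℚ) * ∑ i ∈ range j, 1 / ((i + 2).factorial : ℚ) ≤
          ((j + 1).factorial : ℚ) * 1 := mul_le_mul_of_nonneg_left (rtb_geo j) (by positivity)
      have h7 : ((j + 1).factorial : ℚ) = ((j : ℚ) + 1) * (j.factorial : ℚ) := by
        rw [Nat.factorial_succ]
        push_cast
        ring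
      have h8 : ((j : ℚ) + 1) * |_root_.bernoulli j| ≤ ((j : ℚ) + 1) * (j.factorial : ℚ) := by
        rw [← h7]
        linarith
      exact le_of_mul_le_mul_left h8 (by positivity)

theorem rtb (n : ℕ) (hn : 1 ≤ n) (x : ℂ)
    (hx : ((Polynomial.bernoulli n).map (algebraMap ℚ ℂ)).IsRoot x) : ‖x‖ ≤ 2 * n := by
  by_contra hcon
  have hx2 : 2 * (n : ℝ) < ‖x‖ := not_le.1 hcon
  have hn1 : (1 : ℝ) ≤ n := by exact_mod_cast hn
  have hx0 : 0 < ‖x‖ := by linarith
  have h1 : ((Polynomial.bernoulli n).map (algebraMap ℚ ℂ)).eval x =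
      ∑ i ∈ range (n + 1), ((_root_.bernoulli i : ℚ) : ℂ) * (n.choose i : ℂ) * x ^ (n - i) := by
    rw [Polynomial.bernoulli, Polynomial.map_sum, Polynomial.eval_finsetSum]
    refine sum_congr rfl fun i _ => ?_
    rw [Polynomial.map_monomial, Polynomial.eval_monomial]
    simp
  have h2 : ((Polynomial.bernoulli n).map (algebraMap ℚ ℂ)).eval x = 0 := hx
  rw [h1, sum_range_succ'] at h2
  simp only [_root_.bernoulli_zero, Nat.choose_zero_right, Nat.cast_one, Rat.cast_one, one_mul,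
    Nat.sub_zero] at h2
  have h3 : x ^ n = -∑ i ∈ range n, ((_root_.bernoulli (i + 1) : ℚ) : ℂ) *
      (n.choose (i + 1) : ℂ) * x ^ (n - (i + 1)) := by
    rw [add_comm] at h2
    exact eq_neg_of_add_eq_zero_left h2
  have h4 : ‖x‖ ^ n ≤ ∑ i ∈ range n, ‖x‖ ^ n * (1 / 2 ^ (i + 1)) := by
    have h5 : ‖x‖ ^ n = ‖∑ i ∈ range n, ((_root_.bernoulli (i + 1) : ℚ) : ℂ) *
        (n.choose (i + 1) : ℂ) * x ^ (n - (i + 1))‖ := by
      rw [← norm_pow, h3, norm_neg]
    refine (le_of_eq h5).trans ((norm_sum_le _ _).trans (sum_le_sum fun i hi => ?_))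
    have hi' := mem_range.1 hi
    rw [norm_mul, norm_mul, norm_pow]
    have h6 : ‖((_root_.bernoulli (i + 1) : ℚ) : ℂ)‖ ≤ ((i + 1).factorial : ℝ) := by
      rw [← Complex.ofReal_ratCast, Complex.norm_real, Real.norm_eq_abs]
      have h7 : ((|_root_.bernoulli (i + 1)| : ℚ) : ℝ) ≤ (((i + 1).factorial : ℚ) : ℝ) := by
        exact_mod_cast rtb_bern (i + 1)
      push_cast at h7
      exact h7
    have h7 : ‖((n.choose (i + 1) : ℕ) : ℂ)‖ = (n.choose (i + 1) : ℝ) := by
      rw [Complex.norm_natCast]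
    rw [h7]
    have h8 : ((i + 1).factorial : ℝ) * (n.choose (i + 1) : ℝ) ≤ (n : ℝ) ^ (i + 1) := by
      have h9 := Nat.descFactorial_le_pow n (i + 1)
      rw [Nat.descFactorial_eq_factorial_mul_choose] at h9
      exact_mod_cast h9
    have h9 : (n : ℝ) ^ (i + 1) ≤ (‖x‖ / 2) ^ (i + 1) :=
      pow_le_pow_left₀ (by positivity) (by linarith) _
    have h10 : ‖((_root_.bernoulli (i + 1) : ℚ) : ℂ)‖ * (n.choose (i + 1) : ℝ) ≤
        (‖x‖ / 2) ^ (i + 1) :=
      (mul_le_mul_of_nonneg_right h6 (by positivity)).trans (h8.trans h9)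
    refine (mul_le_mul_of_nonneg_right h10 (by positivity)).trans (le_of_eq ?_)
    have h11 : ‖x‖ ^ n = ‖x‖ ^ (i + 1) * ‖x‖ ^ (n - (i + 1)) := by
      rw [← pow_add]
      congr 1
      omega
    rw [h11, div_pow]
    ring
  have h5 : ∀ m : ℕ, ∑ i ∈ range m, (1 : ℝ) / 2 ^ (i + 1) = 1 - 1 / 2 ^ m := by
    intro m
    induction m with
    | zero => simp
    | succ m ih =>
      rw [sum_range_succ, ih, pow_succ]
      field_simp
      ring
  rw [← mul_sum, h5 n] at h4
  have h6 : 0 < ‖x‖ ^ n := by positivity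
  have h7 : (0 : ℝ) < 1 / 2 ^ n := by positivity
  nlinarith [mul_pos h6 h7]

end Pool.Agent.Bern3
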