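import Mathlib
import Pool.Agent.Bern3.Cmb
import Pool.Agent.Bern3.Rtb

/-!
# HK-Key: the Hankel inequality for factors of `B_n`

The inequality `hkl` for a factor `h` of `B_n` (all zeros of absolute value at most `2 n`) in
logarithmic form.
-/

namespace Pool.Agent.Bern3

open Polynomial Finset

private theorem root_le (n : ℕ) (hn1 : 1 ≤ n) (h : ℤ[X]) (hf : Fac n h) (x : ℂ)
    (hx : (h.map (Int.castRingHom ℂ)).IsRoot x) : ‖x‖ ≤ 2 * n := by
  apply rtb n hn1 x
  have h1 : (h.map (Int.castRingHom ℚ)).map (algebraMap ℚ ℂ) ∣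
      (Polynomial.bernoulli n).map (algebraMap ℚ ℂ) := Polynomial.map_dvd _ hf.2
  have h2 : (h.map (Int.castRingHom ℚ)).map (algebraMap ℚ ℂ) = h.map (Int.castRingHom ℂ) := by
    rw [Polynomial.map_map]
    congr 1
  rw [h2] at h1
  exact hx.dvd h1

theorem key (n : ℕ) (hn : Even n) (hn1 : 1 ≤ n) (h : ℤ[X]) (hf : Fac n h)
    (hD : 1 ≤ h.natDegree) (q : ℕ) (hq : Usable n q) (hqD : h.natDegree + 1 < q) (r : ℕ)
    (U : Finset ℕ) (hU : ∀ p ∈ U, Usable n p ∧ h.natDegree + 1 < p ∧ nzr p h ≤ r) :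
    ((nzr q h : ℝ) - r) * ∑ p ∈ U, Real.log p ≤
      2 * nzr q h * Real.log |(h.leadingCoeff : ℝ)| + nzr q h * Real.log h.natDegree +
        nzr q h * Real.log (nzr q h) + (nzr q h : ℝ) ^ 2 * Real.log (2 * n) := by
  have hn1' : (1 : ℝ) ≤ n := by exact_mod_cast hn1
  have hR : (1 : ℝ) ≤ 2 * n := by linarith
  have h0 : h ≠ 0 := by
    rintro rfl
    simp at hD
  have hc0 : h.leadingCoeff ≠ 0 := leadingCoeff_ne_zero.2 h0
  have hc1 : (1 : ℝ) ≤ |(h.leadingCoeff : ℝ)| := by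
    have h1 : (1 : ℤ) ≤ |h.leadingCoeff| := Int.one_le_abs hc0
    have h2 : ((1 : ℤ) : ℝ) ≤ ((|h.leadingCoeff| : ℤ) : ℝ) := Int.cast_le.2 h1
    rwa [Int.cast_one, Int.cast_abs] at h2
  have hDr : (1 : ℝ) ≤ h.natDegree := by exact_mod_cast hD
  have hin := hkl h hD (2 * n) hR (fun x hx => root_le n hn1 h hf x hx) q hq.1 (by omega)
    (cmb_spl n q hn hq h hf hqD) U
    (fun p hp => ⟨(hU p hp).1.1, cmb_spl n p hn (hU p hp).1 h hf (hU p hp).2.1⟩)
  set L := nzr q h with hL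
  have hpos : ∀ p ∈ U, (0 : ℝ) < (p : ℝ) := fun p hp => by
    exact_mod_cast (hU p hp).1.1.pos
  have hlogp : ∀ p ∈ U, 0 ≤ Real.log p := fun p hp => Real.log_natCast_nonneg p
  -- logarithm of the left side
  have hleft : Real.log (∏ p ∈ U, (p : ℝ) ^ (L - nzr p h)) =
      ∑ p ∈ U, ((L - nzr p h : ℕ) : ℝ) * Real.log p := by
    rw [Real.log_prod (fun p hp => (pow_pos (hpos p hp) _).ne')]
    apply Finset.sum_congr rfl
    intro p _
    rw [Real.log_pow]
  have hlow : ((L : ℝ) - r) * ∑ p ∈ U, Real.log p ≤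
      ∑ p ∈ U, ((L - nzr p h : ℕ) : ℝ) * Real.log p := by
    rw [Finset.mul_sum]
    apply Finset.sum_le_sum
    intro p hp
    apply mul_le_mul_of_nonneg_right _ (hlogp p hp)
    have h1 : (L : ℝ) ≤ ((L - nzr p h : ℕ) : ℝ) + (nzr p h : ℝ) := by
      have h2 : L ≤ (L - nzr p h) + nzr p h := by omega
      exact_mod_cast h2
    have h3 : (nzr p h : ℝ) ≤ r := by exact_mod_cast (hU p hp).2.2
    linarith
  -- logarithm of the right side
  have hfac : (0 : ℝ) < (L.factorial : ℝ) := by exact_mod_cast Nat.factorial_pos L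
  have hcp : 0 < |(h.leadingCoeff : ℝ)| := by linarith
  have hDp : (0 : ℝ) < (h.natDegree : ℝ) := by linarith
  have hRp : (0 : ℝ) < 2 * n := by linarith
  have hright : Real.log (|(h.leadingCoeff : ℝ)| ^ (2 * (L - 1)) * (h.natDegree : ℝ) ^ L *
      (L.factorial : ℝ) * (2 * (n : ℝ)) ^ (L * (L - 1))) =
      ((2 * (L - 1) : ℕ) : ℝ) * Real.log |(h.leadingCoeff : ℝ)| + L * Real.log h.natDegree +
        Real.log L.factorial + ((L * (L - 1) : ℕ) : ℝ) * Real.log (2 * n) := by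
    rw [Real.log_mul (by positivity) (by positivity), Real.log_mul (by positivity) (by positivity),
      Real.log_mul (by positivity) (by positivity), Real.log_pow, Real.log_pow, Real.log_pow]
  have hlogc : 0 ≤ Real.log |(h.leadingCoeff : ℝ)| := Real.log_nonneg hc1
  have hlogn : 0 ≤ Real.log (2 * (n : ℝ)) := Real.log_nonneg hR
  have hfl : Real.log L.factorial ≤ L * Real.log L := by
    have h1 : (L.factorial : ℝ) ≤ ((L ^ L : ℕ) : ℝ) := by exact_mod_cast Nat.factorial_le_pow L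
    have h2 := Real.log_le_log hfac h1
    rwa [Nat.cast_pow, Real.log_pow] at h2
  have hLpos : (0 : ℝ) < ∏ p ∈ U, (p : ℝ) ^ (L - nzr p h) :=
    Finset.prod_pos fun p hp => pow_pos (hpos p hp) _
  have hlog := Real.log_le_log hLpos hin
  rw [hleft, hright] at hlog
  have e1 : ((2 * (L - 1) : ℕ) : ℝ) * Real.log |(h.leadingCoeff : ℝ)| ≤
      2 * L * Real.log |(h.leadingCoeff : ℝ)| := by
    apply mul_le_mul_of_nonneg_right _ hlogc
    have h1 : 2 * (L - 1) ≤ 2 * L := by omega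
    exact_mod_cast h1
  have e2 : ((L * (L - 1) : ℕ) : ℝ) * Real.log (2 * n) ≤ (L : ℝ) ^ 2 * Real.log (2 * n) := by
    apply mul_le_mul_of_nonneg_right _ hlogn
    have h1 : L * (L - 1) ≤ L ^ 2 := by
      rw [sq]
      exact Nat.mul_le_mul_left L (Nat.sub_le L 1)
    exact_mod_cast h1
  linarith

end Pool.Agent.Bern3
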