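import Mathlib
import Pool.Agent.Bern3.Defs

/-!
# HK-Num: elementary estimates for the parameters

Everything holds for `D` larger than a constant depending on `δ` only. `T = ⌊D ^ (1 - δ)⌋₊`,
`D ^ (δ / 4) < k ≤ D ^ (δ / 2)`. The only facts used are `40 D ^ (1/2 + δ/4) ≤ D ^ (1 - δ)` and
`8 / δ ≤ log D`, true for large `D`.
-/

namespace Pool.Agent.Bern3

open Polynomial Finset

private theorem nm_ev (δ : ℝ) (hδ : 0 < δ) (hδ1 : δ ≤ 1 / 10) : ∃ D0 : ℕ, ∀ D : ℕ, D0 ≤ D →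
    1 < (D : ℝ) ∧ 40 * (D : ℝ) ^ (1 / 2 + δ / 4) ≤ (D : ℝ) ^ (1 - δ) ∧ 8 / δ ≤ Real.log D := by
  have h1 := (tendsto_rpow_atTop (show (0 : ℝ) < 1 / 2 - 5 * δ / 4 by linarith)).comp
    tendsto_natCast_atTop_atTop
  have h2 := h1.eventually_ge_atTop 40
  have h3 := (Real.tendsto_log_atTop.comp tendsto_natCast_atTop_atTop).eventually_ge_atTop (8 / δ)
  obtain ⟨D0, hD0⟩ := Filter.eventually_atTop.1
    ((h2.and h3).and (Filter.eventually_ge_atTop (2 : ℕ)))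
  refine ⟨D0, fun D hD => ?_⟩
  obtain ⟨⟨h4, h5⟩, h6⟩ := hD0 D hD
  have hx : (1 : ℝ) < D := by
    have : (2 : ℝ) ≤ D := by exact_mod_cast h6
    linarith
  refine ⟨hx, ?_, h5⟩
  have h7 : (D : ℝ) ^ (1 - δ) = (D : ℝ) ^ (1 / 2 - 5 * δ / 4) * (D : ℝ) ^ (1 / 2 + δ / 4) := by
    rw [← Real.rpow_add (by linarith)]
    congr 1
    ring
  rw [h7]
  exact mul_le_mul_of_nonneg_right h4 (Real.rpow_nonneg (by linarith) _)

theorem num1 (δ : ℝ) (hδ : 0 < δ) (hδ1 : δ ≤ 1 / 10) : ∃ D0 : ℕ, ∀ D : ℕ, D0 ≤ D →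
    ∀ k e : ℕ, (D : ℝ) ^ (δ / 4) < k → (k : ℝ) ≤ (D : ℝ) ^ (δ / 2) →
    (D - ⌊(D : ℝ) ^ (1 - δ)⌋₊ / 4) / k < e → e ≤ (D - ⌊(D : ℝ) ^ (1 - δ)⌋₊ / 8) / k →
    6 ≤ e ∧ (e : ℝ) ≤ (D : ℝ) ^ (1 - δ / 4) ∧ ∃ t : ℕ, 1 ≤ t ∧ D = k * e + t ∧
      t + (k + 1) * (2 * Nat.sqrt e) < e ∧
      k + t + k * (2 * Nat.sqrt e) ≤ ⌊(D : ℝ) ^ (1 - δ)⌋₊ / 2 := by
  obtain ⟨D0, hD0⟩ := nm_ev δ hδ hδ1
  refine ⟨D0, fun D hD k e hk1 hk2 he1 he2 => ?_⟩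
  obtain ⟨hx, hAB, -⟩ := hD0 D hD
  set T : ℕ := ⌊(D : ℝ) ^ (1 - δ)⌋₊ with hT
  set x : ℝ := (D : ℝ) with hxD
  have hx0 : 0 < x := by linarith
  set A : ℝ := x ^ (1 / 2 + δ / 4) with hA
  set B : ℝ := x ^ (1 - δ) with hB
  have hA1 : 1 ≤ A := Real.one_le_rpow hx.le (by linarith)
  have hTB : (T : ℝ) ≤ B := Nat.floor_le (Real.rpow_nonneg hx0.le _)
  have hTB' : B < (T : ℝ) + 1 := Nat.lt_floor_add_one _
  have hBx : B ≤ x ^ (1 - δ / 2) := Real.rpow_le_rpow_of_exponent_le hx.le (by linarith)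
  have hBx1 : B ≤ x := by
    calc B ≤ x ^ (1 : ℝ) := Real.rpow_le_rpow_of_exponent_le hx.le (by linarith)
      _ = x := Real.rpow_one x
  have hk0 : (0 : ℝ) < k := lt_of_le_of_lt (Real.rpow_nonneg hx0.le _) hk1
  have hkpos : 0 < k := by exact_mod_cast hk0
  have hkA : (k : ℝ) ≤ A := hk2.trans (Real.rpow_le_rpow_of_exponent_le hx.le (by linarith))
  have e1 : D - T / 4 < e * k := (Nat.div_lt_iff_lt_mul hkpos).1 he1
  have e2 : e * k ≤ D - T / 8 := (Nat.le_div_iff_mul_le hkpos).1 he2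
  have hT8 : 8 ≤ T := by
    have : (8 : ℝ) ≤ T := by linarith
    exact_mod_cast this
  have hTD : T ≤ D := by
    have : (T : ℝ) ≤ (D : ℝ) := hTB.trans hBx1
    exact_mod_cast this
  have hek : (e : ℝ) * k ≤ x := by
    have h1 : e * k ≤ D := by omega
    have h2 : ((e * k : ℕ) : ℝ) ≤ (D : ℝ) := Nat.cast_le.2 h1
    push_cast at h2
    exact h2
  have hekl : x / 2 ≤ (e : ℝ) * k := by
    have h1 : D ≤ 2 * (e * k) := by omega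
    have h2 : (D : ℝ) ≤ ((2 * (e * k) : ℕ) : ℝ) := Nat.cast_le.2 h1
    push_cast at h2
    have h3 : x ≤ 2 * ((e : ℝ) * k) := h2
    linarith
  have hxs : x ^ (1 - δ / 2) * x ^ (δ / 2) = x := by
    rw [← Real.rpow_add hx0]
    rw [show 1 - δ / 2 + δ / 2 = 1 by ring, Real.rpow_one]
  have hxs' : x ^ (1 - δ / 4) * x ^ (δ / 4) = x := by
    rw [← Real.rpow_add hx0]
    rw [show 1 - δ / 4 + δ / 4 = 1 by ring, Real.rpow_one]
  have hp2 : 0 < x ^ (δ / 2) := Real.rpow_pos_of_pos hx0 _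
  have hp4 : 0 < x ^ (δ / 4) := Real.rpow_pos_of_pos hx0 _
  have he0 : (0 : ℝ) ≤ e := Nat.cast_nonneg _
  -- lower bound for e
  have hel : x ^ (1 - δ / 2) / 2 ≤ e := by
    have h1 : x ^ (1 - δ / 2) / 2 * x ^ (δ / 2) ≤ (e : ℝ) * x ^ (δ / 2) := by
      calc x ^ (1 - δ / 2) / 2 * x ^ (δ / 2) = x ^ (1 - δ / 2) * x ^ (δ / 2) / 2 := by ring
        _ = x / 2 := by rw [hxs]
        _ ≤ (e : ℝ) * k := hekl
        _ ≤ (e : ℝ) * x ^ (δ / 2) := mul_le_mul_of_nonneg_left hk2 he0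
    exact le_of_mul_le_mul_right h1 hp2
  -- the square root
  have hs0 : ((Nat.sqrt e : ℕ) : ℝ) ≤ √(e : ℝ) := Real.nat_sqrt_le_real_sqrt
  have hks : (k : ℝ) * (Nat.sqrt e : ℕ) ≤ A := by
    have h1 : (k : ℝ) * √(e : ℝ) ≤ A := by
      have h2 : (k : ℝ) * √(e : ℝ) = √(k : ℝ) * √((e : ℝ) * k) := by
        rw [Real.sqrt_mul he0]
        have h3 : √(k : ℝ) * √(k : ℝ) = k := Real.mul_self_sqrt hk0.le
        calc (k : ℝ) * √(e : ℝ) = (√(k : ℝ) * √(k : ℝ)) * √(e : ℝ) := by rw [h3]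
          _ = √(k : ℝ) * (√(e : ℝ) * √(k : ℝ)) := by ring
      have h4 : √(k : ℝ) ≤ x ^ (δ / 4) := by
        rw [Real.sqrt_le_left hp4.le]
        refine hk2.trans (le_of_eq ?_)
        rw [← Real.rpow_natCast, ← Real.rpow_mul hx0.le]
        congr 1
        push_cast
        ring
      have h5 : √((e : ℝ) * k) ≤ x ^ (1 / 2 : ℝ) := by
        rw [← Real.sqrt_eq_rpow]
        exact Real.sqrt_le_sqrt hek
      rw [h2]
      calc √(k : ℝ) * √((e : ℝ) * k) ≤ x ^ (δ / 4) * x ^ (1 / 2 : ℝ) :=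
            mul_le_mul h4 h5 (Real.sqrt_nonneg _) hp4.le
        _ = A := by
            rw [← Real.rpow_add hx0, hA]
            congr 1
            ring
    exact (mul_le_mul_of_nonneg_left hs0 hk0.le).trans h1
  have hlt : B < x ^ (1 - δ / 2) := Real.rpow_lt_rpow_of_exponent_lt hx (by linarith)
  have hk1' : (1 : ℝ) ≤ k := by exact_mod_cast hkpos
  have hsn : (0 : ℝ) ≤ (Nat.sqrt e : ℕ) := Nat.cast_nonneg _
  refine ⟨?_, ?_, D - k * e, ?_, ?_, ?_, ?_⟩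
  · have h1 : (6 : ℝ) ≤ e := by linarith
    exact_mod_cast h1
  · have h1 : (e : ℝ) * x ^ (δ / 4) ≤ x ^ (1 - δ / 4) * x ^ (δ / 4) := by
      rw [hxs']
      exact (mul_le_mul_of_nonneg_left hk1.le he0).trans hek
    exact le_of_mul_le_mul_right h1 hp4
  · rw [mul_comm k e]
    omega
  · rw [mul_comm k e]
    omega
  · have h1 : (((D - k * e : ℕ) : ℝ)) ≤ B / 4 := by
      have h2 : 4 * (D - k * e) ≤ T := by
        rw [mul_comm k e]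
        omega
      have h3 : 4 * ((D - k * e : ℕ) : ℝ) ≤ T := by exact_mod_cast h2
      linarith
    have h4 : (((k : ℝ) + 1) * (2 * (Nat.sqrt e : ℕ))) ≤ 4 * A := by
      have h5 : (Nat.sqrt e : ℕ) ≤ (k : ℝ) * (Nat.sqrt e : ℕ) := le_mul_of_one_le_left hsn hk1'
      nlinarith
    have h6 : (((D - k * e : ℕ) : ℝ)) + ((k : ℝ) + 1) * (2 * (Nat.sqrt e : ℕ)) < e := by
      linarith
    exact_mod_cast h6
  · have h1 : (k : ℝ) + k * (2 * (Nat.sqrt e : ℕ)) ≤ 3 * A := by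
      have h2 : (k : ℝ) * (2 * (Nat.sqrt e : ℕ)) = 2 * (k * (Nat.sqrt e : ℕ)) := by ring
      rw [h2]
      linarith
    have h3 : 8 * ((k : ℝ) + k * (2 * (Nat.sqrt e : ℕ))) ≤ T := by linarith
    have h4 : 8 * (k + k * (2 * Nat.sqrt e)) ≤ T := by exact_mod_cast h3
    rw [mul_comm k e]
    omega

theorem num2 (δ : ℝ) (hδ : 0 < δ) (hδ1 : δ ≤ 1 / 10) : ∃ D0 : ℕ, ∀ D : ℕ, D0 ≤ D →
    ∀ k k' : ℕ, (D : ℝ) ^ (δ / 4) < k → k < k' → (k' : ℝ) ≤ (D : ℝ) ^ (δ / 2) →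
    (D - ⌊(D : ℝ) ^ (1 - δ)⌋₊ / 8) / k' ≤ (D - ⌊(D : ℝ) ^ (1 - δ)⌋₊ / 4) / k := by
  obtain ⟨D0, hD0⟩ := nm_ev δ hδ hδ1
  refine ⟨D0, fun D hD k k' hk1 hkk hk2 => ?_⟩
  obtain ⟨hx, -, -⟩ := hD0 D hD
  set T : ℕ := ⌊(D : ℝ) ^ (1 - δ)⌋₊ with hT
  have hx0 : (0 : ℝ) < D := by linarith
  have hTB : (T : ℝ) ≤ (D : ℝ) ^ (1 - δ) := Nat.floor_le (Real.rpow_nonneg hx0.le _)
  have hk0 : (0 : ℝ) < k := lt_of_le_of_lt (Real.rpow_nonneg hx0.le _) hk1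
  have hkpos : 0 < k := by exact_mod_cast hk0
  have h1 : (T : ℝ) * k' ≤ D := by
    calc (T : ℝ) * k' ≤ (D : ℝ) ^ (1 - δ) * (D : ℝ) ^ (δ / 2) :=
          mul_le_mul hTB hk2 (Nat.cast_nonneg _) (Real.rpow_nonneg hx0.le _)
      _ = (D : ℝ) ^ (1 - δ / 2) := by
          rw [← Real.rpow_add hx0]
          congr 1
          ring
      _ ≤ (D : ℝ) ^ (1 : ℝ) := Real.rpow_le_rpow_of_exponent_le hx.le (by linarith)
      _ = D := Real.rpow_one _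
  have h2 : T * k' ≤ D := by exact_mod_cast h1
  have h2' : T ≤ D := (Nat.le_mul_of_pos_right T (by omega)).trans h2
  have h3 : T / 4 ≤ (D - T / 8) / k' := by
    rw [Nat.le_div_iff_mul_le (by omega)]
    have h4 : 4 * (T / 4 * k') ≤ D := by
      calc 4 * (T / 4 * k') = (T / 4 * 4) * k' := by ring
        _ ≤ T * k' := Nat.mul_le_mul_right _ (Nat.div_mul_le_self _ _)
        _ ≤ D := h2
    omega
  obtain ⟨a, ha⟩ : ∃ a, a = (D - T / 8) / k' := ⟨_, rfl⟩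
  rw [← ha] at h3 ⊢
  have h4 : a * k' ≤ D - T / 8 := by
    rw [ha]
    exact Nat.div_mul_le_self _ _
  rw [Nat.le_div_iff_mul_le hkpos]
  have h5 : a * k + a ≤ a * k' := by
    calc a * k + a = a * (k + 1) := by ring
      _ ≤ a * k' := Nat.mul_le_mul_left _ hkk
  omega

private theorem nm_harm (a : ℕ) : ∀ n : ℕ, a ≤ n →
    Real.log (n + 1) - Real.log (a + 1) ≤ ∑ k ∈ Ioc a n, (1 : ℝ) / k := by
  intro n hn
  induction n, hn using Nat.le_induction with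
  | base => simp
  | succ n hn ih =>
    rw [Finset.sum_Ioc_succ_top (by omega)]
    have h1 : (0 : ℝ) < (n : ℝ) + 1 := by positivity
    have h2 : Real.log ((n : ℝ) + 1 + 1) - Real.log ((n : ℝ) + 1) ≤ 1 / ((n : ℝ) + 1) := by
      rw [← Real.log_div (by positivity) (by positivity)]
      have h3 : ((n : ℝ) + 1 + 1) / ((n : ℝ) + 1) = 1 + 1 / ((n : ℝ) + 1) := by
        field_simp
      rw [h3]
      have h4 := Real.log_le_sub_one_of_pos (show 0 < 1 + 1 / ((n : ℝ) + 1) by positivity)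
      linarith
    push_cast
    linarith

private theorem nm_term {D T k : ℕ} (hk : 0 < k) (h : 16 * (k + 1) ≤ T) (hTD : T ≤ D) :
    (T : ℝ) / 16 * (1 / k) ≤ (((D - T / 8) / k : ℕ) : ℝ) - (((D - T / 4) / k : ℕ) : ℝ) := by
  have hk0 : (0 : ℝ) < k := by exact_mod_cast hk
  have h1 : (((D - T / 4) / k : ℕ) : ℝ) * k ≤ ((D - T / 4 : ℕ) : ℝ) := by
    exact_mod_cast Nat.div_mul_le_self _ _
  have h2 : ((D - T / 8 : ℕ) : ℝ) ≤ ((((D - T / 8) / k : ℕ) : ℝ) + 1) * k := by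
    have h3 : D - T / 8 < ((D - T / 8) / k + 1) * k := by
      rw [← Nat.div_lt_iff_lt_mul hk]
      exact Nat.lt_succ_self _
    exact_mod_cast h3.le
  have h4 : (T : ℝ) / 16 + ((D - T / 4 : ℕ) : ℝ) + k ≤ ((D - T / 8 : ℕ) : ℝ) := by
    have h5 : T + 16 * (D - T / 4) + 16 * k ≤ 16 * (D - T / 8) := by omega
    have h6 : (T : ℝ) + 16 * ((D - T / 4 : ℕ) : ℝ) + 16 * k ≤ 16 * ((D - T / 8 : ℕ) : ℝ) := by
      exact_mod_cast h5
    linarith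
  have h7 : (T : ℝ) / 16 ≤
      ((((D - T / 8) / k : ℕ) : ℝ) - (((D - T / 4) / k : ℕ) : ℝ)) * k := by
    linarith
  calc (T : ℝ) / 16 * (1 / k) ≤
        (((((D - T / 8) / k : ℕ) : ℝ) - (((D - T / 4) / k : ℕ) : ℝ)) * k) * (1 / k) :=
        mul_le_mul_of_nonneg_right h7 (by positivity)
    _ = (((D - T / 8) / k : ℕ) : ℝ) - (((D - T / 4) / k : ℕ) : ℝ) := by
        field_simp

theorem num3 (δ : ℝ) (hδ : 0 < δ) (hδ1 : δ ≤ 1 / 10) : ∃ D0 : ℕ, ∀ D : ℕ, D0 ≤ D →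
    δ * ⌊(D : ℝ) ^ (1 - δ)⌋₊ * Real.log D / 100 ≤
      ∑ k ∈ Ioc ⌊(D : ℝ) ^ (δ / 4)⌋₊ ⌊(D : ℝ) ^ (δ / 2)⌋₊,
        ((((D - ⌊(D : ℝ) ^ (1 - δ)⌋₊ / 8) / k : ℕ) : ℝ) -
          (((D - ⌊(D : ℝ) ^ (1 - δ)⌋₊ / 4) / k : ℕ) : ℝ)) := by
  obtain ⟨D0, hD0⟩ := nm_ev δ hδ hδ1
  refine ⟨D0, fun D hD => ?_⟩
  obtain ⟨hx, hAB, hlog⟩ := hD0 D hD
  set T : ℕ := ⌊(D : ℝ) ^ (1 - δ)⌋₊ with hT
  have hx0 : (0 : ℝ) < D := by linarith
  have hA1 : 1 ≤ (D : ℝ) ^ (1 / 2 + δ / 4) := Real.one_le_rpow hx.le (by linarith)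
  have hTB : (T : ℝ) ≤ (D : ℝ) ^ (1 - δ) := Nat.floor_le (Real.rpow_nonneg hx0.le _)
  have hTB' : (D : ℝ) ^ (1 - δ) < (T : ℝ) + 1 := Nat.lt_floor_add_one _
  have hTD : T ≤ D := by
    have h1 : (T : ℝ) ≤ D := by
      calc (T : ℝ) ≤ (D : ℝ) ^ (1 - δ) := hTB
        _ ≤ (D : ℝ) ^ (1 : ℝ) := Real.rpow_le_rpow_of_exponent_le hx.le (by linarith)
        _ = D := Real.rpow_one _
    exact_mod_cast h1
  set K1 : ℕ := ⌊(D : ℝ) ^ (δ / 4)⌋₊ with hK1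
  set K2 : ℕ := ⌊(D : ℝ) ^ (δ / 2)⌋₊ with hK2
  have hK12 : K1 ≤ K2 :=
    Nat.floor_le_floor (Real.rpow_le_rpow_of_exponent_le hx.le (by linarith))
  have hK2le : (K2 : ℝ) ≤ (D : ℝ) ^ (1 / 2 + δ / 4) :=
    (Nat.floor_le (Real.rpow_nonneg hx0.le _)).trans
      (Real.rpow_le_rpow_of_exponent_le hx.le (by linarith))
  have hsum : (T : ℝ) / 16 * ∑ k ∈ Ioc K1 K2, (1 : ℝ) / k ≤
      ∑ k ∈ Ioc K1 K2, ((((D - T / 8) / k : ℕ) : ℝ) - (((D - T / 4) / k : ℕ) : ℝ)) := by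
    rw [Finset.mul_sum]
    refine Finset.sum_le_sum fun k hk => ?_
    rw [Finset.mem_Ioc] at hk
    refine nm_term (by omega) ?_ hTD
    have h1 : (k : ℝ) ≤ K2 := by exact_mod_cast hk.2
    have h2 : 16 * ((k : ℝ) + 1) ≤ T := by linarith
    exact_mod_cast h2
  refine le_trans ?_ hsum
  have hh := nm_harm K1 K2 hK12
  have h1 : Real.log ((D : ℝ) ^ (δ / 2)) ≤ Real.log ((K2 : ℝ) + 1) :=
    Real.log_le_log (Real.rpow_pos_of_pos hx0 _) (Nat.lt_floor_add_one _).le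
  have h2 : Real.log ((K1 : ℝ) + 1) ≤ Real.log (2 * (D : ℝ) ^ (δ / 4)) := by
    apply Real.log_le_log (by positivity)
    have h3 : (K1 : ℝ) ≤ (D : ℝ) ^ (δ / 4) := Nat.floor_le (Real.rpow_nonneg hx0.le _)
    have h4 : 1 ≤ (D : ℝ) ^ (δ / 4) := Real.one_le_rpow hx.le (by linarith)
    linarith
  rw [Real.log_rpow hx0] at h1
  rw [Real.log_mul (by norm_num) (Real.rpow_pos_of_pos hx0 _).ne', Real.log_rpow hx0] at h2
  have h3 : δ / 4 * Real.log D - Real.log 2 ≤ ∑ k ∈ Ioc K1 K2, (1 : ℝ) / k := by linarith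
  have h4 : 8 ≤ δ * Real.log D := by
    have := (div_le_iff₀ hδ).1 hlog
    linarith
  have h5 := Real.log_two_lt_d9
  have h6 : 16 * (δ * Real.log D) / 100 ≤ ∑ k ∈ Ioc K1 K2, (1 : ℝ) / k := by linarith
  calc δ * T * Real.log D / 100 = (T : ℝ) / 16 * (16 * (δ * Real.log D) / 100) := by ring
    _ ≤ (T : ℝ) / 16 * ∑ k ∈ Ioc K1 K2, (1 : ℝ) / k :=
        mul_le_mul_of_nonneg_left h6 (by positivity)

end Pool.Agent.Bern3
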