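import Mathlib
import Pool.Agent.Bern3.Defs

/-!
# HK-Usb: usable primes

`n = m (p - 1) + e`; if `m ≤ e` then `n ≤ e p ≤ E Q`, but `n ≥ N / 2 ≥ 4 E Q`; and `n ≤ N < p ^ 2 / 4` gives `m < p`.
-/

namespace Pool.Agent.Bern3

open Polynomial Finset

theorem usb (N n p : ℕ) (Q E : ℝ) (hn1 : N / 2 < n) (hn2 : n ≤ N) (hp : p.Prime)
    (hp1 : 2 * √(N : ℝ) < p) (hp2 : (p : ℝ) ≤ Q) (hE : ((n % (p - 1) : ℕ) : ℝ) ≤ E)
    (hQE : 8 * E * Q ≤ N) (h6 : 6 ≤ n % (p - 1)) : Usable n p := by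
  have hp2' : 2 ≤ p := hp.two_le
  refine ⟨hp, h6, ?_, ?_⟩
  · by_contra hcon
    rw [not_lt] at hcon
    have h1 : n = (p - 1) * (n / (p - 1)) + n % (p - 1) := (Nat.div_add_mod n (p - 1)).symm
    have h2 : n ≤ (n % (p - 1)) * p := by
      calc n = (p - 1) * (n / (p - 1)) + n % (p - 1) := h1
        _ ≤ (p - 1) * (n % (p - 1)) + n % (p - 1) :=
          Nat.add_le_add_right (Nat.mul_le_mul_left _ hcon) _
        _ = (n % (p - 1)) * (p - 1 + 1) := by ring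
        _ = (n % (p - 1)) * p := by rw [Nat.sub_add_cancel (by omega)]
    have h3 : (n : ℝ) ≤ ((n % (p - 1) : ℕ) : ℝ) * p := by exact_mod_cast h2
    have h6' : (6 : ℝ) ≤ ((n % (p - 1) : ℕ) : ℝ) := by exact_mod_cast h6
    have hpp : (2 : ℝ) ≤ p := by exact_mod_cast hp2'
    have hE6 : 6 ≤ E := h6'.trans hE
    have hQ2 : 2 ≤ Q := hpp.trans hp2
    have h4 : ((n % (p - 1) : ℕ) : ℝ) * p ≤ E * Q :=
      mul_le_mul hE hp2 (by linarith) (by linarith)
    have h5 : (N : ℝ) ≤ 2 * n := by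
      have : N ≤ 2 * n := by omega
      exact_mod_cast this
    have h7 : 0 < E * Q := mul_pos (by linarith) (by linarith)
    nlinarith
  · apply Nat.div_lt_of_lt_mul
    have hN0 : (0 : ℝ) ≤ N := Nat.cast_nonneg N
    have hs : √(N : ℝ) * √(N : ℝ) = N := Real.mul_self_sqrt hN0
    have hs0 := Real.sqrt_nonneg (N : ℝ)
    have h1 : 4 * (N : ℝ) < p * p := by nlinarith
    have h2 : 4 * N < p * p := by exact_mod_cast h1
    have h3 : p * p ≤ 2 * ((p - 1) * p) := by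
      obtain ⟨k, rfl⟩ : ∃ k, p = k + 2 := ⟨p - 2, by omega⟩
      have : k + 2 - 1 = k + 1 := by omega
      rw [this]
      nlinarith
    omega

end Pool.Agent.Bern3
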