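import Mathlib
import Pool.Agent.Bern3.Key
import Pool.Agent.Bern3.Usb
import Pool.Agent.Bern3.Num

/-!
# HK-Det: many usable primes exclude a factor of degree `D`

PLAN. `T = ⌊D ^ (1 - δ)⌋₊`, `L = nzr q h`, `D = h.natDegree`. `D + 1 < p` for all `p > 2 √N` since
`D ≤ √N` (`D` large).

(1) `q` is usable (`usb` with `E = D ^ (1 - δ/4)`; `e_q ≤ D ^ δ ≤ D ^ (1 - δ/4)`, `e_q > D ^ δ / 2 ≥ 16`),
`cmb_lo`: `D ≤ e_q L ≤ D ^ δ L`, so `L ≥ D ^ (1 - δ) ≥ T`; `cmb_st`: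
`L e_q ≤ 2 D + e_q ^ 2`, so `L ≤ 4 D ^ (1 - δ) + D ^ δ ≤ 6 T` for `D` large.

(2) `U` = the set of the primes `p` with `2 √N < p ≤ Q` and
`(D - T/4)/k < n % (p - 1) ≤ (D - T/8)/k` for some `k` with `D ^ (δ/4) < k ≤ D ^ (δ/2)`: the disjoint union
(`num2`) of the sets counted by `Cnt`, `Finset.card_biUnion`, over
`k ∈ Ioc ⌊D ^ (δ/4)⌋₊ ⌊D ^ (δ/2)⌋₊`; by `hU` and `num3`
`card U ≥ κ δ T log D / 100`. For `p ∈ U`: `num1` and `usb` give `Usable n p`, and `num1` and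
`cmb_up` give `nzr p h ≤ T / 2 =: r`. `log p ≥ log N / 2`.

(3) `key`: `(L - T / 2) * card U * log N / 2 ≤ L (2 log |c| + log D + log L + L log (2 n))`,
`L - T/2 ≥ L / 2`, `log |c| ≤ 4 D ^ (3/4) ≤ T` (`D` large, `δ ≤ 1/10`), `log D ≤ log N`,
`log L ≤ log N`, (`L ≤ 6 T ≤ D ≤ N`), `L log (2n) ≤ 6 T * 2 log N`. So, dividing by `L > 0`,
`κ δ T log D log N / 400 ≤ 2 T + 2 log N + 12 T log N ≤ 13.9 T log N` (`T`, `N` large), so
`κ δ log D ≤ 5560`: contradiction.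
(`N ≥ D ^ 2` is large if `D` is large.)
-/

namespace Pool.Agent.Bern3

open Polynomial Finset

/-- the primes of one interval -/
private noncomputable def Sk (Q : ℝ) (N n x y : ℕ) : Finset ℕ := by
  classical
  exact (Icc 1 N).filter fun p : ℕ => p.Prime ∧ 2 * √(N : ℝ) < p ∧ (p : ℝ) ≤ Q ∧
    x < n % (p - 1) ∧ n % (p - 1) ≤ y

private lemma card_Sk (Q : ℝ) (N n x y : ℕ) : (Sk Q N n x y).card = Cnt Q N n x y := rfl

private lemma mem_Sk {Q : ℝ} {N n x y p : ℕ} (h : p ∈ Sk Q N n x y) :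
    p.Prime ∧ 2 * √(N : ℝ) < p ∧ (p : ℝ) ≤ Q ∧ x < n % (p - 1) ∧ n % (p - 1) ≤ y := by
  unfold Sk at h
  exact (Finset.mem_filter.1 h).2

theorem det (δ : ℝ) (hδ : 0 < δ) (hδ1 : δ ≤ 1 / 10) : ∃ D0 : ℕ, ∀ (N n D : ℕ) (κ Q : ℝ),
    D0 ≤ D → (D : ℝ) ≤ √(N : ℝ) → N / 2 < n → n ≤ N → Even n → 0 < κ →
    5600 ≤ κ * δ * Real.log D → 8 * (D : ℝ) ^ (1 - δ / 4) * Q ≤ N →
    (∃ q : ℕ, q.Prime ∧ 2 * √(N : ℝ) < q ∧ (q : ℝ) ≤ Q ∧
      (D : ℝ) ^ δ / 2 < (n % (q - 1) : ℕ) ∧ ((n % (q - 1) : ℕ) : ℝ) ≤ (D : ℝ) ^ δ) →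
    (∀ k : ℕ, (D : ℝ) ^ (δ / 4) < k → (k : ℝ) ≤ (D : ℝ) ^ (δ / 2) →
      κ * ((((D - ⌊(D : ℝ) ^ (1 - δ)⌋₊ / 8) / k : ℕ) : ℝ) -
          (((D - ⌊(D : ℝ) ^ (1 - δ)⌋₊ / 4) / k : ℕ) : ℝ)) ≤
        Cnt Q N n ((D - ⌊(D : ℝ) ^ (1 - δ)⌋₊ / 4) / k) ((D - ⌊(D : ℝ) ^ (1 - δ)⌋₊ / 8) / k)) →
    ∀ h : ℤ[X], Fac n h → h.natDegree = D →
      Real.log |(h.leadingCoeff : ℝ)| ≤ 4 * (D : ℝ) ^ (3 / 4 : ℝ) → False := by
  obtain ⟨D1, h1⟩ := num1 δ hδ hδ1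
  obtain ⟨D2, h2⟩ := num2 δ hδ hδ1
  obtain ⟨D3, h3⟩ := num3 δ hδ hδ1
  have ev : ∀ᶠ D : ℕ in Filter.atTop, 32 ≤ (D : ℝ) ^ δ ∧ 5 ≤ (D : ℝ) ^ (3 / 20 : ℝ) ∧ 5 ≤ D ∧
      D1 ≤ D ∧ D2 ≤ D ∧ D3 ≤ D := by
    have e1 := ((tendsto_rpow_atTop hδ).comp tendsto_natCast_atTop_atTop).eventually_ge_atTop 32
    have e2 := ((tendsto_rpow_atTop (by norm_num : (0 : ℝ) < 3 / 20)).comp
      tendsto_natCast_atTop_atTop).eventually_ge_atTop 5
    filter_upwards [e1, e2, Filter.eventually_ge_atTop 5, Filter.eventually_ge_atTop D1,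
      Filter.eventually_ge_atTop D2, Filter.eventually_ge_atTop D3] with D f1 f2 f3 f4 f5 f6
    exact ⟨f1, f2, f3, f4, f5, f6⟩
  obtain ⟨D0, hD0⟩ := Filter.eventually_atTop.1 ev
  refine ⟨D0, ?_⟩
  rintro N n D κ Q hD hDN hn1 hn2 hne hκ hκ2 hQ ⟨q, hq, hq1, hq2, hq3, hq4⟩ hU h hf hdeg hlc
  obtain ⟨a1, a2, a3, a4, a5, a6⟩ := hD0 D hD
  have b1 := h1 D a4
  have b2 := h2 D a5
  have b3 := h3 D a6
  set T : ℕ := ⌊(D : ℝ) ^ (1 - δ)⌋₊ with hT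
  -- basic facts
  have hDr : (5 : ℝ) ≤ D := by exact_mod_cast a3
  have hD1 : (1 : ℝ) ≤ D := by linarith
  have hD0' : (0 : ℝ) < D := by linarith
  have hN0 : (0 : ℝ) ≤ N := Nat.cast_nonneg _
  have hss : √(N : ℝ) * √(N : ℝ) = N := Real.mul_self_sqrt hN0
  have hs5 : (5 : ℝ) ≤ √(N : ℝ) := hDr.trans hDN
  have hN25 : (25 : ℝ) ≤ N := by nlinarith
  have hNs : √(N : ℝ) ≤ N := by nlinarith
  have hDN' : (D : ℝ) ≤ N := hDN.trans hNs
  have hlogN : (3 : ℝ) ≤ Real.log N := by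
    rw [Real.le_log_iff_exp_le (by linarith)]
    have g1 : Real.exp 3 = Real.exp 1 ^ 3 := by
      rw [← Real.exp_nat_mul]
      norm_num
    have g2 := Real.exp_one_lt_d9
    have g3 := Real.exp_pos 1
    rw [g1]
    calc Real.exp 1 ^ 3 ≤ (2.72 : ℝ) ^ 3 := pow_le_pow_left₀ g3.le (by linarith) 3
      _ ≤ N := by norm_num; linarith
  have hlogD : 0 ≤ Real.log D := Real.log_nonneg hD1
  -- powers of D
  have p1 : (D : ℝ) ^ δ ≤ (D : ℝ) ^ (1 - δ) := Real.rpow_le_rpow_of_exponent_le hD1 (by linarith)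
  have p2 : (D : ℝ) ^ δ ≤ (D : ℝ) ^ (1 - δ / 4) :=
    Real.rpow_le_rpow_of_exponent_le hD1 (by linarith)
  have p3 : (D : ℝ) ^ δ * (D : ℝ) ^ (1 - δ) = D := by
    rw [← Real.rpow_add hD0']
    have : δ + (1 - δ) = 1 := by ring
    rw [this, Real.rpow_one]
  have hT1 : (T : ℝ) ≤ (D : ℝ) ^ (1 - δ) := Nat.floor_le (by positivity)
  have hT2 : (D : ℝ) ^ (1 - δ) < T + 1 := Nat.lt_floor_add_one _
  have p4 : 4 * (D : ℝ) ^ (3 / 4 : ℝ) ≤ T := by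
    have g1 : (D : ℝ) ^ (9 / 10 : ℝ) ≤ (D : ℝ) ^ (1 - δ) :=
      Real.rpow_le_rpow_of_exponent_le hD1 (by linarith)
    have g2 : (D : ℝ) ^ (9 / 10 : ℝ) = (D : ℝ) ^ (3 / 4 : ℝ) * (D : ℝ) ^ (3 / 20 : ℝ) := by
      rw [← Real.rpow_add hD0']
      norm_num
    have g3 : 1 ≤ (D : ℝ) ^ (3 / 4 : ℝ) := Real.one_le_rpow hD1 (by norm_num)
    have g4 : (D : ℝ) ^ (3 / 4 : ℝ) * 5 ≤ (D : ℝ) ^ (3 / 4 : ℝ) * (D : ℝ) ^ (3 / 20 : ℝ) :=
      mul_le_mul_of_nonneg_left a2 (by linarith)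
    linarith
  have hT4 : (4 : ℝ) ≤ T := by
    have g3 : 1 ≤ (D : ℝ) ^ (3 / 4 : ℝ) := Real.one_le_rpow hD1 (by norm_num)
    linarith
  have hTD : 6 * (T : ℝ) ≤ D := by
    have g1 : 32 * (D : ℝ) ^ (1 - δ) ≤ (D : ℝ) ^ δ * (D : ℝ) ^ (1 - δ) :=
      mul_le_mul_of_nonneg_right a1 (by positivity)
    rw [p3] at g1
    have g2 : 0 ≤ (D : ℝ) ^ (1 - δ) := by positivity
    linarith
  have hn0 : 1 ≤ n := by omega
  have hdegp : ∀ p : ℕ, 2 * √(N : ℝ) < p → h.natDegree + 1 < p := by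
    intro p hp
    rw [hdeg]
    have : ((D + 1 : ℕ) : ℝ) < p := by
      push_cast
      linarith
    exact_mod_cast this
  -- (1) the prime q
  have he16 : 16 < n % (q - 1) := by
    have : (16 : ℝ) < (n % (q - 1) : ℕ) := by linarith
    exact_mod_cast this
  have hqE : (((n % (q - 1) : ℕ)) : ℝ) ≤ (D : ℝ) ^ (1 - δ / 4) := hq4.trans p2
  have hqu : Usable n q := usb N n q Q ((D : ℝ) ^ (1 - δ / 4)) hn1 hn2 hq hq1 hq2 hqE hQ (by omega)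
  have c1 := cmb_lo n q hne hqu h hf (hdegp q hq1)
  have c2 := cmb_st n q hne hqu h hf (hdegp q hq1) he16.le
  rw [hdeg] at c1 c2
  set L : ℕ := nzr q h with hL
  set e : ℕ := n % (q - 1) with he
  have he0 : (0 : ℝ) < e := by
    have : (16 : ℝ) < e := by exact_mod_cast he16
    linarith
  have hLT : (T : ℝ) ≤ L := by
    have g1 : (D : ℝ) ≤ (e : ℝ) * L := by exact_mod_cast c1
    have g2 : (e : ℝ) * L ≤ (D : ℝ) ^ δ * L := mul_le_mul_of_nonneg_right hq4 (Nat.cast_nonneg _)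
    have g3 : (D : ℝ) ^ δ * (D : ℝ) ^ (1 - δ) ≤ (D : ℝ) ^ δ * L := by
      rw [p3]
      linarith
    have g4 : (D : ℝ) ^ (1 - δ) ≤ L := le_of_mul_le_mul_left g3 (by linarith)
    linarith
  have hL6 : (L : ℝ) ≤ 6 * T := by
    have g1 : (L : ℝ) * e ≤ 2 * D + (e : ℝ) ^ 2 := by exact_mod_cast c2
    have g2 : 2 * (D : ℝ) ≤ 4 * (D : ℝ) ^ (1 - δ) * e := by
      have g3 : (D : ℝ) ^ δ / 2 * (D : ℝ) ^ (1 - δ) ≤ e * (D : ℝ) ^ (1 - δ) :=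
        mul_le_mul_of_nonneg_right hq3.le (by positivity)
      have g4 : (D : ℝ) ^ δ / 2 * (D : ℝ) ^ (1 - δ) = D / 2 := by
        rw [div_mul_eq_mul_div, p3]
      linarith
    have g5 : (L : ℝ) * e ≤ (4 * (D : ℝ) ^ (1 - δ) + e) * e := by
      nlinarith
    have g6 : (L : ℝ) ≤ 4 * (D : ℝ) ^ (1 - δ) + e := le_of_mul_le_mul_right g5 he0
    linarith
  have hL0 : (0 : ℝ) < L := by linarith
  have hLN : (L : ℝ) ≤ N := by linarith
  -- (2) the set U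
  set K : Finset ℕ := Ioc ⌊(D : ℝ) ^ (δ / 4)⌋₊ ⌊(D : ℝ) ^ (δ / 2)⌋₊ with hK
  have hKm : ∀ k ∈ K, (D : ℝ) ^ (δ / 4) < k ∧ (k : ℝ) ≤ (D : ℝ) ^ (δ / 2) := by
    intro k hk
    rw [hK, Finset.mem_Ioc] at hk
    exact ⟨(Nat.floor_lt (by positivity)).1 hk.1, (Nat.le_floor_iff (by positivity)).1 hk.2⟩
  set U : Finset ℕ := K.biUnion fun k => Sk Q N n ((D - T / 4) / k) ((D - T / 8) / k) with hUd
  have hdisj : ∀ k ∈ K, ∀ k' ∈ K, k ≠ k' →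
      Disjoint (Sk Q N n ((D - T / 4) / k) ((D - T / 8) / k))
        (Sk Q N n ((D - T / 4) / k') ((D - T / 8) / k')) := by
    have key0 : ∀ k ∈ K, ∀ k' ∈ K, k < k' →
        Disjoint (Sk Q N n ((D - T / 4) / k) ((D - T / 8) / k))
          (Sk Q N n ((D - T / 4) / k') ((D - T / 8) / k')) := by
      intro k hk k' hk' hkk
      rw [Finset.disjoint_left]
      intro p hp hp'
      have g1 := (mem_Sk hp).2.2.2.1
      have g2 := (mem_Sk hp').2.2.2.2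
      have g3 := b2 k k' (hKm k hk).1 hkk (hKm k' hk').2
      omega
    intro k hk k' hk' hne'
    rcases lt_or_gt_of_ne hne' with g | g
    · exact key0 k hk k' hk' g
    · exact (key0 k' hk' k hk g).symm
  have hcard : κ * (δ * T * Real.log D / 100) ≤ (U.card : ℝ) := by
    rw [hUd, Finset.card_biUnion hdisj]
    push_cast
    calc κ * (δ * T * Real.log D / 100) ≤ κ * ∑ k ∈ K,
          ((((D - T / 8) / k : ℕ) : ℝ) - (((D - T / 4) / k : ℕ) : ℝ)) :=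
          mul_le_mul_of_nonneg_left b3 hκ.le
      _ = ∑ k ∈ K, κ * ((((D - T / 8) / k : ℕ) : ℝ) - (((D - T / 4) / k : ℕ) : ℝ)) :=
          Finset.mul_sum _ _ _
      _ ≤ ∑ k ∈ K, ((Sk Q N n ((D - T / 4) / k) ((D - T / 8) / k)).card : ℝ) := by
          refine Finset.sum_le_sum fun k hk => ?_
          rw [card_Sk]
          exact hU k (hKm k hk).1 (hKm k hk).2
  have hUm : ∀ p ∈ U, Usable n p ∧ h.natDegree + 1 < p ∧ nzr p h ≤ T / 2 := by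
    intro p hp
    rw [hUd, Finset.mem_biUnion] at hp
    obtain ⟨k, hk, hp⟩ := hp
    obtain ⟨g1, g2, g3, g4, g5⟩ := mem_Sk hp
    obtain ⟨f1, f2, t, f3, f4, f5, f6⟩ := b1 k (n % (p - 1)) (hKm k hk).1 (hKm k hk).2 g4 g5
    have hpu : Usable n p := usb N n p Q ((D : ℝ) ^ (1 - δ / 4)) hn1 hn2 g1 g2 g3 f2 hQ f1
    refine ⟨hpu, hdegp p g2, ?_⟩
    refine (cmb_up n p hne hpu h hf (hdegp p g2) k t f3 (by rw [hdeg]; exact f4) f5).trans f6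
  -- (3) the Hankel inequality
  have hkey := key n hne hn0 h hf (by rw [hdeg]; omega) q hqu (hdegp q hq1) (T / 2) U hUm
  rw [hdeg, ← hL] at hkey
  have hsumlog : (U.card : ℝ) * (Real.log N / 2) ≤ ∑ p ∈ U, Real.log p := by
    rw [← nsmul_eq_mul, ← Finset.sum_const]
    refine Finset.sum_le_sum fun p hp => ?_
    rw [hUd, Finset.mem_biUnion] at hp
    obtain ⟨k, hk, hp⟩ := hp
    have g2 := (mem_Sk hp).2.1
    have g3 : Real.log (√(N : ℝ)) = Real.log N / 2 := Real.log_sqrt hN0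
    rw [← g3]
    exact Real.log_le_log (by linarith) (by linarith)
  have hT2' : (((T / 2 : ℕ)) : ℝ) ≤ T / 2 := by
    have : ((T / 2 : ℕ) : ℝ) ≤ (T : ℝ) / (2 : ℕ) := Nat.cast_div_le
    simpa using this
  have hLr : (L : ℝ) / 2 ≤ (L : ℝ) - ((T / 2 : ℕ) : ℝ) := by linarith
  have hsum0 : 0 ≤ ∑ p ∈ U, Real.log p := by
    refine Finset.sum_nonneg fun p hp => Real.log_natCast_nonneg p
  have hTlog : 0 ≤ (T : ℝ) * Real.log N := by
    have : 0 ≤ Real.log N := by linarith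
    positivity
  have hbig : 56 * (T : ℝ) ≤ (U.card : ℝ) := by
    have g1 : κ * (δ * T * Real.log D / 100) = (κ * δ * Real.log D) * (T / 100) := by ring
    rw [g1] at hcard
    have g2 : 5600 * ((T : ℝ) / 100) ≤ (κ * δ * Real.log D) * (T / 100) :=
      mul_le_mul_of_nonneg_right hκ2 (by positivity)
    linarith
  have hlow : (L : ℝ) * (14 * (T * Real.log N)) ≤
      ((L : ℝ) - ((T / 2 : ℕ) : ℝ)) * ∑ p ∈ U, Real.log p := by
    have g1 : (56 * (T : ℝ)) * (Real.log N / 2) ≤ (U.card : ℝ) * (Real.log N / 2) :=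
      mul_le_mul_of_nonneg_right hbig (by linarith)
    have g2 : (L : ℝ) / 2 * ∑ p ∈ U, Real.log p ≤
        ((L : ℝ) - ((T / 2 : ℕ) : ℝ)) * ∑ p ∈ U, Real.log p :=
      mul_le_mul_of_nonneg_right hLr hsum0
    have g3 : (L : ℝ) / 2 * (28 * (T * Real.log N)) ≤ (L : ℝ) / 2 * ∑ p ∈ U, Real.log p := by
      refine mul_le_mul_of_nonneg_left ?_ (by positivity)
      linarith
    linarith
  have hlogL : Real.log L ≤ Real.log N := Real.log_le_log hL0 hLN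
  have hlogD' : Real.log D ≤ Real.log N := Real.log_le_log hD0' hDN'
  have hlog2n : Real.log (2 * n) ≤ 2 * Real.log N := by
    have g1 : (2 : ℝ) * n ≤ (N : ℝ) ^ 2 := by
      have : (n : ℝ) ≤ N := by exact_mod_cast hn2
      nlinarith
    have g2 : (0 : ℝ) < n := by exact_mod_cast hn0
    calc Real.log (2 * n) ≤ Real.log ((N : ℝ) ^ 2) := Real.log_le_log (by positivity) g1
      _ = 2 * Real.log N := by
          rw [Real.log_pow]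
          norm_num
  have hup : 2 * (L : ℝ) * Real.log |(h.leadingCoeff : ℝ)| + L * Real.log D + L * Real.log L +
      (L : ℝ) ^ 2 * Real.log (2 * n) ≤
      (L : ℝ) * (2 * T + 2 * Real.log N + 12 * (T * Real.log N)) := by
    have g1 : 2 * (L : ℝ) * Real.log |(h.leadingCoeff : ℝ)| ≤ 2 * L * T :=
      mul_le_mul_of_nonneg_left (hlc.trans p4) (by positivity)
    have g2 : (L : ℝ) * Real.log D ≤ L * Real.log N := mul_le_mul_of_nonneg_left hlogD' hL0.le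
    have g3 : (L : ℝ) * Real.log L ≤ L * Real.log N := mul_le_mul_of_nonneg_left hlogL hL0.le
    have g4 : (L : ℝ) ^ 2 * Real.log (2 * n) ≤ (L : ℝ) ^ 2 * (2 * Real.log N) :=
      mul_le_mul_of_nonneg_left hlog2n (by positivity)
    have g5 : (L : ℝ) ^ 2 * (2 * Real.log N) ≤ (L * (6 * T)) * (2 * Real.log N) := by
      refine mul_le_mul_of_nonneg_right ?_ (by linarith)
      rw [sq]
      exact mul_le_mul_of_nonneg_left hL6 hL0.le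
    linarith
  have hfin := (hlow.trans hkey).trans hup
  have hfin2 : 14 * ((T : ℝ) * Real.log N) ≤ 2 * T + 2 * Real.log N + 12 * (T * Real.log N) :=
    le_of_mul_le_mul_left hfin hL0
  nlinarith

end Pool.Agent.Bern3
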