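import Mathlib
import Pool.Agent.Bern3.Defs

/-!
# HK-Num2: the intervals satisfy the conditions of `uni`

PLAN. Elementary, everything for `D` larger than a constant depending on `δ`, `σ`;
`T = ⌊D ^ (1 - δ)⌋₊`, `x = (D - T/4) / k`, `y = (D - T/8) / k` (natural divisions).
`num4`: `y - x ≥ (T/4 - T/8) / k - 1 ≥ T / (16 k) ≥ D ^ (1 - 3 δ/2) / 20` for `D` large
(`k ≤ D ^ (δ/2)`); this is `≥ 4 √D`; `x ≤ D / k ≤ D ^ (1 - δ/4)`, and
`(D ^ (1 - 3 δ/2) / 160) ^ (1 + σ) ≥ D ^ (1 - δ/4)` for `D` large by `hσ`. `y ≤ 2 x`: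
`x ≥ (D - T/4)/k - 1 ≥ 3 D / (4 k) - 1 ≥ 2 D / (3 k)`, `y ≤ D / k`.
`num5`: `x = ⌊D ^ δ / 2⌋₊`, `y = ⌊3 D ^ δ / 4⌋₊`.
-/

namespace Pool.Agent.Bern3

open Polynomial Finset

private theorem n2_ev {e : ℝ} (he : 0 < e) (C : ℝ) : ∃ D0 : ℕ, ∀ D : ℕ, D0 ≤ D → C ≤ (D : ℝ) ^ e := by
  have h := ((tendsto_rpow_atTop he).comp
    (tendsto_natCast_atTop_atTop (R := ℝ))).eventually_ge_atTop C
  obtain ⟨D0, hD0⟩ := Filter.eventually_atTop.1 h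
  exact ⟨D0, fun D hD => hD0 D hD⟩

theorem num4 (δ σ : ℝ) (hδ : 0 < δ) (hδ1 : δ ≤ 1 / 10)
    (hσ : 1 - δ / 4 < (1 - 3 * δ / 2) * (1 + σ)) : ∃ D0 : ℕ, ∀ D : ℕ, D0 ≤ D →
    ∀ k x y : ℕ, (D : ℝ) ^ (δ / 4) < k → (k : ℝ) ≤ (D : ℝ) ^ (δ / 2) →
    x = (D - ⌊(D : ℝ) ^ (1 - δ)⌋₊ / 4) / k → y = (D - ⌊(D : ℝ) ^ (1 - δ)⌋₊ / 8) / k →
    x < y ∧ y ≤ 2 * x ∧ √(D : ℝ) ≤ ((y : ℝ) - x) / 4 ∧
      (x : ℝ) ≤ (((y : ℝ) - x) / 8) ^ (1 + σ) ∧ y ≤ D := by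
  have hσ1 : 0 < 1 + σ := by
    by_contra hcon
    push Not at hcon
    have h1 : (1 - 3 * δ / 2) * (1 + σ) ≤ 0 := mul_nonpos_of_nonneg_of_nonpos (by linarith) hcon
    linarith
  obtain ⟨D1, hD1⟩ := n2_ev (show 0 < 1 - 3 * δ / 2 by linarith) 30
  obtain ⟨D2, hD2⟩ := n2_ev (show 0 < 1 / 2 - 3 * δ / 2 by linarith) 80
  obtain ⟨D3, hD3⟩ := n2_ev (show 0 < (1 - 3 * δ / 2) * (1 + σ) - (1 - δ / 4) by linarith)
    ((160 : ℝ) ^ (1 + σ))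
  obtain ⟨D4, hD4⟩ := n2_ev (show 0 < 1 - δ / 2 by linarith) 4
  refine ⟨max (max D1 D2) (max (max D3 D4) 1), ?_⟩
  intro D hD k x y hk1 hk2 hx hy
  have g1 := hD1 D (by omega)
  have g2 := hD2 D (by omega)
  have g3 := hD3 D (by omega)
  have g4 := hD4 D (by omega)
  have hDN : 1 ≤ D := by omega
  have hD1' : (1 : ℝ) ≤ D := by exact_mod_cast hDN
  have hD0 : (0 : ℝ) < D := by linarith
  have hk0 : (0 : ℝ) < k := lt_of_le_of_lt (Real.rpow_nonneg hD0.le _) hk1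
  have hkN : 0 < k := by exact_mod_cast hk0
  have hk1' : (1 : ℝ) ≤ k := by exact_mod_cast hkN
  obtain ⟨L, hL⟩ : ∃ L, L = (D : ℝ) ^ (1 - δ) := ⟨_, rfl⟩
  obtain ⟨M, hM⟩ : ∃ M, M = (D : ℝ) ^ (1 - 3 * δ / 2) := ⟨_, rfl⟩
  rw [← hL] at hx hy
  rw [← hM] at g1
  obtain ⟨T, hT⟩ : ∃ T, T = ⌊L⌋₊ := ⟨_, rfl⟩
  rw [← hT] at hx hy
  have hL0 : 0 ≤ L := by rw [hL]; exact Real.rpow_nonneg hD0.le _
  have hLD : L ≤ D := by
    rw [hL]
    calc (D : ℝ) ^ (1 - δ) ≤ (D : ℝ) ^ (1 : ℝ) :=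
          Real.rpow_le_rpow_of_exponent_le hD1' (by linarith)
      _ = D := Real.rpow_one _
  have hTL : (T : ℝ) ≤ L := by rw [hT]; exact Nat.floor_le hL0
  have hTL' : L < (T : ℝ) + 1 := by rw [hT]; exact Nat.lt_floor_add_one L
  have hTD : T ≤ D := by
    have : (T : ℝ) ≤ D := hTL.trans hLD
    exact_mod_cast this
  have hLM : L = M * (D : ℝ) ^ (δ / 2) := by
    rw [hL, hM, ← Real.rpow_add hD0]
    congr 1
    ring
  have hM0 : 0 < M := by rw [hM]; exact Real.rpow_pos_of_pos hD0 _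
  have hkM : M * k ≤ L := by
    rw [hLM]
    exact mul_le_mul_of_nonneg_left hk2 hM0.le
  -- natural number facts
  have e1 : T / 4 ≤ D := by omega
  have e2 : T / 8 ≤ D := by omega
  have r1 : (T : ℝ) < 4 * ((T / 4 : ℕ) : ℝ) + 4 := by
    have : T < 4 * (T / 4) + 4 := by omega
    exact_mod_cast this
  have r2 : 8 * ((T / 8 : ℕ) : ℝ) ≤ T := by
    have : 8 * (T / 8) ≤ T := by omega
    exact_mod_cast this
  have r3 : 4 * ((T / 4 : ℕ) : ℝ) ≤ T := by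
    have : 4 * (T / 4) ≤ T := by omega
    exact_mod_cast this
  obtain ⟨a, ha⟩ : ∃ a, a = D - T / 4 := ⟨_, rfl⟩
  obtain ⟨b, hb⟩ : ∃ b, b = D - T / 8 := ⟨_, rfl⟩
  rw [← ha] at hx
  rw [← hb] at hy
  have ha' : (a : ℝ) = D - ((T / 4 : ℕ) : ℝ) := by rw [ha, Nat.cast_sub e1]
  have hb' : (b : ℝ) = D - ((T / 8 : ℕ) : ℝ) := by rw [hb, Nat.cast_sub e2]
  have dx1 : (x : ℝ) * k ≤ a := by
    have : x * k ≤ a := by rw [hx]; exact Nat.div_mul_le_self a k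
    exact_mod_cast this
  have dx2 : (a : ℝ) < ((x : ℝ) + 1) * k := by
    have : a < (x + 1) * k := by
      rw [hx, mul_comm]
      exact Nat.lt_mul_div_succ a hkN
    exact_mod_cast this
  have dy1 : (y : ℝ) * k ≤ b := by
    have : y * k ≤ b := by rw [hy]; exact Nat.div_mul_le_self b k
    exact_mod_cast this
  have dy2 : (b : ℝ) < ((y : ℝ) + 1) * k := by
    have : b < (y + 1) * k := by
      rw [hy, mul_comm]
      exact Nat.lt_mul_div_succ b hkN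
    exact_mod_cast this
  have T0 : (0 : ℝ) ≤ ((T / 8 : ℕ) : ℝ) := Nat.cast_nonneg _
  have T0' : (0 : ℝ) ≤ ((T / 4 : ℕ) : ℝ) := Nat.cast_nonneg _
  -- the difference
  have hdiff : M / 20 ≤ (y : ℝ) - x := by
    have h1 : ((b : ℝ) - a) < ((y : ℝ) - x + 1) * k := by
      have : ((y : ℝ) - x + 1) * k = ((y : ℝ) + 1) * k - x * k := by ring
      rw [this]; linarith
    have h2 : M * k / 8 - 9 / 8 < (b : ℝ) - a := by
      rw [ha', hb']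
      linarith
    have h3 : M * k / 8 - 9 / 8 < ((y : ℝ) - x + 1) * k := h2.trans h1
    have h4 : (M / 8 - 9 / 8) * k < ((y : ℝ) - x + 1) * k := by
      have : (M / 8 - 9 / 8) * k ≤ M * k / 8 - 9 / 8 := by nlinarith
      linarith
    have h5 := lt_of_mul_lt_mul_right h4 hk0.le
    linarith
  have hxy : (x : ℝ) < y := by linarith
  have hxyN : x < y := by exact_mod_cast hxy
  refine ⟨hxyN, ?_, ?_, ?_, ?_⟩
  · have h1 : 4 * (k : ℝ) ≤ D := by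
      have h2 : (D : ℝ) = (D : ℝ) ^ (1 - δ / 2) * (D : ℝ) ^ (δ / 2) := by
        rw [← Real.rpow_add hD0]
        have : 1 - δ / 2 + δ / 2 = 1 := by ring
        rw [this, Real.rpow_one]
      rw [h2]
      exact mul_le_mul g4 hk2 hk0.le (by positivity)
    have h2 : (y : ℝ) * k ≤ (2 * x) * k := by
      have h3 : (3 / 4 : ℝ) * D ≤ a := by rw [ha']; linarith
      have h4 : (b : ℝ) ≤ D := by rw [hb']; linarith
      nlinarith
    have h3 := le_of_mul_le_mul_right h2 hk0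
    exact_mod_cast h3
  · have h1 : √(D : ℝ) = (D : ℝ) ^ (1 / 2 : ℝ) := Real.sqrt_eq_rpow _
    have h2 : M = (D : ℝ) ^ (1 / 2 - 3 * δ / 2) * (D : ℝ) ^ (1 / 2 : ℝ) := by
      rw [hM, ← Real.rpow_add hD0]
      congr 1
      ring
    have h3 : 80 * √(D : ℝ) ≤ M := by
      rw [h2, h1]
      exact mul_le_mul_of_nonneg_right g2 (Real.rpow_nonneg hD0.le _)
    linarith
  · have h1 : (x : ℝ) ≤ (D : ℝ) ^ (1 - δ / 4) := by
      have h2 : (x : ℝ) * (D : ℝ) ^ (δ / 4) ≤ (D : ℝ) ^ (1 - δ / 4) * (D : ℝ) ^ (δ / 4) := by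
        have h3 : (D : ℝ) ^ (1 - δ / 4) * (D : ℝ) ^ (δ / 4) = D := by
          rw [← Real.rpow_add hD0]
          have : 1 - δ / 4 + δ / 4 = 1 := by ring
          rw [this, Real.rpow_one]
        rw [h3]
        have h4 : (x : ℝ) * (D : ℝ) ^ (δ / 4) ≤ x * k :=
          mul_le_mul_of_nonneg_left hk1.le (Nat.cast_nonneg _)
        have h5 : (a : ℝ) ≤ D := by rw [ha']; linarith
        linarith
      exact le_of_mul_le_mul_right h2 (Real.rpow_pos_of_pos hD0 _)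
    refine h1.trans ?_
    have h2 : (M / 160) ^ (1 + σ) ≤ (((y : ℝ) - x) / 8) ^ (1 + σ) :=
      Real.rpow_le_rpow (by positivity) (by linarith) hσ1.le
    refine le_trans ?_ h2
    rw [Real.div_rpow hM0.le (by norm_num), le_div_iff₀ (by positivity)]
    have h3 : M ^ (1 + σ) = (D : ℝ) ^ (1 - δ / 4) *
        (D : ℝ) ^ ((1 - 3 * δ / 2) * (1 + σ) - (1 - δ / 4)) := by
      rw [hM, ← Real.rpow_mul hD0.le, ← Real.rpow_add hD0]
      congr 1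
      ring
    rw [h3]
    exact mul_le_mul_of_nonneg_left g3 (Real.rpow_nonneg hD0.le _)
  · rw [hy]
    refine (Nat.div_le_self _ _).trans ?_
    omega

theorem num5 (δ σ : ℝ) (hδ : 0 < δ) (hσ : 0 < σ) : ∃ D0 : ℕ, ∀ D : ℕ, D0 ≤ D →
    ∀ x y : ℕ, x = ⌊(D : ℝ) ^ δ / 2⌋₊ → y = ⌊3 * (D : ℝ) ^ δ / 4⌋₊ →
    x < y ∧ y ≤ 2 * x ∧ (D : ℝ) ^ δ / 8 ≤ (y : ℝ) - x ∧
      (x : ℝ) ≤ (((y : ℝ) - x) / 8) ^ (1 + σ) := by
  obtain ⟨D1, hD1⟩ := n2_ev hδ 8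
  obtain ⟨D2, hD2⟩ := n2_ev hδ (64 * (32 : ℝ) ^ (1 / σ))
  refine ⟨max D1 D2, ?_⟩
  intro D hD x y hx hy
  have g1 := hD1 D (by omega)
  have g2 := hD2 D (by omega)
  obtain ⟨P, hP⟩ : ∃ P, P = (D : ℝ) ^ δ := ⟨_, rfl⟩
  rw [← hP] at g1 g2 hx hy ⊢
  have hP0 : 0 < P := by linarith
  have x1 : (x : ℝ) ≤ P / 2 := by rw [hx]; exact Nat.floor_le (by positivity)
  have x2 : P / 2 < (x : ℝ) + 1 := by rw [hx]; exact Nat.lt_floor_add_one _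
  have y1 : (y : ℝ) ≤ 3 * P / 4 := by rw [hy]; exact Nat.floor_le (by positivity)
  have y2 : 3 * P / 4 < (y : ℝ) + 1 := by rw [hy]; exact Nat.lt_floor_add_one _
  have hd : P / 8 ≤ (y : ℝ) - x := by linarith
  have hxy : (x : ℝ) < y := by linarith
  refine ⟨by exact_mod_cast hxy, ?_, hd, ?_⟩
  · have h1 : (y : ℝ) ≤ 2 * x := by linarith
    exact_mod_cast h1
  · have h1 : (P / 64) ^ (1 + σ) ≤ (((y : ℝ) - x) / 8) ^ (1 + σ) :=
      Real.rpow_le_rpow (by positivity) (by linarith) (by linarith)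
    refine x1.trans (le_trans ?_ h1)
    have hP64 : 0 < P / 64 := by positivity
    rw [Real.rpow_add hP64, Real.rpow_one]
    have h2 : (32 : ℝ) ≤ (P / 64) ^ σ := by
      have h3 : (32 : ℝ) ^ (1 / σ) ≤ P / 64 := by linarith
      have h4 : ((32 : ℝ) ^ (1 / σ)) ^ σ ≤ (P / 64) ^ σ :=
        Real.rpow_le_rpow (by positivity) h3 hσ.le
      rwa [← Real.rpow_mul (by norm_num), one_div_mul_cancel hσ.ne', Real.rpow_one] at h4
    have h3 : P / 64 * 32 ≤ P / 64 * (P / 64) ^ σ := mul_le_mul_of_nonneg_left h2 hP64.le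
    linarith

end Pool.Agent.Bern3
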