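import Mathlib
import Pool.Agent.Bern3.Det
import Pool.Agent.Bern3.Num2

/-!
# HK-As1: `det` for an `n` with many usable primes in all intervals

PLAN. `det` with `num4` (gives `hU` from `G2`) and `num5` (gives the prime `q` from `G1`: the count
is positive, so there is a prime `q` with `2 √N < q ≤ Q` and `x < n % (q - 1) ≤ y`,
`x = ⌊D ^ δ / 2⌋₊`, `y = ⌊3 D ^ δ / 4⌋₊`: `D ^ δ / 2 < x + 1 ≤ n % (q - 1) ≤ y ≤ D ^ δ`).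
-/

namespace Pool.Agent.Bern3

open Polynomial Finset

theorem as1 (δ σ : ℝ) (hδ : 0 < δ) (hδ1 : δ ≤ 1 / 10)
    (hσ : 1 - δ / 4 < (1 - 3 * δ / 2) * (1 + σ)) : ∃ D0 : ℕ, ∀ (N n D : ℕ) (κ Q : ℝ),
    D0 ≤ D → (D : ℝ) ≤ √(N : ℝ) → N / 2 < n → n ≤ N → Even n → 0 < κ →
    5600 ≤ κ * δ * Real.log D → 8 * (D : ℝ) ^ (1 - δ / 4) * Q ≤ N →
    (∀ x y : ℕ, x < y → y ≤ 2 * x → (D : ℝ) ^ δ / 8 ≤ (y : ℝ) - x →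
      (x : ℝ) ≤ (((y : ℝ) - x) / 8) ^ (1 + 1 / 20 : ℝ) → (y : ℝ) ≤ (D : ℝ) ^ δ →
      1 ≤ Cnt Q N n x y) →
    (∀ x y : ℕ, x < y → y ≤ 2 * x → √(D : ℝ) ≤ ((y : ℝ) - x) / 4 →
      (x : ℝ) ≤ (((y : ℝ) - x) / 8) ^ (1 + σ) → y ≤ D →
      κ * ((y : ℝ) - x) ≤ Cnt Q N n x y) →
    ∀ h : ℤ[X], Fac n h → h.natDegree = D →
      Real.log |(h.leadingCoeff : ℝ)| ≤ 4 * (D : ℝ) ^ (3 / 4 : ℝ) → False := by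
  classical
  obtain ⟨D1, h1⟩ := det δ hδ hδ1
  obtain ⟨D2, h2⟩ := num4 δ σ hδ hδ1 hσ
  obtain ⟨D3, h3⟩ := num5 δ (1 / 20) hδ (by norm_num)
  refine ⟨max D1 (max D2 D3), ?_⟩
  intro N n D κ Q hD hDN hn1 hn2 hev hκ hκδ hQ G1 G2 h hF hdeg hlog
  have hD1 : D1 ≤ D := (le_max_left _ _).trans hD
  have hD2 : D2 ≤ D := ((le_max_left _ _).trans (le_max_right _ _)).trans hD
  have hD3 : D3 ≤ D := ((le_max_right _ _).trans (le_max_right _ _)).trans hD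
  refine h1 N n D κ Q hD1 hDN hn1 hn2 hev hκ hκδ hQ ?_ ?_ h hF hdeg hlog
  · have hpow : (0 : ℝ) ≤ (D : ℝ) ^ δ := Real.rpow_nonneg (Nat.cast_nonneg D) _
    obtain ⟨a1, a2, a3, a4⟩ := h3 D hD3 _ _ rfl rfl
    have hy : ((⌊3 * (D : ℝ) ^ δ / 4⌋₊ : ℕ) : ℝ) ≤ 3 * (D : ℝ) ^ δ / 4 :=
      Nat.floor_le (by positivity)
    have hc := G1 ⌊(D : ℝ) ^ δ / 2⌋₊ ⌊3 * (D : ℝ) ^ δ / 4⌋₊ a1 a2 a3 a4 (by linarith)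
    unfold Cnt at hc
    obtain ⟨q, hq⟩ := Finset.card_pos.1 (lt_of_lt_of_le Nat.one_pos hc)
    obtain ⟨_, q1, q2, q3, q4, q5⟩ := Finset.mem_filter.1 hq
    refine ⟨q, q1, q2, q3, ?_, ?_⟩
    · have b1 := Nat.lt_floor_add_one ((D : ℝ) ^ δ / 2)
      have b2 : ((⌊(D : ℝ) ^ δ / 2⌋₊ + 1 : ℕ) : ℝ) ≤ ((n % (q - 1) : ℕ) : ℝ) := by
        exact_mod_cast q4
      push_cast at b2
      linarith
    · have b2 : ((n % (q - 1) : ℕ) : ℝ) ≤ ((⌊3 * (D : ℝ) ^ δ / 4⌋₊ : ℕ) : ℝ) := by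
        exact_mod_cast q5
      linarith
  · intro k hk1 hk2
    obtain ⟨a1, a2, a3, a4, a5⟩ := h2 D hD2 k _ _ hk1 hk2 rfl rfl
    exact G2 _ _ a1 a2 a3 a4 a5

end Pool.Agent.Bern3
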