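import Mathlib
import Pool.Agent.Bern2.ST2
import Pool.Agent.Bern3.Defs

/-!
# HK-Cof: consequences of the large irreducible factor

PLAN. `cof1`: `cofLE n (√N / 2)` gives an irreducible `g ∣ B_n` with `n ≤ g.natDegree + √N / 2`. Let
`Fac n h`, `2 * h.natDegree ≤ n`, `B_n = h.map * k`. `g` is prime, so `g ∣ h.map` or `g ∣ k`. In the
first case `n - √N / 2 ≤ deg g ≤ deg h ≤ n / 2`, so `n ≤ √N`, but `n > N / 2` and `N > 16`:
contradiction. So `g ∣ k`, `deg g ≤ deg k = n - deg h`, `deg h ≤ n - deg g ≤ √N / 2`.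

`cof2`: if `n` is in addition such that no `h` with `Fac n h`, `2 * deg h ≤ n`, has degree `≥ t`
(`t` real), then `cofLE n t`: let `g` be as above, `B_n = g * k`, `deg k = n - deg g ≤ √N / 2 ≤ n / 2`.
`k ≠ 0`; there is a primitive `h : ℤ[X]` with `h.map = C c * k`, `c ≠ 0`, `deg h = deg k`
(`Pool.Agent.Helper29.exists_primitive`), so `Fac n h` and therefore `deg k < t`.
-/

namespace Pool.Agent.Bern3

open Polynomial Finset Pool.Agent.Helper29 Pool.Agent.Bern2

theorem cof1 (N n : ℕ) (hN : 100 ≤ N) (h1 : N / 2 < n) (h2 : n ≤ N)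
    (hc : cofLE n (1 / 2 * √(N : ℝ))) (h : ℤ[X]) (hf : Fac n h) (hd : 2 * h.natDegree ≤ n) :
    (h.natDegree : ℝ) ≤ √(N : ℝ) / 2 := by
  obtain ⟨g, hg, hgB, hgd⟩ := hc
  obtain ⟨hprim, k, hk⟩ := hf
  have hB : Polynomial.bernoulli n ≠ 0 := (monic_bernoulli n).ne_zero
  have hBd := natDegree_bernoulli n
  have hinj : Function.Injective (Int.castRingHom ℚ) := Int.cast_injective
  have hmd : (h.map (Int.castRingHom ℚ)).natDegree = h.natDegree :=
    natDegree_map_eq_of_injective hinj h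
  have hh0 : h.map (Int.castRingHom ℚ) ≠ 0 := by
    intro h0
    rw [hk, h0, zero_mul] at hB
    exact hB rfl
  have hk0 : k ≠ 0 := by
    intro h0
    rw [hk, h0, mul_zero] at hB
    exact hB rfl
  rw [hk] at hgB
  rw [hk, natDegree_mul hh0 hk0, hmd] at hBd
  rcases hg.prime.dvd_or_dvd hgB with h3 | h3
  · exfalso
    have h4 := natDegree_le_of_dvd h3 hh0
    rw [hmd] at h4
    have h5 : (g.natDegree : ℝ) ≤ h.natDegree := by exact_mod_cast h4
    have h6 : 2 * (h.natDegree : ℝ) ≤ n := by exact_mod_cast hd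
    have h7 : (N : ℝ) < 2 * n := by
      have : N < 2 * n := by omega
      exact_mod_cast this
    have h8 : √(N : ℝ) * √(N : ℝ) = N := Real.mul_self_sqrt (Nat.cast_nonneg N)
    have h9 : (10 : ℝ) ≤ √(N : ℝ) := by
      apply Real.le_sqrt_of_sq_le
      have : (100 : ℝ) ≤ N := by exact_mod_cast hN
      linarith
    nlinarith
  · have h4 := natDegree_le_of_dvd h3 hk0
    have h5 : h.natDegree + g.natDegree ≤ n := by omega
    have h6 : (h.natDegree : ℝ) + g.natDegree ≤ n := by exact_mod_cast h5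
    linarith

theorem cof2 (N n : ℕ) (hN : 100 ≤ N) (h1 : N / 2 < n) (h2 : n ≤ N)
    (hc : cofLE n (1 / 2 * √(N : ℝ))) (t : ℝ)
    (hno : ¬ ∃ h : ℤ[X], Fac n h ∧ t ≤ h.natDegree ∧ 2 * h.natDegree ≤ n) : cofLE n t := by
  obtain ⟨g, hg, hgB, hgd⟩ := hc
  obtain ⟨k, hk⟩ := hgB
  have hB : Polynomial.bernoulli n ≠ 0 := (monic_bernoulli n).ne_zero
  have hBd := natDegree_bernoulli n
  have hk0 : k ≠ 0 := by
    intro h0
    rw [hk, h0, mul_zero] at hB
    exact hB rfl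
  rw [hk, natDegree_mul hg.ne_zero hk0] at hBd
  have h3 : (g.natDegree : ℝ) + k.natDegree = n := by exact_mod_cast hBd
  have h4 : (k.natDegree : ℝ) ≤ 1 / 2 * √(N : ℝ) := by linarith
  have h7 : (N : ℝ) < 2 * n := by
    have : N < 2 * n := by omega
    exact_mod_cast this
  have h8 : √(N : ℝ) * √(N : ℝ) = N := Real.mul_self_sqrt (Nat.cast_nonneg N)
  have h9 : (10 : ℝ) ≤ √(N : ℝ) := by
    apply Real.le_sqrt_of_sq_le
    have : (100 : ℝ) ≤ N := by exact_mod_cast hN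
    linarith
  have h10 : 2 * (k.natDegree : ℝ) ≤ n := by nlinarith
  have h11 : 2 * k.natDegree ≤ n := by exact_mod_cast h10
  obtain ⟨F, hFp, hFd, c, hc, hFm⟩ := exists_primitive hk0
  have h12 : Fac n F := by
    refine ⟨hFp, ?_⟩
    rw [hFm, hk]
    refine ⟨C c⁻¹ * g, ?_⟩
    have h13 : C c * C c⁻¹ = (1 : ℚ[X]) := by rw [← C_mul, mul_inv_cancel₀ hc, C_1]
    calc g * k = (C c * C c⁻¹) * (g * k) := by rw [h13, one_mul]
      _ = C c * k * (C c⁻¹ * g) := by ring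
  have h14 : (F.natDegree : ℝ) < t := by
    by_contra hcon
    exact hno ⟨F, h12, not_lt.1 hcon, by rw [hFd]; exact h11⟩
  rw [hFd] at h14
  exact ⟨g, hg, ⟨k, hk⟩, by linarith⟩

end Pool.Agent.Bern3
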