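import Mathlib
import Pool.Agent.Bern2.CNT
import Pool.Agent.Bern3.Defs

/-!
# HK-Cn2: the count for one block of primes

`Pool.Agent.Bern2.cnt` with the block `(P, 4 P]` for general `P` instead of `P = PP N`.
-/

namespace Pool.Agent.Bern3

open Polynomial Finset Pool.Agent.Helper29 Pool.Agent.Helper98.Bern Pool.Agent.Bern2

theorem cn2 : ∃ c C : ℝ, 0 < c ∧ 0 < C ∧ ∃ N0 : ℕ, ∀ N P : ℕ, N0 ≤ N → PP N ≤ P → P ≤ N →
    ∀ (A : Finset ℕ)
    (L D0 : ℕ) (B0 : ℝ), A.Nonempty → (∀ e ∈ A, Even e ∧ e ≤ L) → L ≤ Nat.sqrt N → 2 ≤ D0 →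
    0 ≤ B0 →
    (∀ d a : ℕ, 2 < d → d ≤ D0 → a.Coprime d → ‖FS A ((a : ℝ) / d)‖ ≤ B0 * d) →
    (((Ioc (N / 2) N).filter (fun n => Even n ∧
        ((((Ioc P (4 * P)).filter Nat.Prime).filter (fun p => n % (p - 1) ∈ A)).card : ℝ) ≤
          c * A.card / Real.log N)).card : ℝ) ≤
      C * (P : ℝ) ^ 2 * (Real.log N) ^ 2 * (B0 ^ 2 * D0 ^ 2 / (A.card : ℝ) ^ 2 +
        L / (A.card * D0) + Real.log N / A.card) := by
  obtain ⟨c0, hc0, P0, hP0⟩ := theta_interval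
  refine ⟨c0 / 8, 3 * (5000 * 17) / (c0 / 8) ^ 2, by positivity, by positivity,
    max (P0 ^ 2) 100, fun N P hN hPPN hPN A L D0 B0 hAne hA hL hD0 hB0 hB => ?_⟩
  have hN1 : P0 ^ 2 ≤ N := le_trans (le_max_left _ _) hN
  have hN2 : 100 ≤ N := le_trans (le_max_right _ _) hN
  have hPP : 2 * (Nat.sqrt N + 1) ≤ P := hPPN
  have hsq : Nat.sqrt N * Nat.sqrt N ≤ N := Nat.sqrt_le N
  have hsq2 : N < (Nat.sqrt N + 1) * (Nat.sqrt N + 1) := Nat.lt_succ_sqrt N
  have hs10 : 10 ≤ Nat.sqrt N := by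
    rw [Nat.le_sqrt]; omega
  have hPP0 : P0 ≤ P := by
    have : P0 ≤ Nat.sqrt N := by
      rw [Nat.le_sqrt, ← sq]; exact hN1
    omega
  have hPr : (0 : ℝ) < P := by exact_mod_cast (by omega : 0 < P)
  have hP2 : 4 * N ≤ P * P := by
    nlinarith
  have h4P : 4 * P ≤ N * N := by
    nlinarith
  have hNr : (100 : ℝ) ≤ N := by exact_mod_cast hN2
  have hlog1 : 1 ≤ Real.log N := by
    rw [Real.le_log_iff_exp_le (by linarith)]
    have := Real.exp_one_lt_d9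
    linarith
  have hlogP : Real.log (4 * P) ≤ 2 * Real.log N := by
    have h1 : ((4 : ℝ) * P) ≤ (N : ℝ) * N := by exact_mod_cast h4P
    calc Real.log (4 * P) ≤ Real.log ((N : ℝ) * N) := Real.log_le_log (by positivity) h1
      _ = 2 * Real.log N := by
          rw [Real.log_mul (by positivity) (by positivity)]; ring
  have hlogPpos : 0 < Real.log (4 * P) := by
    apply Real.log_pos
    have : (1 : ℝ) ≤ P := by exact_mod_cast (by omega : 1 ≤ P)
    linarith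
  set ℓ := Real.log N with hℓ
  set α : ℝ := (A.card : ℝ) with hα
  have hαpos : 0 < α := by
    rw [hα]; exact_mod_cast hAne.card_pos
  have hℓpos : 0 < ℓ := by linarith
  -- number of primes
  have hprcard : c0 * P ≤ (((Ioc P (4 * P)).filter Nat.Prime).card : ℝ) * Real.log (4 * P) := by
    refine le_trans (hP0 P hPP0).1 ?_
    have : ∀ q ∈ (Ioc P (4 * P)).filter Nat.Prime, Real.log q ≤ Real.log (4 * P) := by
      intro q hq
      rw [Finset.mem_filter, Finset.mem_Ioc] at hq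
      apply Real.log_le_log
      · exact_mod_cast (by omega : 0 < q)
      · exact_mod_cast hq.1.2
    calc _ ≤ ∑ q ∈ (Ioc P (4 * P)).filter Nat.Prime, Real.log (4 * P) := Finset.sum_le_sum this
      _ = _ := by rw [Finset.sum_const, nsmul_eq_mul]
  have hprcard2 : c0 * P / (2 * ℓ) ≤ (((Ioc P (4 * P)).filter Nat.Prime).card : ℝ) := by
    rw [div_le_iff₀ (by positivity)]
    calc c0 * P ≤ (((Ioc P (4 * P)).filter Nat.Prime).card : ℝ) * Real.log (4 * P) := hprcard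
      _ ≤ (((Ioc P (4 * P)).filter Nat.Prime).card : ℝ) * (2 * ℓ) := by gcongr
  -- the moduli
  set Q := ((Ioc P (4 * P)).filter Nat.Prime).image (fun p => p - 1) with hQdef
  have hprmem : ∀ p ∈ (Ioc P (4 * P)).filter Nat.Prime, P < p ∧ p ≤ 4 * P ∧ p.Prime := by
    intro p hp
    rw [Finset.mem_filter, Finset.mem_Ioc] at hp
    exact ⟨hp.1.1, hp.1.2, hp.2⟩
  have hQ : ∀ q ∈ Q, P ≤ q ∧ q ≤ 4 * P ∧ Even q := by
    intro q hq
    rw [hQdef, Finset.mem_image] at hq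
    obtain ⟨p, hp, rfl⟩ := hq
    obtain ⟨h1, h2, h3⟩ := hprmem p hp
    refine ⟨by omega, by omega, ?_⟩
    exact h3.even_sub_one (by omega)
  have hAP : ∀ e ∈ A, Even e ∧ e < P := by
    intro e he
    refine ⟨(hA e he).1, ?_⟩
    have := (hA e he).2
    omega
  have hvar := var_bound P N (by omega) Q A hQ hAP
  have hT := T_bound A P L D0 B0 (fun e he => (hA e he).2) hD0 hB
  set T := ∑ d ∈ Ioc 2 (4 * P), (1 / (d : ℝ) ^ 2) *
        ∑ a ∈ (range d).filter (fun a => a.Coprime d), ‖FS A ((a : ℝ) / d)‖ ^ 2 with hTdef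
  set Sn : ℕ → ℝ := fun n => ∑ q ∈ Q, ((if n % q ∈ A then (1 : ℝ) else 0) -
        (if Even n then 2 * α / q else 0)) with hSn
  set Bd := (Ioc (N / 2) N).filter (fun n => Even n ∧
        ((((Ioc P (4 * P)).filter Nat.Prime).filter (fun p => n % (p - 1) ∈ A)).card : ℝ) ≤ c0 / 8 * α / ℓ) with hBd
  have hkey : ∀ n ∈ Bd, (c0 / 8 * α / ℓ) ^ 2 ≤ (Sn n) ^ 2 := by
    intro n hn
    rw [hBd, Finset.mem_filter] at hn
    obtain ⟨_, hev, hcard⟩ := hn
    have h1 : Sn n = ((((Ioc P (4 * P)).filter Nat.Prime).filter (fun p => n % (p - 1) ∈ A)).card : ℝ) -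
        ∑ p ∈ (Ioc P (4 * P)).filter Nat.Prime, 2 * α / ((p - 1 : ℕ) : ℝ) := by
      rw [hSn]
      simp only
      rw [hQdef, Finset.sum_image]
      · rw [Finset.sum_sub_distrib]
        congr 1
        · rw [← Finset.sum_filter, Finset.sum_const, nsmul_eq_mul, mul_one]
        · refine Finset.sum_congr rfl fun p _ => ?_
          rw [if_pos hev]
      · intro p hp p' hp' h
        have h2 := hprmem p hp
        have h3 := hprmem p' hp'
        simp only at h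
        omega
    have h2 : (((Ioc P (4 * P)).filter Nat.Prime).card : ℝ) * (2 * α / (4 * P)) ≤ ∑ p ∈ (Ioc P (4 * P)).filter Nat.Prime, 2 * α / ((p - 1 : ℕ) : ℝ) := by
      rw [← nsmul_eq_mul, ← Finset.sum_const]
      refine Finset.sum_le_sum fun p hp => ?_
      obtain ⟨h3, h4, h5⟩ := hprmem p hp
      have h6 : (0 : ℝ) < ((p - 1 : ℕ) : ℝ) := by exact_mod_cast (by omega : 0 < p - 1)
      have h7 : ((p - 1 : ℕ) : ℝ) ≤ 4 * P := by exact_mod_cast (by omega : p - 1 ≤ 4 * P)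
      gcongr
    have h3 : c0 / 8 * α / ℓ * 2 ≤ (((Ioc P (4 * P)).filter Nat.Prime).card : ℝ) * (2 * α / (4 * P)) := by
      calc c0 / 8 * α / ℓ * 2 = c0 * P / (2 * ℓ) * (2 * α / (4 * P)) := by
            field_simp
            ring
        _ ≤ _ := by gcongr
    have h4 : Sn n ≤ -(c0 / 8 * α / ℓ) := by rw [h1]; linarith
    have h5 : 0 < c0 / 8 * α / ℓ := by positivity
    nlinarith
  have hsum : (Bd.card : ℝ) * (c0 / 8 * α / ℓ) ^ 2 ≤
      5000 * ((N : ℝ) + 16 * (P : ℝ) ^ 2) * T := by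
    refine le_trans ?_ hvar
    calc (Bd.card : ℝ) * (c0 / 8 * α / ℓ) ^ 2 = ∑ n ∈ Bd, (c0 / 8 * α / ℓ) ^ 2 := by
          rw [Finset.sum_const, nsmul_eq_mul]
      _ ≤ ∑ n ∈ Bd, (Sn n) ^ 2 := Finset.sum_le_sum hkey
      _ ≤ ∑ n ∈ Icc 1 N, (Sn n) ^ 2 := by
          refine Finset.sum_le_sum_of_subset_of_nonneg ?_ (fun _ _ _ => sq_nonneg _)
          intro n hn
          rw [hBd, Finset.mem_filter, Finset.mem_Ioc] at hn
          rw [Finset.mem_Icc]
          omega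
  have hNP : (N : ℝ) + 16 * (P : ℝ) ^ 2 ≤ 17 * (P : ℝ) ^ 2 := by
    have : (4 : ℝ) * N ≤ P * P := by exact_mod_cast hP2
    nlinarith
  have hT2 : T ≤ B0 ^ 2 * D0 ^ 2 + α * (L / D0 + 3 * ℓ) := by
    refine le_trans hT ?_
    have : α * ((L : ℝ) / D0 + 1 + Real.log (4 * P)) ≤ α * (L / D0 + 3 * ℓ) := by
      apply mul_le_mul_of_nonneg_left _ hαpos.le
      linarith
    linarith
  have hD0' : (0 : ℝ) < D0 := by exact_mod_cast (by omega : 0 < D0)
  have hfin : (Bd.card : ℝ) * (c0 / 8 * α / ℓ) ^ 2 ≤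
      5000 * (17 * (P : ℝ) ^ 2) * (3 * (B0 ^ 2 * D0 ^ 2 + α * (L / D0 + ℓ))) := by
    refine le_trans hsum ?_
    have h1 : T ≤ 3 * (B0 ^ 2 * D0 ^ 2 + α * (L / D0 + ℓ)) := by
      have h2 : 0 ≤ B0 ^ 2 * (D0 : ℝ) ^ 2 := by positivity
      have h3 : 0 ≤ α * ((L : ℝ) / D0) := by positivity
      nlinarith
    have h2 : 0 ≤ 3 * (B0 ^ 2 * (D0 : ℝ) ^ 2 + α * (L / D0 + ℓ)) := by positivity
    calc _ ≤ 5000 * ((N : ℝ) + 16 * (P : ℝ) ^ 2) * (3 * (B0 ^ 2 * D0 ^ 2 + α * (L / D0 + ℓ))) := by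
          gcongr
      _ ≤ _ := by gcongr
  have hpos : 0 < (c0 / 8 * α / ℓ) ^ 2 := by positivity
  calc (Bd.card : ℝ) ≤ 5000 * (17 * (P : ℝ) ^ 2) * (3 * (B0 ^ 2 * D0 ^ 2 + α * (L / D0 + ℓ))) /
        (c0 / 8 * α / ℓ) ^ 2 := by
        rw [le_div_iff₀ hpos]; exact hfin
    _ = _ := by
        field_simp
        ring

end Pool.Agent.Bern3

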