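import Mathlib
import Pool.Agent.Bern2.EV
import Pool.Agent.Bern3.Cn2

/-!
# HK-Ls1: one block of primes and an interval of residues

`cn2` for `A = (Icc (x + 1) y).filter Even`, `L = y`, `B0 = 1 / 2`, `D0 = ⌈(a y) ^ (1/3)⌉₊ + 1`.
-/

namespace Pool.Agent.Bern3

open Polynomial Finset Pool.Agent.Helper29 Pool.Agent.Helper98.Bern Pool.Agent.Bern2

private theorem card_even (x y : ℕ) (h : x + 2 ≤ y) :
    ((y : ℝ) - x) / 4 ≤ (((Icc (x + 1) y).filter (fun e => Even e)).card : ℝ) := by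
  have h1 : (Ioc (x / 2) (y / 2)).image (fun t => 2 * t) ⊆ (Icc (x + 1) y).filter (fun e => Even e) := by
    intro e he
    rw [mem_image] at he
    obtain ⟨t, ht, rfl⟩ := he
    rw [mem_Ioc] at ht
    rw [mem_filter, mem_Icc]
    exact ⟨⟨by omega, by omega⟩, even_two_mul t⟩
  have h2 := Finset.card_le_card h1
  rw [Finset.card_image_of_injective _ (fun a b hab => by simpa using hab), Nat.card_Ioc] at h2
  have h3 : y - x ≤ 4 * (y / 2 - x / 2) := by omega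
  have h4 : y - x ≤ 4 * ((Icc (x + 1) y).filter (fun e => Even e)).card := by omega
  have h5 : ((y : ℝ) - x) ≤ 4 * (((Icc (x + 1) y).filter (fun e => Even e)).card : ℝ) := by
    rw [← Nat.cast_sub (by omega)]
    exact_mod_cast h4
  linarith

private theorem card_le (x y : ℕ) (h : x + 2 ≤ y) :
    (((Icc (x + 1) y).filter (fun e => Even e)).card : ℝ) ≤ y := by
  have h1 := Finset.card_filter_le (Icc (x + 1) y) (fun e => Even e)
  rw [Nat.card_Icc] at h1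
  have h2 : ((Icc (x + 1) y).filter (fun e => Even e)).card ≤ y := by omega
  exact_mod_cast h2

private theorem num (α y ℓ : ℝ) (D : ℝ) (hα : 1 ≤ α) (hαy : α ≤ y) (hℓ : 1 ≤ ℓ)
    (hD1 : (α * y) ^ (1 / 3 : ℝ) ≤ D) (hD2 : D ≤ 3 * (α * y) ^ (1 / 3 : ℝ)) :
    (1 / 2 : ℝ) ^ 2 * D ^ 2 / α ^ 2 + y / (α * D) + ℓ / α ≤ 5 * ℓ * (y ^ (2 / 3 : ℝ) / α ^ (4 / 3 : ℝ)) := by
  have hα0 : 0 < α := by linarith
  have hy0 : 0 < y := by linarith
  set A : ℝ := α ^ (1 / 3 : ℝ) with hA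
  set Y : ℝ := y ^ (1 / 3 : ℝ) with hY
  have hA0 : 0 < A := Real.rpow_pos_of_pos hα0 _
  have hY0 : 0 < Y := Real.rpow_pos_of_pos hy0 _
  have hA1 : 1 ≤ A := Real.one_le_rpow hα (by norm_num)
  have hAY : A ≤ Y := Real.rpow_le_rpow hα0.le hαy (by norm_num)
  have eα : α = A ^ 3 := by
    rw [hA, ← Real.rpow_natCast, ← Real.rpow_mul hα0.le]; norm_num
  have ey : y = Y ^ 3 := by
    rw [hY, ← Real.rpow_natCast, ← Real.rpow_mul hy0.le]; norm_num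
  have e1 : y ^ (2 / 3 : ℝ) = Y ^ 2 := by
    rw [hY, ← Real.rpow_natCast, ← Real.rpow_mul hy0.le]; norm_num
  have e2 : α ^ (4 / 3 : ℝ) = A ^ 4 := by
    rw [hA, ← Real.rpow_natCast, ← Real.rpow_mul hα0.le]; norm_num
  have e3 : (α * y) ^ (1 / 3 : ℝ) = A * Y := by
    rw [Real.mul_rpow hα0.le hy0.le]
  rw [e3] at hD1 hD2
  rw [e1, e2, eα, ey]
  have hD0 : 0 < D := lt_of_lt_of_le (by positivity) hD1
  have t1 : (1 / 2 : ℝ) ^ 2 * D ^ 2 / (A ^ 3) ^ 2 ≤ 9 / 4 * (Y ^ 2 / A ^ 4) := by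
    calc (1 / 2 : ℝ) ^ 2 * D ^ 2 / (A ^ 3) ^ 2 ≤ (1 / 2 : ℝ) ^ 2 * (3 * (A * Y)) ^ 2 / (A ^ 3) ^ 2 := by
          gcongr
      _ = 9 / 4 * (Y ^ 2 / A ^ 4) := by field_simp; norm_num
  have t2 : Y ^ 3 / (A ^ 3 * D) ≤ Y ^ 2 / A ^ 4 := by
    calc Y ^ 3 / (A ^ 3 * D) ≤ Y ^ 3 / (A ^ 3 * (A * Y)) := by gcongr
      _ = Y ^ 2 / A ^ 4 := by field_simp
  have t3 : 1 / A ^ 3 ≤ Y ^ 2 / A ^ 4 := by
    rw [div_le_div_iff₀ (by positivity) (by positivity)]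
    have : A ≤ Y ^ 2 := by nlinarith
    calc 1 * A ^ 4 = A ^ 3 * A := by ring
      _ ≤ A ^ 3 * Y ^ 2 := by gcongr
      _ = Y ^ 2 * A ^ 3 := by ring
  have t4 : ℓ / A ^ 3 ≤ ℓ * (Y ^ 2 / A ^ 4) := by
    calc ℓ / A ^ 3 = ℓ * (1 / A ^ 3) := by ring
      _ ≤ _ := by gcongr
  have hQ : 0 < Y ^ 2 / A ^ 4 := by positivity
  nlinarith

open Classical in
theorem ls1 : ∃ c C : ℝ, 0 < c ∧ 0 < C ∧ ∃ N0 : ℕ, ∀ N P : ℕ, N0 ≤ N → PP N ≤ P → P ≤ N →
    ∀ x y : ℕ, x + 2 ≤ y → y ≤ Nat.sqrt N →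
    (((Ioc (N / 2) N).filter fun n => Even n ∧
      ((((Ioc P (4 * P)).filter Nat.Prime).filter fun p => x < n % (p - 1) ∧
        n % (p - 1) ≤ y).card : ℝ) ≤ c * ((y : ℝ) - x) / Real.log N).card : ℝ) ≤
      C * (P : ℝ) ^ 2 * (Real.log N) ^ 3 * (y : ℝ) ^ (2 / 3 : ℝ) /
        ((y : ℝ) - x) ^ (4 / 3 : ℝ) := by
  obtain ⟨c, C, hc, hC, N0, hN0⟩ := cn2
  refine ⟨c / 4, 80 * C, by positivity, by positivity, max N0 100, fun N P hN hP hPN x y hxy hy => ?_⟩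
  have hNN0 : N0 ≤ N := (le_max_left _ _).trans hN
  have hN100 : 100 ≤ N := (le_max_right _ _).trans hN
  have hNr : (100 : ℝ) ≤ N := by exact_mod_cast hN100
  have hlog1 : 1 ≤ Real.log N := by
    rw [Real.le_log_iff_exp_le (by linarith)]
    have := Real.exp_one_lt_d9
    linarith
  set ℓ := Real.log N with hℓ
  set A := (Icc (x + 1) y).filter (fun e => Even e) with hA
  have hcl := card_even x y hxy
  have hcu := card_le x y hxy
  rw [← hA] at hcl hcu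
  have hyx : (2 : ℝ) ≤ (y : ℝ) - x := by
    have : ((x + 2 : ℕ) : ℝ) ≤ y := by exact_mod_cast hxy
    push_cast at this
    linarith
  have hAne : A.Nonempty := by
    rw [← Finset.card_pos]
    by_contra h
    have h0 : A.card = 0 := by omega
    rw [h0] at hcl
    push_cast at hcl
    linarith
  have hα1 : (1 : ℝ) ≤ (A.card : ℝ) := by exact_mod_cast Finset.card_pos.2 hAne
  set α : ℝ := (A.card : ℝ) with hα
  have hy0 : (1 : ℝ) ≤ y := hα1.trans hcu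
  have hq1 : 1 ≤ (α * y) ^ (1 / 3 : ℝ) := Real.one_le_rpow (by nlinarith) (by norm_num)
  set D0 : ℕ := ⌈(α * y) ^ (1 / 3 : ℝ)⌉₊ + 1 with hD0
  have hD0a : (α * y) ^ (1 / 3 : ℝ) ≤ (D0 : ℝ) := by
    rw [hD0]
    push_cast
    have := Nat.le_ceil ((α * y) ^ (1 / 3 : ℝ))
    linarith
  have hD0b : (D0 : ℝ) ≤ 3 * (α * y) ^ (1 / 3 : ℝ) := by
    rw [hD0]
    push_cast
    have := (Nat.ceil_lt_add_one (show 0 ≤ (α * y) ^ (1 / 3 : ℝ) by linarith)).le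
    linarith
  have hD02 : 2 ≤ D0 := by
    have : 1 ≤ ⌈(α * y) ^ (1 / 3 : ℝ)⌉₊ := Nat.one_le_ceil_iff.2 (by linarith)
    omega
  have key := hN0 N P hNN0 hP hPN A y D0 (1 / 2) hAne (by
      intro e he
      rw [hA, mem_filter, mem_Icc] at he
      exact ⟨he.2, he.1.2⟩) hy hD02 (by norm_num) (by
      intro d a hd _ hcop
      have := FS_even_Icc (x + 1) y d a hd hcop
      rw [hA]
      refine this.trans (le_of_eq ?_)
      ring)
  have hP2 : 2 ≤ P := by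
    have : PP N = 2 * (Nat.sqrt N + 1) := rfl
    omega
  -- inclusion of the exceptional sets
  have hsub : ((Ioc (N / 2) N).filter fun n => Even n ∧
      ((((Ioc P (4 * P)).filter Nat.Prime).filter fun p => x < n % (p - 1) ∧
        n % (p - 1) ≤ y).card : ℝ) ≤ c / 4 * ((y : ℝ) - x) / ℓ) ⊆
      ((Ioc (N / 2) N).filter (fun n => Even n ∧
        ((((Ioc P (4 * P)).filter Nat.Prime).filter (fun p => n % (p - 1) ∈ A)).card : ℝ) ≤
          c * α / ℓ)) := by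
    intro n hn
    rw [mem_filter] at hn ⊢
    refine ⟨hn.1, hn.2.1, ?_⟩
    have hset : (((Ioc P (4 * P)).filter Nat.Prime).filter (fun p => n % (p - 1) ∈ A)) =
        (((Ioc P (4 * P)).filter Nat.Prime).filter fun p => x < n % (p - 1) ∧ n % (p - 1) ≤ y) := by
      refine Finset.filter_congr fun p hp => ?_
      rw [mem_filter, mem_Ioc] at hp
      have hodd : Odd p := hp.2.odd_of_ne_two (by omega)
      have hev : Even (n % (p - 1)) := by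
        have h2 : Even (p - 1) := hodd.tsub_odd odd_one
        obtain ⟨k, hk⟩ := h2
        obtain ⟨j, hj⟩ := hn.2.1
        have h3 := Nat.div_add_mod n (p - 1)
        rw [Nat.even_iff]
        have h4 : (p - 1) * (n / (p - 1)) = 2 * (k * (n / (p - 1))) := by rw [hk]; ring
        omega
      rw [hA, mem_filter, mem_Icc]
      constructor
      · rintro ⟨⟨h1, h2⟩, _⟩
        exact ⟨by omega, h2⟩
      · rintro ⟨h1, h2⟩
        exact ⟨⟨by omega, h2⟩, hev⟩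
    rw [hset]
    refine hn.2.2.trans ?_
    have h1 : c / 4 * ((y : ℝ) - x) ≤ c * α := by nlinarith
    gcongr
  have h1 : (((Ioc (N / 2) N).filter fun n => Even n ∧
      ((((Ioc P (4 * P)).filter Nat.Prime).filter fun p => x < n % (p - 1) ∧
        n % (p - 1) ≤ y).card : ℝ) ≤ c / 4 * ((y : ℝ) - x) / ℓ).card : ℝ) ≤
      (((Ioc (N / 2) N).filter (fun n => Even n ∧
        ((((Ioc P (4 * P)).filter Nat.Prime).filter (fun p => n % (p - 1) ∈ A)).card : ℝ) ≤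
          c * α / ℓ)).card : ℝ) := by exact_mod_cast Finset.card_le_card hsub
  refine h1.trans (key.trans ?_)
  have h2 := num α y ℓ D0 hα1 hcu hlog1 hD0a hD0b
  have hα0 : 0 < α := by linarith
  have h3 : ((y : ℝ) - x) ^ (4 / 3 : ℝ) / 16 ≤ α ^ (4 / 3 : ℝ) := by
    have h4 : (((y : ℝ) - x) / 4) ^ (4 / 3 : ℝ) ≤ α ^ (4 / 3 : ℝ) :=
      Real.rpow_le_rpow (by linarith) hcl (by norm_num)
    refine le_trans ?_ h4
    rw [Real.div_rpow (by linarith) (by norm_num)]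
    have h5 : (4 : ℝ) ^ (4 / 3 : ℝ) ≤ 16 := by
      calc (4 : ℝ) ^ (4 / 3 : ℝ) ≤ (4 : ℝ) ^ (2 : ℝ) :=
            Real.rpow_le_rpow_of_exponent_le (by norm_num) (by norm_num)
        _ = 16 := by norm_num
    have h6 : 0 ≤ ((y : ℝ) - x) ^ (4 / 3 : ℝ) := by positivity
    have h7 : (0 : ℝ) < (4 : ℝ) ^ (4 / 3 : ℝ) := by positivity
    gcongr
  have hz0 : 0 < ((y : ℝ) - x) ^ (4 / 3 : ℝ) := Real.rpow_pos_of_pos (by linarith) _
  have hy23 : 0 ≤ (y : ℝ) ^ (2 / 3 : ℝ) := by positivity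
  calc C * (P : ℝ) ^ 2 * ℓ ^ 2 * ((1 / 2) ^ 2 * (D0 : ℝ) ^ 2 / α ^ 2 + (y : ℝ) / (α * D0) + ℓ / α)
      ≤ C * (P : ℝ) ^ 2 * ℓ ^ 2 * (5 * ℓ * ((y : ℝ) ^ (2 / 3 : ℝ) / α ^ (4 / 3 : ℝ))) := by gcongr
    _ ≤ C * (P : ℝ) ^ 2 * ℓ ^ 2 * (5 * ℓ * ((y : ℝ) ^ (2 / 3 : ℝ) /
          (((y : ℝ) - x) ^ (4 / 3 : ℝ) / 16))) := by gcongr
    _ = 80 * C * (P : ℝ) ^ 2 * ℓ ^ 3 * (y : ℝ) ^ (2 / 3 : ℝ) / ((y : ℝ) - x) ^ (4 / 3 : ℝ) := by
        field_simp
        ring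

end Pool.Agent.Bern3
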