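import Mathlib
import Pool.Agent.Bern3.Ls1

/-!
# HK-Ls2: all blocks up to `√N h ^ ρ`

PLAN. `y = x + h ≤ 3 h ^ (1 + 1/20)`. Blocks `P_i = PP N * 4 ^ i`, `i < I`, where `I` is maximal with
`PP N * 4 ^ I ≤ √N h ^ ρ` (so the blocks `(P_i, 4 P_i]`, `i < I`, are disjoint and contained in
`(2 √N, √N h ^ ρ]`); `PP N = 2 (Nat.sqrt N + 1) ≤ 3 √N`, `4 ^ (I + 1) ≥ h ^ ρ / 3`, so
`I ≥ (ρ log h - log 12) / log 4 ≥ (ρ / 2) log h` (`h` is large) and `I ≤ log N`; `P_i ≤ N` since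
`P_i ≤ √N h ^ ρ ≤ N`. If `n` is not in the exceptional set of `ls1` for any of these blocks then the
count is at least `∑_{i < I} c h / log N = I c h / log N ≥ (c ρ / 2) h log h / log N`
(`Cnt` counts the primes `p ≤ Q` in `Icc 1 N`; `P_i ≤ N` and even `4 P_i ≤ √N h ^ ρ ≤ N`). The
exceptional sets together have at most
`I * C * (√N h ^ ρ) ^ 2 (log N)^3 y^(2/3) / h^(4/3) ≤ C N (log N) ^ 4 h ^ (2 ρ) * 3 h ^ (0.7) / h ^ (4/3)
≤ 3 C N (log N) ^ 4 h ^ (0.1 + 0.7 - 1.3334) ≤ N h ^ (-1/3)` elements, because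
`h ^ (0.2) ≥ (log N) ^ (200 * 0.2) ≥ 3 C (log N) ^ 4` for `N` large
(`0.1 + 0.7 - 1.3333 + 0.3334 = -0.2`).
(`h ≥ (log N) ^ 200`, `h ≤ √N`.)
-/

namespace Pool.Agent.Bern3

open Polynomial Finset Pool.Agent.Helper29 Pool.Agent.Helper98.Bern Pool.Agent.Bern2

private theorem ls2_I {ρ lh : ℝ} (hρ : 0 < ρ) (hl : 8 / ρ ≤ lh) :
    ρ / 8 * lh ≤ (⌊ρ / 4 * lh⌋₊ : ℝ) ∧ (⌊ρ / 4 * lh⌋₊ : ℝ) ≤ ρ / 4 * lh ∧
      3 * (4 : ℝ) ^ ⌊ρ / 4 * lh⌋₊ ≤ Real.exp (ρ * lh) := by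
  have h8 : 8 ≤ ρ * lh := by
    rw [div_le_iff₀ hρ] at hl
    linarith
  have h0 : 0 ≤ ρ / 4 * lh := by linarith
  have h1 := Nat.floor_le h0
  have h2 := Nat.lt_floor_add_one (ρ / 4 * lh)
  refine ⟨by linarith, h1, ?_⟩
  have h4 : (4 : ℝ) ≤ Real.exp 2 := by
    have := Real.quadratic_le_exp_of_nonneg (x := 2) (by norm_num)
    linarith
  have h5 : (4 : ℝ) ^ ⌊ρ / 4 * lh⌋₊ ≤ Real.exp (ρ / 2 * lh) := by
    calc (4 : ℝ) ^ ⌊ρ / 4 * lh⌋₊ ≤ (Real.exp 2) ^ ⌊ρ / 4 * lh⌋₊ :=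
          pow_le_pow_left₀ (by norm_num) h4 _
      _ = Real.exp (⌊ρ / 4 * lh⌋₊ * 2) := by rw [Real.exp_nat_mul]
      _ ≤ Real.exp (ρ / 2 * lh) := by
          apply Real.exp_le_exp.2
          linarith
  have h6 : (3 : ℝ) ≤ Real.exp (ρ / 2 * lh) := by
    have := Real.add_one_le_exp (ρ / 2 * lh)
    linarith
  calc 3 * (4 : ℝ) ^ ⌊ρ / 4 * lh⌋₊ ≤ Real.exp (ρ / 2 * lh) * Real.exp (ρ / 2 * lh) :=
        mul_le_mul h6 h5 (by positivity) (by positivity)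
    _ = Real.exp (ρ * lh) := by
        rw [← Real.exp_add]
        congr 1
        ring

open Classical in
private theorem ls2_cnt {N n x y I P0 : ℕ} {Q t : ℝ} (hP0 : 2 * √(N : ℝ) < P0)
    (hQ : ((P0 * 4 ^ I : ℕ) : ℝ) ≤ Q) (hQN : Q ≤ N)
    (ht : ∀ i < I, t ≤ ((((Ioc (P0 * 4 ^ i) (4 * (P0 * 4 ^ i))).filter Nat.Prime).filter
      fun p => x < n % (p - 1) ∧ n % (p - 1) ≤ y).card : ℝ)) :
    I * t ≤ (Cnt Q N n x y : ℝ) := by
  have hdis : ((range I : Finset ℕ) : Set ℕ).PairwiseDisjoint fun i =>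
      (((Ioc (P0 * 4 ^ i) (4 * (P0 * 4 ^ i))).filter Nat.Prime).filter
      fun p => x < n % (p - 1) ∧ n % (p - 1) ≤ y) := by
    have key : ∀ i j, i < j → ∀ p, p ∈ (((Ioc (P0 * 4 ^ i) (4 * (P0 * 4 ^ i))).filter
        Nat.Prime).filter fun p => x < n % (p - 1) ∧ n % (p - 1) ≤ y) →
        p ∈ (((Ioc (P0 * 4 ^ j) (4 * (P0 * 4 ^ j))).filter
        Nat.Prime).filter fun p => x < n % (p - 1) ∧ n % (p - 1) ≤ y) → False := by
      intro i j hij p hp hp2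
      simp only [mem_filter, mem_Ioc] at hp hp2
      have h1 : 4 ^ (i + 1) ≤ 4 ^ j := Nat.pow_le_pow_right (by norm_num) hij
      have h2 : 4 * (P0 * 4 ^ i) ≤ P0 * 4 ^ j := by
        calc 4 * (P0 * 4 ^ i) = P0 * 4 ^ (i + 1) := by rw [pow_succ]; ring
          _ ≤ P0 * 4 ^ j := Nat.mul_le_mul_left _ h1
      have h3 := hp.1.1.2
      have h4 := hp2.1.1.1
      omega
    intro i _ j _ hij
    refine Finset.disjoint_left.2 ?_
    intro p hp hp2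
    rcases Nat.lt_or_gt_of_ne hij with h | h
    · exact key i j h p hp hp2
    · exact key j i h p hp2 hp
  have hcard := Finset.card_biUnion hdis
  have hsub : (range I).biUnion (fun i =>
      (((Ioc (P0 * 4 ^ i) (4 * (P0 * 4 ^ i))).filter Nat.Prime).filter
      fun p => x < n % (p - 1) ∧ n % (p - 1) ≤ y)) ⊆
      (Icc 1 N).filter fun p : ℕ => p.Prime ∧ 2 * √(N : ℝ) < p ∧ (p : ℝ) ≤ Q ∧
        x < n % (p - 1) ∧ n % (p - 1) ≤ y := by
    intro p hp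
    rw [mem_biUnion] at hp
    obtain ⟨i, hi, hp⟩ := hp
    rw [mem_range] at hi
    simp only [mem_filter, mem_Ioc] at hp
    obtain ⟨⟨⟨h1, h2⟩, h3⟩, h4⟩ := hp
    have h5 : 4 ^ (i + 1) ≤ 4 ^ I := Nat.pow_le_pow_right (by norm_num) hi
    have h6 : 4 * (P0 * 4 ^ i) ≤ P0 * 4 ^ I := by
      calc 4 * (P0 * 4 ^ i) = P0 * 4 ^ (i + 1) := by rw [pow_succ]; ring
        _ ≤ P0 * 4 ^ I := Nat.mul_le_mul_left _ h5
    have h7 : (p : ℝ) ≤ Q := by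
      refine le_trans ?_ hQ
      exact_mod_cast h2.trans h6
    have h8 : p ≤ N := by
      exact_mod_cast h7.trans hQN
    have h9 : P0 ≤ p := by
      have : P0 * 1 ≤ P0 * 4 ^ i := Nat.mul_le_mul_left _ (Nat.one_le_pow _ _ (by norm_num))
      omega
    have h10 : 2 * √(N : ℝ) < p := by
      refine lt_of_lt_of_le hP0 ?_
      exact_mod_cast h9
    rw [mem_filter, mem_Icc]
    exact ⟨⟨h3.one_lt.le, h8⟩, h3, h10, h7, h4.1, h4.2⟩
  have hle := Finset.card_le_card hsub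
  rw [hcard] at hle
  have hle2 : ((∑ i ∈ range I, (((Ioc (P0 * 4 ^ i) (4 * (P0 * 4 ^ i))).filter
      Nat.Prime).filter fun p => x < n % (p - 1) ∧ n % (p - 1) ≤ y).card : ℕ) : ℝ) ≤
      (Cnt Q N n x y : ℝ) := by
    have h1 : Cnt Q N n x y = ((Icc 1 N).filter fun p : ℕ => p.Prime ∧ 2 * √(N : ℝ) < p ∧
        (p : ℝ) ≤ Q ∧ x < n % (p - 1) ∧ n % (p - 1) ≤ y).card := by
      unfold Cnt
      congr
    rw [h1]
    exact_mod_cast hle
  refine le_trans ?_ hle2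
  rw [Nat.cast_sum]
  calc (I : ℝ) * t = ∑ _i ∈ range I, t := by rw [sum_const, card_range, nsmul_eq_mul]
    _ ≤ _ := Finset.sum_le_sum fun i hi => ht i (mem_range.1 hi)

private theorem ls2_fin {C L N H Y Q ρ I : ℝ} (hC : 0 < C) (hL : 1 ≤ L) (hL2 : 2 * C ≤ L)
    (hN : 0 ≤ N) (hH : L ^ 200 ≤ H) (hY0 : 0 ≤ Y) (hY : Y ≤ 2 * H ^ (21 / 20 : ℝ))
    (hρ : ρ ≤ 1 / 20) (hQ : Q = √N * H ^ ρ) (hI : I ≤ L) :
    I * (C * Q ^ 2 * L ^ 3 * Y ^ (2 / 3 : ℝ) / H ^ (4 / 3 : ℝ)) ≤ N * H ^ (-(1 / 3) : ℝ) := by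
  have hH1 : 1 ≤ H := le_trans (one_le_pow₀ hL) hH
  have hH0 : 0 < H := by linarith
  have hQ2 : Q ^ 2 ≤ N * H ^ (1 / 10 : ℝ) := by
    rw [hQ, mul_pow, Real.sq_sqrt hN, ← Real.rpow_mul_natCast hH0.le]
    refine mul_le_mul_of_nonneg_left ?_ hN
    refine Real.rpow_le_rpow_of_exponent_le hH1 ?_
    push_cast
    linarith
  have hY2 : Y ^ (2 / 3 : ℝ) ≤ 2 * H ^ (7 / 10 : ℝ) := by
    calc Y ^ (2 / 3 : ℝ) ≤ (2 * H ^ (21 / 20 : ℝ)) ^ (2 / 3 : ℝ) :=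
          Real.rpow_le_rpow hY0 hY (by norm_num)
      _ = 2 ^ (2 / 3 : ℝ) * H ^ (7 / 10 : ℝ) := by
          rw [Real.mul_rpow (by norm_num) (by positivity), ← Real.rpow_mul hH0.le]
          norm_num
      _ ≤ 2 * H ^ (7 / 10 : ℝ) := by
          refine mul_le_mul_of_nonneg_right ?_ (by positivity)
          calc (2 : ℝ) ^ (2 / 3 : ℝ) ≤ 2 ^ (1 : ℝ) :=
                Real.rpow_le_rpow_of_exponent_le (by norm_num) (by norm_num)
            _ = 2 := Real.rpow_one 2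
  have h5 : 2 * C * L ^ 4 ≤ H ^ (1 / 5 : ℝ) := by
    calc 2 * C * L ^ 4 ≤ L * L ^ 4 := mul_le_mul_of_nonneg_right hL2 (by positivity)
      _ = L ^ 5 := by ring
      _ ≤ L ^ 40 := pow_le_pow_right₀ hL (by norm_num)
      _ = (L ^ 200) ^ (1 / 5 : ℝ) := by
          rw [← Real.rpow_natCast, ← Real.rpow_natCast, ← Real.rpow_mul (by linarith)]
          norm_num
      _ ≤ H ^ (1 / 5 : ℝ) := Real.rpow_le_rpow (by positivity) hH (by norm_num)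
  have hL0 : 0 ≤ L := by linarith
  calc I * (C * Q ^ 2 * L ^ 3 * Y ^ (2 / 3 : ℝ) / H ^ (4 / 3 : ℝ))
      ≤ L * (C * (N * H ^ (1 / 10 : ℝ)) * L ^ 3 * (2 * H ^ (7 / 10 : ℝ)) / H ^ (4 / 3 : ℝ)) := by
        refine mul_le_mul hI ?_ (by positivity) hL0
        refine div_le_div_of_nonneg_right ?_ (by positivity)
        refine mul_le_mul ?_ hY2 (by positivity) (by positivity)
        refine mul_le_mul_of_nonneg_right ?_ (by positivity)
        exact mul_le_mul_of_nonneg_left hQ2 hC.le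
    _ = N * ((2 * C * L ^ 4) * (H ^ (1 / 10 : ℝ) * H ^ (7 / 10 : ℝ)) / H ^ (4 / 3 : ℝ)) := by
        ring
    _ ≤ N * (H ^ (1 / 5 : ℝ) * (H ^ (1 / 10 : ℝ) * H ^ (7 / 10 : ℝ)) / H ^ (4 / 3 : ℝ)) := by
        refine mul_le_mul_of_nonneg_left ?_ hN
        refine div_le_div_of_nonneg_right ?_ (by positivity)
        exact mul_le_mul_of_nonneg_right h5 (by positivity)
    _ = N * H ^ (-(1 / 3) : ℝ) := by
        rw [← Real.rpow_add hH0, ← Real.rpow_add hH0, ← Real.rpow_sub hH0]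
        norm_num

open Classical in
theorem ls2 (ρ : ℝ) (hρ : 0 < ρ) (hρ1 : ρ ≤ 1 / 20) : ∃ c : ℝ, 0 < c ∧ ∃ N0 : ℕ, ∀ N : ℕ,
    N0 ≤ N → ∀ x h : ℕ, Real.log N ^ 200 ≤ h → (x : ℝ) ≤ (h : ℝ) ^ (1 + 1 / 20 : ℝ) →
    x + h ≤ Nat.sqrt N →
    (((Ioc (N / 2) N).filter fun n => Even n ∧
      (Cnt (√(N : ℝ) * (h : ℝ) ^ ρ) N n x (x + h) : ℝ) < c * h * Real.log h / Real.log N).card : ℝ)
      ≤ N * (h : ℝ) ^ (-(1 / 3) : ℝ) := by
  obtain ⟨c1, C, hc1, hC, N1, H1⟩ := ls1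
  refine ⟨c1 * ρ / 8, by positivity,
    max N1 ⌈Real.exp (Real.exp (8 / ρ) + 2 * C + 1)⌉₊, ?_⟩
  intro N hN x h hh hx hxh
  have hN1 : N1 ≤ N := le_trans (le_max_left _ _) hN
  have hN2 : Real.exp (Real.exp (8 / ρ) + 2 * C + 1) ≤ (N : ℝ) :=
    le_trans (Nat.le_ceil _) (by exact_mod_cast le_trans (le_max_right _ _) hN)
  have hNpos : (0 : ℝ) < N := lt_of_lt_of_le (Real.exp_pos _) hN2
  have hL : Real.exp (8 / ρ) + 2 * C + 1 ≤ Real.log N := (Real.le_log_iff_exp_le hNpos).2 hN2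
  obtain ⟨L, hLdef⟩ : ∃ L : ℝ, L = Real.log N := ⟨_, rfl⟩
  rw [← hLdef] at hh hL ⊢
  have he1 : 1 ≤ Real.exp (8 / ρ) := Real.one_le_exp (by positivity)
  have hL1 : 2 ≤ L := by linarith
  have hL2 : 2 * C ≤ L := by linarith
  have hL3 : Real.exp (8 / ρ) ≤ L := by linarith
  have hH1 : (1 : ℝ) ≤ h := le_trans (one_le_pow₀ (by linarith)) hh
  have hHL : L ≤ (h : ℝ) := le_trans (le_self_pow₀ (by linarith) (by norm_num)) hh
  have hH0 : (0 : ℝ) < h := by linarith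
  have hh2 : 2 ≤ h := by exact_mod_cast hL1.trans hHL
  have hlh : 8 / ρ ≤ Real.log h := by
    rw [Real.le_log_iff_exp_le hH0]
    exact hL3.trans hHL
  obtain ⟨hI1, hI2, hI3⟩ := ls2_I hρ hlh
  obtain ⟨I, hIdef⟩ : ∃ I : ℕ, I = ⌊ρ / 4 * Real.log h⌋₊ := ⟨_, rfl⟩
  rw [← hIdef] at hI1 hI2 hI3
  obtain ⟨Q, hQdef⟩ : ∃ Q : ℝ, Q = √(N : ℝ) * (h : ℝ) ^ ρ := ⟨_, rfl⟩
  rw [← hQdef]
  have hexp : Real.exp (ρ * Real.log h) = (h : ℝ) ^ ρ := by
    rw [Real.rpow_def_of_pos hH0, mul_comm]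
  rw [hexp] at hI3
  have hsq0 : 0 ≤ √(N : ℝ) := Real.sqrt_nonneg _
  have hN5 : (5 : ℝ) ≤ N := by
    have h1 := Real.quadratic_le_exp_of_nonneg (x := 2) (by norm_num)
    have h2 : Real.exp 2 ≤ Real.exp (Real.exp (8 / ρ) + 2 * C + 1) :=
      Real.exp_le_exp.2 (by linarith)
    linarith
  have hsq2 : 2 ≤ √(N : ℝ) := by
    rw [Real.le_sqrt (by norm_num) (by linarith)]
    linarith
  have hsqle : ((Nat.sqrt N : ℕ) : ℝ) ≤ √(N : ℝ) := Real.nat_sqrt_le_real_sqrt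
  have hsqgt : √(N : ℝ) < (Nat.sqrt N : ℝ) + 1 := Real.real_sqrt_lt_nat_sqrt_succ
  have hPPr : ((PP N : ℕ) : ℝ) = 2 * ((Nat.sqrt N : ℝ) + 1) := by
    unfold PP
    push_cast
    ring
  have hPP1 : 2 * √(N : ℝ) < (PP N : ℕ) := by
    rw [hPPr]
    linarith
  have hPP2 : ((PP N : ℕ) : ℝ) ≤ 3 * √(N : ℝ) := by
    rw [hPPr]
    linarith
  have hPQ : ((PP N * 4 ^ I : ℕ) : ℝ) ≤ Q := by
    push_cast
    rw [hQdef]
    calc ((PP N : ℕ) : ℝ) * 4 ^ I ≤ 3 * √(N : ℝ) * 4 ^ I :=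
          mul_le_mul_of_nonneg_right hPP2 (by positivity)
      _ = √(N : ℝ) * (3 * 4 ^ I) := by ring
      _ ≤ √(N : ℝ) * (h : ℝ) ^ ρ := mul_le_mul_of_nonneg_left hI3 hsq0
  have hhs : (h : ℝ) ≤ √(N : ℝ) := by
    refine le_trans ?_ hsqle
    have : h ≤ Nat.sqrt N := by omega
    exact_mod_cast this
  have hQN : Q ≤ N := by
    rw [hQdef]
    calc √(N : ℝ) * (h : ℝ) ^ ρ ≤ √(N : ℝ) * √(N : ℝ) := by
          refine mul_le_mul_of_nonneg_left ?_ hsq0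
          calc (h : ℝ) ^ ρ ≤ (h : ℝ) ^ (1 : ℝ) :=
                Real.rpow_le_rpow_of_exponent_le hH1 (by linarith)
            _ = h := Real.rpow_one _
            _ ≤ √(N : ℝ) := hhs
      _ = N := Real.mul_self_sqrt hNpos.le
  have hPi : ∀ i < I, ((PP N * 4 ^ i : ℕ) : ℝ) ≤ Q := by
    intro i hi
    refine le_trans ?_ hPQ
    have : PP N * 4 ^ i ≤ PP N * 4 ^ I :=
      Nat.mul_le_mul_left _ (Nat.pow_le_pow_right (by norm_num) hi.le)
    exact_mod_cast this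
  have hyx : (((x + h : ℕ) : ℝ) - x) = h := by
    push_cast
    ring
  have hsub : ((Ioc (N / 2) N).filter fun n => Even n ∧
      (Cnt Q N n x (x + h) : ℝ) < c1 * ρ / 8 * h * Real.log h / L) ⊆
      (range I).biUnion fun i => (Ioc (N / 2) N).filter fun n => Even n ∧
      ((((Ioc (PP N * 4 ^ i) (4 * (PP N * 4 ^ i))).filter Nat.Prime).filter fun p =>
        x < n % (p - 1) ∧ n % (p - 1) ≤ x + h).card : ℝ) ≤
          c1 * (((x + h : ℕ) : ℝ) - x) / Real.log N := by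
    intro n hn
    rw [mem_filter] at hn
    by_contra hcon
    have hall : ∀ i < I, c1 * h / L ≤
        ((((Ioc (PP N * 4 ^ i) (4 * (PP N * 4 ^ i))).filter Nat.Prime).filter
        fun p => x < n % (p - 1) ∧ n % (p - 1) ≤ x + h).card : ℝ) := by
      intro i hi
      by_contra hc
      apply hcon
      rw [mem_biUnion]
      refine ⟨i, mem_range.2 hi, ?_⟩
      rw [mem_filter]
      refine ⟨hn.1, hn.2.1, ?_⟩
      rw [hyx, ← hLdef]
      exact (not_le.1 hc).le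
    have h1 := ls2_cnt hPP1 hPQ hQN hall
    have h2 : c1 * ρ / 8 * h * Real.log h / L ≤ I * (c1 * h / L) := by
      calc c1 * ρ / 8 * h * Real.log h / L = (ρ / 8 * Real.log h) * (c1 * h / L) := by ring
        _ ≤ I * (c1 * h / L) := by
          refine mul_le_mul_of_nonneg_right hI1 ?_
          have : 0 < L := by linarith
          positivity
    linarith [hn.2.2]
  have hcard : (((Ioc (N / 2) N).filter fun n => Even n ∧
      (Cnt Q N n x (x + h) : ℝ) < c1 * ρ / 8 * h * Real.log h / L).card : ℝ) ≤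
      ∑ i ∈ range I, (((Ioc (N / 2) N).filter fun n => Even n ∧
      ((((Ioc (PP N * 4 ^ i) (4 * (PP N * 4 ^ i))).filter Nat.Prime).filter fun p =>
        x < n % (p - 1) ∧ n % (p - 1) ≤ x + h).card : ℝ) ≤
          c1 * (((x + h : ℕ) : ℝ) - x) / Real.log N).card : ℝ) := by
    have h1 := (Finset.card_le_card hsub).trans Finset.card_biUnion_le
    exact_mod_cast h1
  refine hcard.trans ?_
  have hY : ((x + h : ℕ) : ℝ) ≤ 2 * (h : ℝ) ^ (21 / 20 : ℝ) := by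
    have h1 : (h : ℝ) ≤ (h : ℝ) ^ (21 / 20 : ℝ) := by
      calc (h : ℝ) = (h : ℝ) ^ (1 : ℝ) := (Real.rpow_one _).symm
        _ ≤ (h : ℝ) ^ (21 / 20 : ℝ) :=
          Real.rpow_le_rpow_of_exponent_le hH1 (by norm_num)
    have h2 : (1 + 1 / 20 : ℝ) = 21 / 20 := by norm_num
    rw [h2] at hx
    push_cast
    linarith
  have hbound : ∀ i ∈ range I, (((Ioc (N / 2) N).filter fun n => Even n ∧
      ((((Ioc (PP N * 4 ^ i) (4 * (PP N * 4 ^ i))).filter Nat.Prime).filter fun p =>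
        x < n % (p - 1) ∧ n % (p - 1) ≤ x + h).card : ℝ) ≤
          c1 * (((x + h : ℕ) : ℝ) - x) / Real.log N).card : ℝ) ≤
      C * Q ^ 2 * L ^ 3 * ((x + h : ℕ) : ℝ) ^ (2 / 3 : ℝ) / (h : ℝ) ^ (4 / 3 : ℝ) := by
    intro i hi
    rw [mem_range] at hi
    have hP1 : PP N ≤ PP N * 4 ^ i := Nat.le_mul_of_pos_right _ (by positivity)
    have hP2 : PP N * 4 ^ i ≤ N := by
      have := (hPi i hi).trans hQN
      exact_mod_cast this
    have h1 := H1 N (PP N * 4 ^ i) hN1 hP1 hP2 x (x + h) (by omega) hxh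
    refine h1.trans ?_
    rw [hyx, ← hLdef]
    refine div_le_div_of_nonneg_right ?_ (by positivity)
    have hL0 : 0 ≤ L := by linarith
    refine mul_le_mul_of_nonneg_right ?_ (by positivity)
    refine mul_le_mul_of_nonneg_right ?_ (by positivity)
    refine mul_le_mul_of_nonneg_left ?_ hC.le
    exact pow_le_pow_left₀ (by positivity) (hPi i hi) 2
  refine (Finset.sum_le_sum hbound).trans ?_
  rw [sum_const, card_range, nsmul_eq_mul]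
  have hlogle : Real.log h ≤ L := by
    rw [hLdef]
    refine Real.log_le_log hH0 ?_
    have h1 : √(N : ℝ) ≤ N := by
      calc √(N : ℝ) = √(N : ℝ) * 1 := by ring
        _ ≤ √(N : ℝ) * √(N : ℝ) := mul_le_mul_of_nonneg_left (by linarith) hsq0
        _ = N := Real.mul_self_sqrt hNpos.le
    exact hhs.trans h1
  have hlog0 : 0 ≤ Real.log h := Real.log_nonneg hH1
  have hIL : (I : ℝ) ≤ L := by
    have h1 : ρ / 4 * Real.log h ≤ 1 * Real.log h :=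
      mul_le_mul_of_nonneg_right (by linarith) hlog0
    linarith
  exact ls2_fin hC (by linarith) hL2 hNpos.le hh (Nat.cast_nonneg _) hY hρ1 hQdef hIL

end Pool.Agent.Bern3
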