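import Mathlib
import Pool.Agent.Bern2.BLK1
import Pool.Agent.Bern3.Defs

/-!
# HK-Gcl: the primes which divide the leading coefficient of a factor

PLAN. `Fac n h`: `bernoulli n = h.map * g0`. Let `c0 ∈ ℚ`, `G : ℤ[X]` primitive with
`G.map = C c0 * g0` (`Pool.Agent.Helper29.exists_primitive`, file `Pool/Agent/Helper29/BernMain.lean`), and
`P = h * G`, primitive (`Polynomial.IsPrimitive.mul`), `P.map = C c0 * bernoulli n`. So the leading
coefficient of `P` is `c0` (an integer, `≠ 0`, `bernoulli n` is monic), it is `lc h * lc G`, and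
`P.coeff (n - j) = c0 * C(n, j) B_j` for `j ≤ n` (`Polynomial.coeff_bernoulli`).
Let `q` be a prime, `q ∣ lc h`.

(a) `¬ q ^ 2 ∣ c0`: `q * B_j` is `q`-integral for all `j` (`PI q (q * B_j)`; von Staudt: in
`Pool/Agent/Helper29/BernInt.lean`, `Pool/Agent/Helper29/BernMain.lean` and `Pool/Agent/Bern2/BLK1.lean` there are
`PI_bernoulli` (`B_k` is `q`-integral if `(q - 1) ∤ k` or `k = 0`), `blk1_vs`
(`B_k + 1/q` is `q`-integral if `(q - 1) ∣ k`, `0 < k`, `3 ≤ q`), Mathlib has
`Bernoulli.vonStaudt_clausen`). If `q ^ 2 ∣ c0` then `P.coeff (n - j) = (c0 / q) * C(n, j) * (q B_j)`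
is divisible by `q` for all `j` (an integer which is `q` times a `q`-integral number), so `q`
divides the primitive polynomial `P`: contradiction. In particular `¬ q ^ 2 ∣ lc h`, and `¬ q ∣ lc G`
because `q ∣ lc h` and `q ^ 2 ∤ c0 = lc h * lc G`.

(b) Reduce modulo `q`: `P̄ = h̄ Ḡ ≠ 0`, `Ḡ` has the full degree `n - D` (`D = h.natDegree`), so
`P̄` has degree `≥ n - D`: there is `j ≤ D` with `q ∤ P.coeff (n - j)`; `j ≥ 1` since
`P.coeff n = c0` is divisible by `q`. Since `P.coeff (n - j) = (c0 / q) * C(n, j) * (q B_j)` with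
`c0 / q` an integer: `q ∤ C(n, j)` (otherwise the integer is `q` times a `q`-integral number), and
`q B_j` is not in `q ℤ_(q)`, i.e. `B_j` is not `q`-integral, so `(q - 1) ∣ j` (`PI_bernoulli`; check
`q = 2`: `q - 1 = 1` divides everything).
-/

namespace Pool.Agent.Bern3

open Polynomial Finset Pool.Agent.Helper29 Pool.Agent.Helper98.Bern

private lemma gcl_dvd {q : ℕ} (hq : q.Prime) {w : ℤ} {x : ℚ} (hx : PI q x)
    (h : (w : ℚ) = q * x) : (q : ℤ) ∣ w := by
  obtain ⟨d, z, hd, hz⟩ := hx
  have h1 : (d : ℚ) * w = q * z := by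
    rw [h, ← hz]
    ring
  have h2 : d * w = q * z := by exact_mod_cast h1
  have h3 : (q : ℤ) ∣ d * w := ⟨z, h2⟩
  rcases (Nat.prime_iff_prime_int.mp hq).dvd_or_dvd h3 with h4 | h4
  · exact absurd h4 hd
  · exact h4

/-- `q B_j` is `q`-integral -/
private lemma gcl_bern {q : ℕ} (hq : q.Prime) (j : ℕ) :
    PI q ((q : ℚ) * _root_.bernoulli j) := by
  rcases Nat.even_or_odd j with he | ho
  · obtain ⟨k, hk⟩ := he
    have h1 : j = 2 * k := by omega
    rw [h1]
    exact PI.bernoulli hq k
  · rcases eq_or_ne j 1 with h1 | h1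
    · subst h1
      rw [_root_.bernoulli_one]
      rcases hq.eq_two_or_odd' with h2 | h2
      · subst h2
        have h3 : ((2 : ℕ) : ℚ) * (-1 / 2) = ((-1 : ℤ) : ℚ) := by norm_num
        rw [h3]
        exact PI.int hq (-1)
      · refine ⟨2, -q, ?_, ?_⟩
        · intro h3
          have h4 : q ∣ 2 := by exact_mod_cast h3
          have h5 := (Nat.prime_dvd_prime_iff_eq hq Nat.prime_two).1 h4
          rw [h5] at h2
          exact absurd h2 (by decide)
        · push_cast
          ring
    · rw [bernoulli_eq_zero_of_odd ho (by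
        have := ho.pos
        omega), mul_zero]
      simpa using PI.int hq 0

theorem gcl (n : ℕ) (h : ℤ[X]) (hf : Fac n h) (q : ℕ) (hq : q.Prime)
    (hd : (q : ℤ) ∣ h.leadingCoeff) :
    ¬ (q : ℤ) ^ 2 ∣ h.leadingCoeff ∧
      ∃ j : ℕ, 1 ≤ j ∧ j ≤ h.natDegree ∧ (q - 1) ∣ j ∧ ¬ q ∣ n.choose j := by
  obtain ⟨hprim, hdvd⟩ := hf
  obtain ⟨P, hP, -, c, hc, hmap⟩ := exists_primitive (Helper29.monic_bernoulli n).ne_zero
  have hP0 : P ≠ 0 := hP.ne_zero
  have hz0 : P.leadingCoeff ≠ 0 := leadingCoeff_ne_zero.2 hP0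
  have hcz : c = (P.leadingCoeff : ℚ) := by
    have h1 := leadingCoeff_map_of_injective (RingHom.injective_int (Int.castRingHom ℚ)) P
    rw [hmap, leadingCoeff_mul, leadingCoeff_C, (Helper29.monic_bernoulli n).leadingCoeff,
      mul_one] at h1
    rw [h1, eq_intCast]
  rw [hcz] at hmap
  obtain ⟨hdeg, -⟩ := Helper29.natDegree_leadingCoeff_of_map hz0 hmap
  obtain ⟨G, hG⟩ : h ∣ P := by
    apply hprim.dvd_of_fraction_map_dvd_fraction_map (K := ℚ)
    change h.map (Int.castRingHom ℚ) ∣ P.map (Int.castRingHom ℚ)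
    rw [hmap]
    exact hdvd.mul_left _
  have hh0 : h ≠ 0 := hprim.ne_zero
  have hG0 : G ≠ 0 := by
    rintro rfl
    rw [mul_zero] at hG
    exact hP0 hG
  have hlc : P.leadingCoeff = h.leadingCoeff * G.leadingCoeff := by
    rw [hG, leadingCoeff_mul]
  have hnd : n = h.natDegree + G.natDegree := by
    rw [← hdeg, hG, natDegree_mul hh0 hG0]
  -- the coefficients
  have hco : ∀ i, i ≤ n → ((P.coeff i : ℤ) : ℚ) =
      (P.leadingCoeff : ℚ) * (_root_.bernoulli (n - i) * (n.choose i : ℚ)) := by
    intro i hi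
    have h1 := congrArg (fun f : ℚ[X] => f.coeff i) hmap
    simp only [coeff_map, coeff_C_mul, eq_intCast] at h1
    rw [h1, Polynomial.coeff_bernoulli, if_pos hi]
  have hqz : (q : ℤ) ∣ P.leadingCoeff := by
    rw [hlc]
    exact hd.mul_right _
  obtain ⟨z', hz'⟩ := hqz
  have hunit : ¬ (∀ i, (q : ℤ) ∣ P.coeff i) := by
    intro hall
    have h1 := hP (q : ℤ) (by
      rw [C_dvd_iff_dvd_coeff]
      exact hall)
    exact (Nat.prime_iff_prime_int.mp hq).not_isUnit h1
  have hbig : ∀ i, n < i → P.coeff i = 0 := by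
    intro i hi
    apply coeff_eq_zero_of_natDegree_lt
    rw [hdeg]
    exact hi
  have hsq : ¬ (q : ℤ) ^ 2 ∣ P.leadingCoeff := by
    rintro ⟨y, hy⟩
    apply hunit
    intro i
    rcases le_or_gt i n with hi | hi
    · apply gcl_dvd hq (x := (y : ℚ) * ((q : ℚ) * _root_.bernoulli (n - i)) * (n.choose i : ℚ))
      · exact PI.mul hq (PI.mul hq (PI.int hq y) (gcl_bern hq _)) (PI.nat hq _)
      · rw [hco i hi, hy]
        push_cast
        ring
    · rw [hbig i hi]
      exact dvd_zero _
  have hGq : ¬ (q : ℤ) ∣ G.leadingCoeff := by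
    intro h1
    apply hsq
    rw [hlc, pow_two]
    exact mul_dvd_mul hd h1
  refine ⟨fun h1 => hsq (by rw [hlc]; exact h1.mul_right _), ?_⟩
  by_contra hcon
  push Not at hcon
  -- the high coefficients are divisible by `q`
  have hhigh : ∀ i, n - h.natDegree ≤ i → (q : ℤ) ∣ P.coeff i := by
    intro i hi
    rcases le_or_gt i n with hin | hin
    · by_cases h0 : n - i = 0
      · have h1 : i = n := by omega
        rw [h1, ← hdeg]
        exact ⟨z', hz'⟩
      · by_cases hj : (q - 1) ∣ (n - i)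
        · have h1 := hcon (n - i) (by omega) (by omega) hj
          rw [Nat.choose_symm hin] at h1
          obtain ⟨c', hc'⟩ := h1
          apply gcl_dvd hq (x := (z' : ℚ) * ((q : ℚ) * _root_.bernoulli (n - i)) * (c' : ℚ))
          · exact PI.mul hq (PI.mul hq (PI.int hq z') (gcl_bern hq _)) (PI.nat hq _)
          · rw [hco i hin, hz', hc']
            push_cast
            ring
        · have hq3 : 3 ≤ q := by
            by_contra h2
            have h3 : q = 2 := by
              have := hq.two_le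
              omega
            rw [h3] at hj
            exact hj (one_dvd _)
          apply gcl_dvd hq (x := (z' : ℚ) * _root_.bernoulli (n - i) * (n.choose i : ℚ))
          · exact PI.mul hq (PI.mul hq (PI.int hq z') (PI_bernoulli hq hq3 _ (Or.inr hj)))
              (PI.nat hq _)
          · rw [hco i hin, hz']
            push_cast
            ring
    · rw [hbig i hin]
      exact dvd_zero _
  have : Fact q.Prime := ⟨hq⟩
  have hred : P.map (Int.castRingHom (ZMod q)) =
      h.map (Int.castRingHom (ZMod q)) * G.map (Int.castRingHom (ZMod q)) := by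
    rw [hG, Polynomial.map_mul]
  have hPne : P.map (Int.castRingHom (ZMod q)) ≠ 0 := by
    intro h1
    apply hunit
    intro i
    have h2 := congrArg (fun f : (ZMod q)[X] => f.coeff i) h1
    simp only [coeff_map, coeff_zero, eq_intCast] at h2
    exact (ZMod.intCast_zmod_eq_zero_iff_dvd _ _).1 h2
  have hne := hPne
  rw [hred] at hne
  have hhne := left_ne_zero_of_mul hne
  have hGne := right_ne_zero_of_mul hne
  have hGd : (G.map (Int.castRingHom (ZMod q))).natDegree = G.natDegree := by
    apply natDegree_map_of_leadingCoeff_ne_zero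
    rw [eq_intCast]
    intro h0
    exact hGq ((ZMod.intCast_zmod_eq_zero_iff_dvd _ _).1 h0)
  have hPd : n - h.natDegree ≤ (P.map (Int.castRingHom (ZMod q))).natDegree := by
    rw [hred, natDegree_mul hhne hGne, hGd]
    omega
  have h1 := hhigh _ hPd
  have h2 : (P.map (Int.castRingHom (ZMod q))).leadingCoeff = 0 := by
    unfold leadingCoeff
    rw [coeff_map, eq_intCast]
    exact (ZMod.intCast_zmod_eq_zero_iff_dvd _ _).2 h1
  exact hPne (leadingCoeff_eq_zero.1 h2)

end Pool.Agent.Bern3
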