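import Mathlib
import Pool.Agent.Bern3.Gcl

/-!
# HK-Cbd: the leading coefficient of a factor and the residues of `n`

PLAN. `luc`: `j = (q - 1) i`, `1 ≤ i ≤ D / (q - 1)` and `D / (q - 1) < q` (from `D < q (q - 1)`), so
`j = q (i - 1) + (q - i)`, `j % q = q - i` (`1 ≤ i < q`; for `q = 2`: `i = 1`). By Lucas
(`Choose.choose_modEq_choose_mod_mul_choose_div_nat` : `choose n k ≡ choose (n % q) (k % q) * choose (n / q) (k / q) [MOD q]`)
`q ∤ C(n, j)` implies `C(n % q, j % q) ≠ 0`, so `q - i ≤ n % q`.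

`cbd`: `|lc h|` is squarefree by `gcl`, so it is the product of the primes `q` dividing it
(`Nat.prod_primeFactors_of_squarefree`); by `gcl` and `luc` (with `D = D1`) such a `q` satisfies
`q - 1 ≤ j ≤ D1` and either `q (q - 1) ≤ D1` or (`D1 < q (q - 1)` and `q ≤ n % q + D1 / (q - 1)`).
In the first case `(q - 1) ^ 2 ≤ D1`, `q ≤ Nat.sqrt D1 + 1`: these are at most `Nat.sqrt D1`
primes with `log q ≤ log (D1 + 1)`; the second case is `XS n D1`. Use `Real.log_prod`,
`Finset.sum_le_sum_of_subset_of_nonneg`, `Finset.sum_filter_add_sum_filter_not`.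
(If `h.leadingCoeff = ± 1` everything is `0`.)
-/

namespace Pool.Agent.Bern3

open Polynomial Finset

theorem luc (n q j D : ℕ) (hq : q.Prime) (hj : 1 ≤ j) (hjD : j ≤ D) (hd : (q - 1) ∣ j)
    (hc : ¬ q ∣ n.choose j) (hD : D < q * (q - 1)) : q ≤ n % q + D / (q - 1) := by
  obtain ⟨i, rfl⟩ := hd
  have hq2 := hq.two_le
  have hq1 : 0 < q - 1 := by omega
  have hi1 : 1 ≤ i := by
    rcases Nat.eq_zero_or_pos i with h | h
    · rw [h, mul_zero] at hj
      omega
    · exact h
  have hiD : i ≤ D / (q - 1) := (Nat.le_div_iff_mul_le hq1).2 (by rw [mul_comm]; exact hjD)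
  have hiq : i < q := by
    have h1 : (q - 1) * i < (q - 1) * q := by
      rw [mul_comm (q - 1) q]
      exact lt_of_le_of_lt hjD hD
    exact Nat.lt_of_mul_lt_mul_left h1
  have hmod : ((q - 1) * i) % q = q - i := by
    have h1 : (q - 1) * i = (q - i) + q * (i - 1) := by
      obtain ⟨b, rfl⟩ := Nat.exists_eq_add_of_le hi1
      obtain ⟨a, rfl⟩ := Nat.exists_eq_add_of_le hiq.le
      have h2 : 1 + b + a - 1 = b + a := by omega
      have h3 : 1 + b + a - (1 + b) = a := by omega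
      have h4 : 1 + b - 1 = b := by omega
      rw [h2, h3, h4]
      ring
    rw [h1, Nat.add_mul_mod_self_left]
    exact Nat.mod_eq_of_lt (by omega)
  have : Fact q.Prime := ⟨hq⟩
  have h1 := Choose.choose_modEq_choose_mod_mul_choose_div_nat (n := n) (k := (q - 1) * i) (p := q)
  by_contra hcon
  have h2 : n % q < q - i := by omega
  rw [hmod, Nat.choose_eq_zero_of_lt h2, zero_mul] at h1
  exact hc ((Nat.modEq_zero_iff_dvd).1 h1)

theorem cbd (n : ℕ) (h : ℤ[X]) (hf : Fac n h) (D1 : ℕ) (hD : h.natDegree ≤ D1) :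
    Real.log |(h.leadingCoeff : ℝ)| ≤ Nat.sqrt D1 * Real.log (D1 + 1) + XS n D1 := by
  classical
  set a : ℕ := h.leadingCoeff.natAbs with ha
  have habs : |(h.leadingCoeff : ℝ)| = (a : ℝ) := by
    rw [ha, Nat.cast_natAbs, Int.cast_abs]
  have hdvd : ∀ q : ℕ, q ∣ a ↔ (q : ℤ) ∣ h.leadingCoeff := fun q => Int.natCast_dvd.symm
  have hsq : Squarefree a := by
    rw [Nat.squarefree_iff_prime_squarefree]
    intro q hq hqq
    have h1 : (q : ℤ) ∣ h.leadingCoeff := (hdvd q).1 (dvd_trans (dvd_mul_right q q) hqq)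
    refine (gcl n h hf q hq h1).1 ?_
    have h2 : ((q * q : ℕ) : ℤ) ∣ h.leadingCoeff := (hdvd _).1 hqq
    push_cast at h2
    rwa [sq]
  have hlog : Real.log (a : ℝ) = ∑ q ∈ a.primeFactors, Real.log q := by
    conv_lhs => rw [← Nat.prod_primeFactors_of_squarefree hsq]
    rw [Nat.cast_prod, Real.log_prod]
    intro q hq
    exact_mod_cast (Nat.prime_of_mem_primeFactors hq).ne_zero
  have hkey : ∀ q ∈ a.primeFactors, q.Prime ∧ q - 1 ≤ D1 ∧
      (D1 < q * (q - 1) → q ≤ n % q + D1 / (q - 1)) := by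
    intro q hq
    have hqp := Nat.prime_of_mem_primeFactors hq
    obtain ⟨-, j, hj1, hj2, hj3, hj4⟩ :=
      gcl n h hf q hqp ((hdvd q).1 (Nat.dvd_of_mem_primeFactors hq))
    exact ⟨hqp, (Nat.le_of_dvd hj1 hj3).trans (hj2.trans hD),
      fun h1 => luc n q j D1 hqp hj1 (hj2.trans hD) hj3 hj4 h1⟩
  rw [habs, hlog, ← Finset.sum_filter_add_sum_filter_not a.primeFactors
    fun q => q * (q - 1) ≤ D1]
  refine add_le_add ?_ ?_
  · have h1 : ∀ q ∈ a.primeFactors.filter (fun q => q * (q - 1) ≤ D1),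
        Real.log q ≤ Real.log (D1 + 1) := by
      intro q hq
      obtain ⟨hqp, hq1, -⟩ := hkey q (Finset.mem_filter.1 hq).1
      refine Real.log_le_log (by exact_mod_cast hqp.pos) ?_
      have h2 : q ≤ D1 + 1 := by omega
      exact_mod_cast h2
    have h2 : (a.primeFactors.filter fun q => q * (q - 1) ≤ D1) ⊆
        Finset.Icc 2 (Nat.sqrt D1 + 1) := by
      intro q hq
      obtain ⟨hq1, hq2⟩ := Finset.mem_filter.1 hq
      obtain ⟨hqp, -, -⟩ := hkey q hq1
      have h3 := hqp.two_le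
      have h4 : (q - 1) * (q - 1) ≤ D1 := by
        refine le_trans ?_ hq2
        exact Nat.mul_le_mul_right _ (by omega)
      have h5 : q - 1 ≤ Nat.sqrt D1 := Nat.le_sqrt.2 h4
      exact Finset.mem_Icc.2 ⟨h3, by omega⟩
    have h3 := Finset.card_le_card h2
    rw [Nat.card_Icc] at h3
    have h4 : (a.primeFactors.filter fun q => q * (q - 1) ≤ D1).card ≤ Nat.sqrt D1 := by omega
    have h5 : 0 ≤ Real.log ((D1 : ℝ) + 1) :=
      Real.log_nonneg (by have : (0 : ℝ) ≤ D1 := Nat.cast_nonneg _; linarith)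
    calc ∑ q ∈ a.primeFactors.filter (fun q => q * (q - 1) ≤ D1), Real.log q
        ≤ (a.primeFactors.filter fun q => q * (q - 1) ≤ D1).card • Real.log (D1 + 1) :=
          Finset.sum_le_card_nsmul _ _ _ h1
      _ ≤ Nat.sqrt D1 * Real.log (D1 + 1) := by
          rw [nsmul_eq_mul]
          exact mul_le_mul_of_nonneg_right (by exact_mod_cast h4) h5
  · unfold XS
    refine Finset.sum_le_sum_of_subset_of_nonneg ?_ fun q hq _ => ?_
    · intro q hq
      obtain ⟨hq1, hq2⟩ := Finset.mem_filter.1 hq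
      obtain ⟨hqp, hqD, hq3⟩ := hkey q hq1
      have h3 := hqp.two_le
      have h4 : D1 < q * (q - 1) := not_le.1 hq2
      exact Finset.mem_filter.2 ⟨Finset.mem_Icc.2 ⟨h3, by omega⟩, hqp, h4, hq3 h4⟩
    · obtain ⟨-, hqp, -⟩ := Finset.mem_filter.1 hq
      exact Real.log_nonneg (by exact_mod_cast hqp.one_le)

end Pool.Agent.Bern3
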