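import Mathlib
import Pool.Agent.Bern3.Cbd

/-!
# HK-Typ: the leading coefficients are small for typical `n`

PLAN. `avx`: exchange the sums. For a prime `q ≤ D + 1 ≤ N` with `D < q (q - 1)` and
`w = D / (q - 1)` the number of the `n ∈ (0, N]` with `n % q ≥ q - w` is at most
`w * (N / q + 1) ≤ 2 w N / q ≤ 2 D N / (q (q - 1))` (`n = q a + r`, `r ∈ [q - w, q)`, `a ≤ N / q`:
inject `n ↦ (n / q, n % q)`), so the sum is `≤ 2 N D log (D + 1) ∑ 1 / (q (q - 1))`, over the natural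
numbers `q` with `q (q - 1) > D`, `q ≤ D + 1`; telescoping `1 / (q (q - 1)) = 1/(q - 1) - 1/q` the sum is
`≤ 1 / (q0 - 1)`, `q0` the least such `q`, `q0 ^ 2 > D`, `q0 - 1 ≥ √D / 2`
(`q0 (q0 - 1) > D ≥ 1`, so `q0 ≥ 2`, `q0 - 1 ≥ q0 / 2 > √D / 2`). So `≤ 4 N √D log (D + 1)`.

`typ`: for `D = 2 ^ i` Markov: the number of the `n ∈ (0, N]` with `XS n D > D ^ (3/4)` is
`≤ 4 N √D log (D + 1) / D ^ (3/4) ≤ C N D ^ (- 1/8)`; the sum over `2 ^ i ≥ (log N) ^ 8` is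
`≤ C' N (log N) ^ (-1)`, at most `ε N` for large `N` (geometric series; `D + 1 ≤ N` from
`D ≤ √N`).

`typ2`: if `n` is not in the exceptional set of `typ` and `h` has degree `D`,
`(log N) ^ 8 ≤ D ≤ √N / 2`, choose `i` with `2 ^ (i - 1) < D ≤ 2 ^ i =: D1 ≤ 2 D ≤ √N` and use `cbd`:
`log |lc| ≤ √(2D) log (2 D + 1) + (2 D) ^ (3/4) ≤ 4 D ^ (3/4)` for `D` large
(`D ≥ (log N) ^ 8` is large with `N`; `2 ^ (3/4) < 1.69`).
-/

namespace Pool.Agent.Bern3

open Polynomial Finset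

private theorem tele (a : ℕ) (ha : 2 ≤ a) : ∀ b : ℕ, a ≤ b →
    ∑ q ∈ Ico a b, 1 / ((q : ℝ) * ((q : ℝ) - 1)) = 1 / ((a : ℝ) - 1) - 1 / ((b : ℝ) - 1) := by
  intro b hb
  induction b, hb using Nat.le_induction with
  | base => simp
  | succ b hb ih =>
    rw [Finset.sum_Ico_succ_top hb, ih]
    have h1 : (2 : ℝ) ≤ (b : ℝ) := by exact_mod_cast ha.trans hb
    have h2 : (b : ℝ) - 1 ≠ 0 := by linarith
    have h3 : (b : ℝ) ≠ 0 := by linarith
    have h4 : ((b + 1 : ℕ) : ℝ) - 1 = b := by push_cast; ring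
    have h5 : 1 / ((b : ℝ) * ((b : ℝ) - 1)) = 1 / ((b : ℝ) - 1) - 1 / (b : ℝ) := by
      rw [div_sub_div _ _ h2 h3]
      congr 1 <;> ring
    rw [h4, h5]
    ring

private theorem cntw (N q w : ℕ) (hq : 0 < q) :
    ((Ioc 0 N).filter fun n => q ≤ n % q + w).card ≤ (N / q + 1) * w := by
  calc ((Ioc 0 N).filter fun n => q ≤ n % q + w).card
      ≤ (range (N / q + 1) ×ˢ Ico (q - w) q).card := by
        apply Finset.card_le_card_of_injOn (fun n => (n / q, n % q))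
        · intro n hn
          simp only [coe_filter, mem_Ioc, Set.mem_ofPred_eq] at hn
          simp only [coe_product, Set.mem_prod, mem_coe, mem_range, mem_Ico]
          refine ⟨Nat.lt_succ_of_le (Nat.div_le_div_right hn.1.2), ?_, Nat.mod_lt _ hq⟩
          omega
        · intro a _ b _ hab
          simp only [Prod.mk.injEq] at hab
          rw [← Nat.div_add_mod a q, ← Nat.div_add_mod b q, hab.1, hab.2]
    _ = (N / q + 1) * (q - (q - w)) := by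
        rw [card_product, card_range, Nat.card_Ico]
    _ ≤ (N / q + 1) * w := by
        apply Nat.mul_le_mul_left
        omega

theorem avx (N D : ℕ) (hD : 1 ≤ D) (hDN : D + 1 ≤ N) :
    ∑ n ∈ Ioc 0 N, XS n D ≤ 4 * N * √(D : ℝ) * Real.log (D + 1) := by
  classical
  have hDr : (1 : ℝ) ≤ D := by exact_mod_cast hD
  have hlog : 0 ≤ Real.log (D + 1) := Real.log_nonneg (by linarith)
  -- the least q0
  have hex : ∃ q : ℕ, 2 ≤ q ∧ D < q * (q - 1) := by
    refine ⟨D + 1, by omega, ?_⟩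
    rw [Nat.add_sub_cancel]
    nlinarith
  set q0 := Nat.find hex with hq0
  obtain ⟨h2q0, hDq0⟩ := Nat.find_spec hex
  rw [← hq0] at h2q0 hDq0
  have hq0D : q0 ≤ D + 1 := Nat.find_min' hex ⟨by omega, by rw [Nat.add_sub_cancel]; nlinarith⟩
  have hsq : √(D : ℝ) / 2 ≤ (q0 : ℝ) - 1 := by
    have h1 : (2 : ℝ) ≤ q0 := by exact_mod_cast h2q0
    have h2 : (D : ℝ) < (q0 : ℝ) * ((q0 : ℝ) - 1) := by
      have : ((q0 - 1 : ℕ) : ℝ) = (q0 : ℝ) - 1 := by
        rw [Nat.cast_sub (by omega)]; simp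
      rw [← this]; exact_mod_cast hDq0
    have h3 : √(D : ℝ) ≤ q0 := by
      rw [Real.sqrt_le_left (by linarith)]
      nlinarith
    linarith
  -- exchange the sums
  have hXS : ∀ n, XS n D = ∑ q ∈ Icc 2 (D + 1), if (q.Prime ∧ D < q * (q - 1) ∧
      q ≤ n % q + D / (q - 1)) then Real.log q else 0 := by
    intro n
    unfold XS
    rw [Finset.sum_filter]
  simp_rw [hXS]
  rw [Finset.sum_comm]
  have hterm : ∀ q ∈ Icc 2 (D + 1), (∑ n ∈ Ioc 0 N, if (q.Prime ∧ D < q * (q - 1) ∧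
      q ≤ n % q + D / (q - 1)) then Real.log q else 0) ≤
      if q0 ≤ q then 2 * D * N * Real.log (D + 1) * (1 / ((q : ℝ) * ((q : ℝ) - 1))) else 0 := by
    intro q hq
    rw [mem_Icc] at hq
    by_cases hc : D < q * (q - 1)
    · have hq0q : q0 ≤ q := Nat.find_min' hex ⟨hq.1, hc⟩
      rw [if_pos hq0q]
      have hq2 : (2 : ℝ) ≤ q := by exact_mod_cast hq.1
      have hlogq0 : 0 ≤ Real.log q := Real.log_nonneg (by linarith)
      have hlogq : Real.log q ≤ Real.log (D + 1) := by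
        apply Real.log_le_log (by linarith)
        exact_mod_cast hq.2
      have hstep : (∑ n ∈ Ioc 0 N, if (q.Prime ∧ D < q * (q - 1) ∧
          q ≤ n % q + D / (q - 1)) then Real.log q else 0) ≤
          (((Ioc 0 N).filter fun n => q ≤ n % q + D / (q - 1)).card : ℝ) * Real.log q := by
        rw [← nsmul_eq_mul, ← Finset.sum_const, Finset.sum_filter]
        apply Finset.sum_le_sum
        intro n _
        split_ifs with h1 h2 h3
        · exact le_rfl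
        · exact absurd h1.2.2 h2
        · exact hlogq0
        · exact le_rfl
      refine hstep.trans ?_
      have hcard : (((Ioc 0 N).filter fun n => q ≤ n % q + D / (q - 1)).card : ℝ) ≤
          2 * D * N * (1 / ((q : ℝ) * ((q : ℝ) - 1))) := by
        have h1 : (((Ioc 0 N).filter fun n => q ≤ n % q + D / (q - 1)).card : ℝ) ≤
            ((N / q + 1 : ℕ) : ℝ) * ((D / (q - 1) : ℕ) : ℝ) := by
          exact_mod_cast cntw N q (D / (q - 1)) (by omega)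
        refine h1.trans ?_
        have h2 : ((N / q + 1 : ℕ) : ℝ) ≤ 2 * N / q := by
          push_cast
          have h3 : ((N / q : ℕ) : ℝ) ≤ (N : ℝ) / q := Nat.cast_div_le
          have h4 : (1 : ℝ) ≤ (N : ℝ) / q := by
            rw [le_div_iff₀ (by linarith), one_mul]
            exact_mod_cast hq.2.trans hDN
          have h5 : 2 * (N : ℝ) / q = (N : ℝ) / q + (N : ℝ) / q := by ring
          linarith
        have h6 : ((D / (q - 1) : ℕ) : ℝ) ≤ (D : ℝ) / ((q : ℝ) - 1) := by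
          have : ((q - 1 : ℕ) : ℝ) = (q : ℝ) - 1 := by
            rw [Nat.cast_sub (by omega)]; simp
          rw [← this]
          exact Nat.cast_div_le
        have h7 : (0 : ℝ) < (q : ℝ) - 1 := by linarith
        calc ((N / q + 1 : ℕ) : ℝ) * ((D / (q - 1) : ℕ) : ℝ)
            ≤ (2 * N / q) * ((D : ℝ) / ((q : ℝ) - 1)) := by
              apply mul_le_mul h2 h6 (by positivity) (by positivity)
          _ = 2 * D * N * (1 / ((q : ℝ) * ((q : ℝ) - 1))) := by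
              field_simp
      have hnn : (0 : ℝ) ≤ 2 * D * N * (1 / ((q : ℝ) * ((q : ℝ) - 1))) := by
        have h7 : (0 : ℝ) < (q : ℝ) - 1 := by linarith
        positivity
      calc (((Ioc 0 N).filter fun n => q ≤ n % q + D / (q - 1)).card : ℝ) * Real.log q
          ≤ (2 * D * N * (1 / ((q : ℝ) * ((q : ℝ) - 1)))) * Real.log (D + 1) :=
            mul_le_mul hcard hlogq hlogq0 hnn
        _ = _ := by ring
    · have h0 : (∑ n ∈ Ioc 0 N, if (q.Prime ∧ D < q * (q - 1) ∧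
          q ≤ n % q + D / (q - 1)) then Real.log q else 0) = 0 := by
        apply Finset.sum_eq_zero
        intro n _
        rw [if_neg]
        exact fun h => hc h.2.1
      rw [h0]
      have hq2 : (2 : ℝ) ≤ q := by exact_mod_cast hq.1
      have h7 : (0 : ℝ) < (q : ℝ) - 1 := by linarith
      split_ifs
      · positivity
      · exact le_rfl
  refine (Finset.sum_le_sum hterm).trans ?_
  rw [← Finset.sum_filter]
  have hset : (Icc 2 (D + 1)).filter (fun q => q0 ≤ q) ⊆ Ico q0 (D + 2) := by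
    intro q hq
    rw [mem_filter, mem_Icc] at hq
    rw [mem_Ico]
    omega
  have hsub : ∑ q ∈ (Icc 2 (D + 1)).filter (fun q => q0 ≤ q),
      2 * D * N * Real.log (D + 1) * (1 / ((q : ℝ) * ((q : ℝ) - 1))) ≤
      ∑ q ∈ Ico q0 (D + 2), 2 * D * N * Real.log (D + 1) * (1 / ((q : ℝ) * ((q : ℝ) - 1))) := by
    apply Finset.sum_le_sum_of_subset_of_nonneg hset
    intro q hq _
    rw [mem_Ico] at hq
    have hq2 : (2 : ℝ) ≤ q := by exact_mod_cast h2q0.trans hq.1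
    have h7 : (0 : ℝ) < (q : ℝ) - 1 := by linarith
    positivity
  refine hsub.trans ?_
  rw [← Finset.mul_sum, tele q0 h2q0 (D + 2) (by omega)]
  have hq0r : (2 : ℝ) ≤ q0 := by exact_mod_cast h2q0
  have h8 : 1 / ((q0 : ℝ) - 1) - 1 / (((D + 2 : ℕ) : ℝ) - 1) ≤ 2 / √(D : ℝ) := by
    have h9 : 1 / ((q0 : ℝ) - 1) ≤ 2 / √(D : ℝ) := by
      have hs : 0 < √(D : ℝ) := Real.sqrt_pos.mpr (by linarith)
      rw [div_le_div_iff₀ (by linarith) hs]
      linarith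
    have h10 : 0 ≤ 1 / (((D + 2 : ℕ) : ℝ) - 1) := by
      push_cast
      apply div_nonneg zero_le_one
      linarith
    linarith
  have hs : 0 < √(D : ℝ) := Real.sqrt_pos.mpr (by linarith)
  calc 2 * D * N * Real.log (D + 1) * (1 / ((q0 : ℝ) - 1) - 1 / (((D + 2 : ℕ) : ℝ) - 1))
      ≤ 2 * D * N * Real.log (D + 1) * (2 / √(D : ℝ)) := by
        apply mul_le_mul_of_nonneg_left h8 (by positivity)
    _ = 4 * N * √(D : ℝ) * Real.log (D + 1) := by
        have hDs : (D : ℝ) = √(D : ℝ) * √(D : ℝ) := (Real.mul_self_sqrt (by linarith)).symm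
        have : (2 : ℝ) * D * N * Real.log (D + 1) * (2 / √(D : ℝ)) =
            4 * N * Real.log (D + 1) * ((D : ℝ) / √(D : ℝ)) := by ring
        rw [this]
        have h11 : (D : ℝ) / √(D : ℝ) = √(D : ℝ) := by
          rw [div_eq_iff hs.ne']; exact hDs
        rw [h11]; ring

/-- the exceptional set for one `D`. -/
private theorem one (N D : ℕ) (hD : 1 ≤ D) (hDN : D + 1 ≤ N) :
    (((Ioc 0 N).filter fun n => (D : ℝ) ^ (3 / 4 : ℝ) < XS n D).card : ℝ) ≤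
      128 * N * (D : ℝ) ^ (-(3 / 16) : ℝ) := by
  classical
  have hDr : (1 : ℝ) ≤ D := by exact_mod_cast hD
  have hD0 : (0 : ℝ) < D := by linarith
  have hXnn : ∀ n, 0 ≤ XS n D := by
    intro n
    unfold XS
    apply Finset.sum_nonneg
    intro q hq
    rw [mem_filter, mem_Icc] at hq
    apply Real.log_nonneg
    exact_mod_cast (by omega : 1 ≤ q)
  have h1 : (((Ioc 0 N).filter fun n => (D : ℝ) ^ (3 / 4 : ℝ) < XS n D).card : ℝ) *
      (D : ℝ) ^ (3 / 4 : ℝ) ≤ 4 * N * √(D : ℝ) * Real.log (D + 1) := by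
    refine le_trans ?_ (avx N D hD hDN)
    rw [← nsmul_eq_mul, ← Finset.sum_const]
    calc ∑ n ∈ (Ioc 0 N).filter (fun n => (D : ℝ) ^ (3 / 4 : ℝ) < XS n D),
          (D : ℝ) ^ (3 / 4 : ℝ)
        ≤ ∑ n ∈ (Ioc 0 N).filter (fun n => (D : ℝ) ^ (3 / 4 : ℝ) < XS n D), XS n D := by
          apply Finset.sum_le_sum
          intro n hn
          rw [mem_filter] at hn
          exact hn.2.le
      _ ≤ ∑ n ∈ Ioc 0 N, XS n D :=
          Finset.sum_le_sum_of_subset_of_nonneg (Finset.filter_subset _ _) fun n _ _ => hXnn n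
  have h2 : Real.log (D + 1) ≤ 32 * (D : ℝ) ^ (1 / 16 : ℝ) := by
    have h3 : Real.log ((D : ℝ) + 1) ≤ ((D : ℝ) + 1) ^ (1 / 16 : ℝ) / (1 / 16) :=
      Real.log_le_rpow_div (by linarith) (by norm_num)
    have h4 : ((D : ℝ) + 1) ^ (1 / 16 : ℝ) ≤ (2 * (D : ℝ)) ^ (1 / 16 : ℝ) :=
      Real.rpow_le_rpow (by linarith) (by linarith) (by norm_num)
    have h5 : (2 * (D : ℝ)) ^ (1 / 16 : ℝ) = 2 ^ (1 / 16 : ℝ) * (D : ℝ) ^ (1 / 16 : ℝ) :=
      Real.mul_rpow (by norm_num) hD0.le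
    have h6 : (2 : ℝ) ^ (1 / 16 : ℝ) ≤ 2 := by
      calc (2 : ℝ) ^ (1 / 16 : ℝ) ≤ 2 ^ (1 : ℝ) :=
            Real.rpow_le_rpow_of_exponent_le (by norm_num) (by norm_num)
        _ = 2 := Real.rpow_one 2
    have h7 : 0 ≤ (D : ℝ) ^ (1 / 16 : ℝ) := by positivity
    calc Real.log (D + 1) ≤ 16 * ((D : ℝ) + 1) ^ (1 / 16 : ℝ) := by linarith
      _ ≤ 16 * (2 ^ (1 / 16 : ℝ) * (D : ℝ) ^ (1 / 16 : ℝ)) := by rw [← h5]; linarith
      _ ≤ 32 * (D : ℝ) ^ (1 / 16 : ℝ) := by nlinarith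
  have h8 : (((Ioc 0 N).filter fun n => (D : ℝ) ^ (3 / 4 : ℝ) < XS n D).card : ℝ) *
      (D : ℝ) ^ (3 / 4 : ℝ) ≤ 128 * N * ((D : ℝ) ^ (1 / 2 : ℝ) * (D : ℝ) ^ (1 / 16 : ℝ)) := by
    refine h1.trans ?_
    rw [Real.sqrt_eq_rpow]
    have : 4 * (N : ℝ) * (D : ℝ) ^ (1 / 2 : ℝ) * Real.log (D + 1) ≤
        4 * (N : ℝ) * (D : ℝ) ^ (1 / 2 : ℝ) * (32 * (D : ℝ) ^ (1 / 16 : ℝ)) := by
      apply mul_le_mul_of_nonneg_left h2 (by positivity)
    refine this.trans (le_of_eq ?_)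
    ring
  have hpos : (0 : ℝ) < (D : ℝ) ^ (3 / 4 : ℝ) := by positivity
  rw [← le_div_iff₀ hpos] at h8
  refine h8.trans (le_of_eq ?_)
  rw [← Real.rpow_add hD0, mul_div_assoc, ← Real.rpow_sub hD0]
  norm_num

open Classical in
theorem typ (ε : ℝ) (hε : 0 < ε) : ∃ N0 : ℕ, ∀ N : ℕ, N0 ≤ N →
    (((Ioc 0 N).filter fun n => ∃ i : ℕ, Real.log N ^ 8 ≤ 2 ^ i ∧ (2 : ℝ) ^ i ≤ √(N : ℝ) ∧
      ((2 : ℝ) ^ i) ^ (3 / 4 : ℝ) < XS n (2 ^ i)).card : ℝ) ≤ ε * N := by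
  have hlim : ∀ᶠ N : ℕ in Filter.atTop, (512 / ε) ^ 2 + 2 ≤ Real.log N :=
    (Real.tendsto_log_atTop.comp tendsto_natCast_atTop_atTop).eventually_ge_atTop _
  obtain ⟨N0, hN0⟩ := Filter.eventually_atTop.mp hlim
  refine ⟨max N0 16, fun N hN => ?_⟩
  have hlogN := hN0 N ((le_max_left _ _).trans hN)
  have hN16 : 16 ≤ N := (le_max_right _ _).trans hN
  have hNr : (16 : ℝ) ≤ N := by exact_mod_cast hN16
  have hl2 : 2 ≤ Real.log N := by nlinarith [sq_nonneg (512 / ε)]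
  set K := Nat.log 2 N + 1 with hK
  have hsub : ((Ioc 0 N).filter fun n => ∃ i : ℕ, Real.log N ^ 8 ≤ 2 ^ i ∧
      (2 : ℝ) ^ i ≤ √(N : ℝ) ∧ ((2 : ℝ) ^ i) ^ (3 / 4 : ℝ) < XS n (2 ^ i)) ⊆
      ((range K).filter fun i => Real.log N ^ 8 ≤ 2 ^ i ∧ (2 : ℝ) ^ i ≤ √(N : ℝ)).biUnion
        fun i => (Ioc 0 N).filter fun n => (((2 ^ i : ℕ)) : ℝ) ^ (3 / 4 : ℝ) < XS n (2 ^ i) := by
    intro n hn
    rw [mem_filter] at hn
    obtain ⟨hn1, i, hi1, hi2, hi3⟩ := hn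
    rw [mem_biUnion]
    refine ⟨i, ?_, ?_⟩
    · rw [mem_filter, mem_range]
      refine ⟨?_, hi1, hi2⟩
      have h1 : (2 : ℝ) ^ i ≤ N := by
        refine hi2.trans ?_
        rw [Real.sqrt_le_left (by linarith)]
        nlinarith
      have h2 : 2 ^ i ≤ N := by exact_mod_cast h1
      have h3 : i ≤ Nat.log 2 N := Nat.le_log_of_pow_le (by norm_num) h2
      omega
    · rw [mem_filter]
      refine ⟨hn1, ?_⟩
      push_cast
      exact hi3
  have hcard : (((Ioc 0 N).filter fun n => ∃ i : ℕ, Real.log N ^ 8 ≤ 2 ^ i ∧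
      (2 : ℝ) ^ i ≤ √(N : ℝ) ∧ ((2 : ℝ) ^ i) ^ (3 / 4 : ℝ) < XS n (2 ^ i)).card : ℝ) ≤
      ∑ i ∈ (range K).filter (fun i => Real.log N ^ 8 ≤ 2 ^ i ∧ (2 : ℝ) ^ i ≤ √(N : ℝ)),
        (((Ioc 0 N).filter fun n => (((2 ^ i : ℕ)) : ℝ) ^ (3 / 4 : ℝ) < XS n (2 ^ i)).card : ℝ) := by
    have := (Finset.card_le_card hsub).trans Finset.card_biUnion_le
    exact_mod_cast this
  refine hcard.trans ?_
  have hterm : ∀ i ∈ (range K).filter (fun i => Real.log N ^ 8 ≤ 2 ^ i ∧ (2 : ℝ) ^ i ≤ √(N : ℝ)),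
      (((Ioc 0 N).filter fun n => (((2 ^ i : ℕ)) : ℝ) ^ (3 / 4 : ℝ) < XS n (2 ^ i)).card : ℝ) ≤
        128 * N * (Real.log N) ^ (-(3 / 2) : ℝ) := by
    intro i hi
    rw [mem_filter] at hi
    obtain ⟨_, hi1, hi2⟩ := hi
    have hDN : 2 ^ i + 1 ≤ N := by
      have h1 : (2 : ℝ) ^ i + 1 ≤ N := by
        have h2 : √(N : ℝ) + 1 ≤ N := by
          have h3 : √(N : ℝ) ≤ (N : ℝ) - 1 := by
            rw [Real.sqrt_le_left (by linarith)]
            nlinarith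
          linarith
        linarith
      exact_mod_cast h1
    refine (one N (2 ^ i) Nat.one_le_two_pow hDN).trans ?_
    apply mul_le_mul_of_nonneg_left _ (by positivity)
    have h4 : ((Real.log N) ^ 8) ^ (-(3 / 16) : ℝ) = (Real.log N) ^ (-(3 / 2) : ℝ) := by
      rw [← Real.rpow_natCast, ← Real.rpow_mul (by linarith)]
      norm_num
    rw [← h4]
    apply Real.rpow_le_rpow_of_nonpos (by positivity) _ (by norm_num)
    push_cast
    exact hi1
  refine (Finset.sum_le_sum hterm).trans ?_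
  rw [Finset.sum_const, nsmul_eq_mul]
  have hKc : ((((range K).filter (fun i => Real.log N ^ 8 ≤ 2 ^ i ∧
      (2 : ℝ) ^ i ≤ √(N : ℝ))).card : ℕ) : ℝ) ≤ 4 * Real.log N := by
    have h1 : ((((range K).filter (fun i => Real.log N ^ 8 ≤ 2 ^ i ∧
      (2 : ℝ) ^ i ≤ √(N : ℝ))).card : ℕ) : ℝ) ≤ (K : ℝ) := by
      have := Finset.card_filter_le (range K) (fun i => Real.log N ^ 8 ≤ 2 ^ i ∧
        (2 : ℝ) ^ i ≤ √(N : ℝ))
      rw [card_range] at this
      exact_mod_cast this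
    refine h1.trans ?_
    have h2 : ((Nat.log 2 N : ℕ) : ℝ) ≤ Real.log N / Real.log 2 := by
      have h3 : 2 ^ (Nat.log 2 N) ≤ N := Nat.pow_log_le_self 2 (by omega)
      have h4 : ((2 : ℝ) ^ (Nat.log 2 N)) ≤ N := by exact_mod_cast h3
      have h5 := Real.log_le_log (by positivity) h4
      rw [Real.log_pow] at h5
      rw [le_div_iff₀ (Real.log_pos (by norm_num))]
      exact h5
    have h6 : Real.log N / Real.log 2 ≤ 2 * Real.log N := by
      have h7 : (1 / 2 : ℝ) ≤ Real.log 2 := by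
        have := Real.log_two_gt_d9
        linarith
      rw [div_le_iff₀ (Real.log_pos (by norm_num))]
      nlinarith
    rw [hK]
    push_cast
    linarith
  have hlpos : 0 < Real.log N := by linarith
  calc ((((range K).filter (fun i => Real.log N ^ 8 ≤ 2 ^ i ∧
      (2 : ℝ) ^ i ≤ √(N : ℝ))).card : ℕ) : ℝ) * (128 * N * (Real.log N) ^ (-(3 / 2) : ℝ))
      ≤ (4 * Real.log N) * (128 * N * (Real.log N) ^ (-(3 / 2) : ℝ)) := by
        apply mul_le_mul_of_nonneg_right hKc (by positivity)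
    _ = 512 * (Real.log N) ^ (-(1 / 2) : ℝ) * N := by
        have h8 : Real.log N * (Real.log N) ^ (-(3 / 2) : ℝ) = (Real.log N) ^ (-(1 / 2) : ℝ) := by
          nth_rewrite 1 [← Real.rpow_one (Real.log N)]
          rw [← Real.rpow_add hlpos]
          norm_num
        rw [← h8]; ring
    _ ≤ ε * N := by
        apply mul_le_mul_of_nonneg_right _ (by positivity)
        rw [Real.rpow_neg hlpos.le, ← Real.sqrt_eq_rpow]
        have h9 : 512 / ε ≤ √(Real.log N) := by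
          apply Real.le_sqrt_of_sq_le
          linarith
        have h10 : 0 < √(Real.log N) := Real.sqrt_pos.mpr hlpos
        rw [← div_eq_mul_inv, div_le_iff₀ h10]
        rw [div_le_iff₀ hε] at h9
        linarith

open Classical in
theorem typ2 (ε : ℝ) (hε : 0 < ε) : ∃ N0 : ℕ, ∀ N : ℕ, N0 ≤ N →
    (((Ioc 0 N).filter fun n => ∃ h : ℤ[X], Fac n h ∧ Real.log N ^ 8 ≤ h.natDegree ∧
      (h.natDegree : ℝ) ≤ √(N : ℝ) / 2 ∧
      4 * (h.natDegree : ℝ) ^ (3 / 4 : ℝ) < Real.log |(h.leadingCoeff : ℝ)|).card : ℝ) ≤ ε * N := by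
  obtain ⟨N1, hN1⟩ := typ ε hε
  -- large D
  have hlog : ∀ᶠ x : ℝ in Filter.atTop, Real.log (2 * x + 1) ≤ x ^ (1 / 4 : ℝ) := by
    have h1 : (fun x : ℝ => Real.log x) =o[Filter.atTop] fun x : ℝ => x ^ (1 / 4 : ℝ) :=
      isLittleO_log_rpow_atTop (by norm_num)
    have h2 := h1.bound (show (0 : ℝ) < 1 / 3 by norm_num)
    have h3 : Filter.Tendsto (fun x : ℝ => 2 * x + 1) Filter.atTop Filter.atTop := by
      apply Filter.tendsto_atTop_add_const_right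
      exact Filter.tendsto_id.const_mul_atTop (by norm_num)
    have h4 := h3.eventually h2
    filter_upwards [h4, Filter.eventually_ge_atTop (1 : ℝ)] with x hx hx1
    have h5 : 0 ≤ Real.log (2 * x + 1) := Real.log_nonneg (by linarith)
    rw [Real.norm_of_nonneg h5, Real.norm_of_nonneg (by positivity)] at hx
    refine hx.trans ?_
    have h6 : (2 * x + 1) ^ (1 / 4 : ℝ) ≤ (3 * x) ^ (1 / 4 : ℝ) :=
      Real.rpow_le_rpow (by linarith) (by linarith) (by norm_num)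
    have h7 : (3 * x) ^ (1 / 4 : ℝ) = 3 ^ (1 / 4 : ℝ) * x ^ (1 / 4 : ℝ) :=
      Real.mul_rpow (by norm_num) (by linarith)
    have h8 : (3 : ℝ) ^ (1 / 4 : ℝ) ≤ 3 := by
      calc (3 : ℝ) ^ (1 / 4 : ℝ) ≤ 3 ^ (1 : ℝ) :=
            Real.rpow_le_rpow_of_exponent_le (by norm_num) (by norm_num)
        _ = 3 := Real.rpow_one 3
    have h9 : 0 ≤ x ^ (1 / 4 : ℝ) := by positivity
    calc 1 / 3 * (2 * x + 1) ^ (1 / 4 : ℝ) ≤ 1 / 3 * (3 ^ (1 / 4 : ℝ) * x ^ (1 / 4 : ℝ)) := by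
          rw [← h7]; linarith
      _ ≤ x ^ (1 / 4 : ℝ) := by nlinarith
  obtain ⟨x0, hx0⟩ := Filter.eventually_atTop.mp hlog
  have hlim : ∀ᶠ N : ℕ in Filter.atTop, max x0 2 ≤ Real.log N :=
    (Real.tendsto_log_atTop.comp tendsto_natCast_atTop_atTop).eventually_ge_atTop _
  obtain ⟨N2, hN2⟩ := Filter.eventually_atTop.mp hlim
  refine ⟨max N1 N2, fun N hN => ?_⟩
  refine le_trans ?_ (hN1 N ((le_max_left _ _).trans hN))
  have hl := hN2 N ((le_max_right _ _).trans hN)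
  have hlx : x0 ≤ Real.log N := (le_max_left _ _).trans hl
  have hl2 : 2 ≤ Real.log N := (le_max_right _ _).trans hl
  rw [Nat.cast_le]
  apply Finset.card_le_card
  intro n hn
  rw [mem_filter] at hn ⊢
  obtain ⟨hn1, h, hf, hD1, hD2, hD3⟩ := hn
  refine ⟨hn1, ?_⟩
  set D := h.natDegree with hDdef
  have hl8 : Real.log N ≤ Real.log N ^ 8 := by
    have : (1 : ℝ) ≤ Real.log N ^ 7 := one_le_pow₀ (by linarith)
    calc Real.log N = Real.log N * 1 := by ring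
      _ ≤ Real.log N * Real.log N ^ 7 := by
        apply mul_le_mul_of_nonneg_left this (by linarith)
      _ = Real.log N ^ 8 := by ring
  have hDx : x0 ≤ (D : ℝ) := hlx.trans (hl8.trans hD1)
  have hD2' : (2 : ℝ) ≤ (D : ℝ) := hl2.trans (hl8.trans hD1)
  have hD2n : 2 ≤ D := by exact_mod_cast hD2'
  set i := Nat.clog 2 D with hi
  have hDi : D ≤ 2 ^ i := Nat.le_pow_clog (by norm_num) D
  have hiD : 2 ^ i ≤ 2 * D := by
    have h1 : 2 ^ i.pred < D := Nat.pow_pred_clog_lt_self (by norm_num) (by omega)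
    have h2 : i ≠ 0 := by
      intro h0
      rw [h0] at hDi
      omega
    obtain ⟨j, hj⟩ := Nat.exists_eq_succ_of_ne_zero h2
    rw [hj, Nat.pred_succ] at h1
    rw [hj, pow_succ]
    omega
  have hDir : (D : ℝ) ≤ 2 ^ i := by exact_mod_cast hDi
  have hiDr : (2 : ℝ) ^ i ≤ 2 * D := by exact_mod_cast hiD
  refine ⟨i, hD1.trans hDir, by linarith, ?_⟩
  by_contra hcon
  push Not at hcon
  have hcb := cbd n h hf (2 ^ i) hDi
  have hsq : ((Nat.sqrt (2 ^ i) : ℕ) : ℝ) ≤ √(2 * (D : ℝ)) := by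
    apply Real.le_sqrt_of_sq_le
    have h1 : Nat.sqrt (2 ^ i) ^ 2 ≤ 2 ^ i := Nat.sqrt_le' _
    have h2 : ((Nat.sqrt (2 ^ i) : ℕ) : ℝ) ^ 2 ≤ 2 ^ i := by exact_mod_cast h1
    linarith
  have hlg : Real.log (((2 ^ i : ℕ) : ℝ) + 1) ≤ (D : ℝ) ^ (1 / 4 : ℝ) := by
    refine le_trans ?_ (hx0 D hDx)
    apply Real.log_le_log (by positivity)
    push_cast
    linarith
  have hlg0 : 0 ≤ Real.log (((2 ^ i : ℕ) : ℝ) + 1) := by
    apply Real.log_nonneg
    have : (0 : ℝ) ≤ ((2 ^ i : ℕ) : ℝ) := Nat.cast_nonneg _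
    linarith
  have hD0 : (0 : ℝ) < D := by linarith
  have h34 : ((2 : ℝ) ^ i) ^ (3 / 4 : ℝ) ≤ 2 * (D : ℝ) ^ (3 / 4 : ℝ) := by
    calc ((2 : ℝ) ^ i) ^ (3 / 4 : ℝ) ≤ (2 * (D : ℝ)) ^ (3 / 4 : ℝ) :=
          Real.rpow_le_rpow (by positivity) hiDr (by norm_num)
      _ = 2 ^ (3 / 4 : ℝ) * (D : ℝ) ^ (3 / 4 : ℝ) := Real.mul_rpow (by norm_num) hD0.le
      _ ≤ 2 * (D : ℝ) ^ (3 / 4 : ℝ) := by
          apply mul_le_mul_of_nonneg_right _ (by positivity)
          calc (2 : ℝ) ^ (3 / 4 : ℝ) ≤ 2 ^ (1 : ℝ) :=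
                Real.rpow_le_rpow_of_exponent_le (by norm_num) (by norm_num)
            _ = 2 := Real.rpow_one 2
  have hs2 : √(2 * (D : ℝ)) ≤ 2 * (D : ℝ) ^ (1 / 2 : ℝ) := by
    rw [← Real.sqrt_eq_rpow, Real.sqrt_le_left (by positivity), mul_pow,
      Real.sq_sqrt hD0.le]
    linarith
  have hprod : ((Nat.sqrt (2 ^ i) : ℕ) : ℝ) * Real.log (((2 ^ i : ℕ) : ℝ) + 1) ≤
      2 * (D : ℝ) ^ (3 / 4 : ℝ) := by
    calc ((Nat.sqrt (2 ^ i) : ℕ) : ℝ) * Real.log (((2 ^ i : ℕ) : ℝ) + 1)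
        ≤ (2 * (D : ℝ) ^ (1 / 2 : ℝ)) * (D : ℝ) ^ (1 / 4 : ℝ) :=
          mul_le_mul (hsq.trans hs2) hlg hlg0 (by positivity)
      _ = 2 * (D : ℝ) ^ (3 / 4 : ℝ) := by
          rw [mul_assoc, ← Real.rpow_add hD0]
          norm_num
  linarith

end Pool.Agent.Bern3
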