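import Mathlib
import Pool.Agent.Bern3.Defs

/-!
# HK-Uni: the union bound over the dyadic intervals

`Cn N n x y` is an abstract count (monotone in the interval), `w N h` the guaranteed density.

PLAN. Exceptional set `B N` = union over all `i`, `j` with `h = 2 ^ i`, `lo N ≤ h`, `x = j h`,
`j ≥ 1`, `x ≤ h ^ (1 + σ)`, `x + h ≤ hi N`, of the sets in `hyp`. For fixed `h` there are at most `h ^ σ + 1 ≤
2 h ^ σ` values `j`, so `card (B N) ≤ ∑_{i, 2 ^ i ≥ lo N} 2 N (2 ^ i) ^ (σ - c')`; as `σ ≤ c' / 2` this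
is `≤ 2 N ∑ (2 ^ i) ^ (- c'/2) ≤ C(c') N (lo N) ^ (-c'/2) ≤ ε N` for `N` large (`lo N → ∞`; only
`i ≤ log2 (hi N) ≤ log2 N` occur, finite union: `Finset.card_biUnion_le`; geometric series:
`(2^i)^(-c'/2) ≤ (lo N)^(-c'/2) * r^(i - i0)`, `r = 2 ^ (-c'/2)`, or use that
`(2^i)^(-c'/4)` is summable and `(2^i)^(-c'/2) ≤ (lo N)^(-c'/4) (2^i)^(-c'/4)`).

If `n ∉ B N` and `x < y` satisfy the conditions: `ℓ = y - x ≥ 8 lo N`; choose `i` with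
`2 ^ i ≤ ℓ / 2 < 2 ^ (i + 1)` (`Nat.log 2 (ℓ / 2)`), `h = 2 ^ i ≥ ℓ / 4 ≥ lo N`, `j = ⌈x / h⌉`, `x' = j h`,
`x ≤ x' < x + h`, `h ≤ ℓ ≤ x ≤ x'` (from `y ≤ 2 x`), `x' + h ≤ x + 2 h ≤ y ≤ hi N`, and `x' ≤ x + h ≤ (ℓ / 8) ^ (1 + σ) + h ≤
(h / 2) ^ (1 + σ) + h ≤ h ^ (1 + σ)` because `h ^ σ ≥ 2` (`h ≥ lo N` is large). So
`Cn N n x y ≥ Cn N n x' (x' + h) ≥ w N h ≥ w N (ℓ / 4)` (all monotone).
-/

namespace Pool.Agent.Bern3

open Polynomial Finset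

/-- the geometric series over the dyadic scales above `L` -/
private theorem uni_geo (c L : ℝ) (hc : 0 < c) (hL : 1 ≤ L) (M : ℕ) :
    ∑ i ∈ (range M).filter (fun i : ℕ => L ≤ (2 : ℝ) ^ i), ((2 : ℝ) ^ i) ^ (-(c / 2)) ≤
      L ^ (-(c / 4)) * (1 - (2 : ℝ) ^ (-(c / 4)))⁻¹ := by
  have hr1 : (2 : ℝ) ^ (-(c / 4)) < 1 := by
    apply Real.rpow_lt_one_of_one_lt_of_neg (by norm_num) (by linarith)
  have hr0 : 0 ≤ (2 : ℝ) ^ (-(c / 4)) := by positivity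
  have h1 : ∀ i ∈ (range M).filter (fun i : ℕ => L ≤ (2 : ℝ) ^ i),
      ((2 : ℝ) ^ i) ^ (-(c / 2)) ≤ L ^ (-(c / 4)) * ((2 : ℝ) ^ (-(c / 4))) ^ i := by
    intro i hi
    have hi' : L ≤ (2 : ℝ) ^ i := (mem_filter.mp hi).2
    have e1 : ((2 : ℝ) ^ i) ^ (-(c / 2)) = ((2 : ℝ) ^ i) ^ (-(c / 4)) * ((2 : ℝ) ^ i) ^ (-(c / 4)) := by
      rw [← Real.rpow_add (by positivity)]
      congr 1
      ring
    have e2 : ((2 : ℝ) ^ i) ^ (-(c / 4)) = ((2 : ℝ) ^ (-(c / 4))) ^ i := by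
      rw [← Real.rpow_natCast, ← Real.rpow_mul (by norm_num), ← Real.rpow_natCast,
        ← Real.rpow_mul (by norm_num)]
      congr 1
      ring
    have e3 : ((2 : ℝ) ^ i) ^ (-(c / 4)) ≤ L ^ (-(c / 4)) :=
      Real.rpow_le_rpow_of_nonpos (by linarith) hi' (by linarith)
    rw [e1, ← e2]
    exact mul_le_mul_of_nonneg_right e3 (by positivity)
  refine le_trans (sum_le_sum h1) ?_
  rw [← mul_sum]
  apply mul_le_mul_of_nonneg_left _ (by positivity)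
  refine le_trans (sum_le_sum_of_subset_of_nonneg (filter_subset _ _)
    (fun i _ _ => by positivity)) ?_
  have := (summable_geometric_of_lt_one hr0 hr1).sum_le_tsum (range M) (fun i _ => by positivity)
  rw [tsum_geometric_of_lt_one hr0 hr1] at this
  exact this

/-- choice of the dyadic interval inside `(x, y]` -/
private theorem uni_dy (x y : ℕ) (L σ : ℝ) (hσ : 0 < σ) (hL : 4 ≤ L) (hL2 : 2 ≤ L ^ σ)
    (hxy : x < y) (hy2 : y ≤ 2 * x) (hl : 8 * L ≤ (y : ℝ) - x)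
    (hx : (x : ℝ) ≤ (((y : ℝ) - x) / 8) ^ (1 + σ)) :
    ∃ i j : ℕ, L ≤ (2 : ℝ) ^ i ∧ 1 ≤ j ∧ ((j * 2 ^ i : ℕ) : ℝ) ≤ ((2 : ℝ) ^ i) ^ (1 + σ) ∧
      x ≤ j * 2 ^ i ∧ j * 2 ^ i + 2 ^ i ≤ y ∧ 1 ≤ ((y : ℝ) - x) / 4 ∧
      ((y : ℝ) - x) / 4 ≤ (2 : ℝ) ^ i := by
  obtain ⟨l, rfl⟩ := Nat.exists_eq_add_of_lt hxy
  set m : ℕ := l + 1 with hm
  have hm' : x + l + 1 = x + m := by omega
  rw [hm'] at hl hx hy2 ⊢
  have hcast : ((x + m : ℕ) : ℝ) - x = m := by push_cast; ring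
  rw [hcast] at hl hx ⊢
  have hm32 : (32 : ℝ) ≤ m := by linarith
  have hm32' : 32 ≤ m := by exact_mod_cast hm32
  have hne : m / 2 ≠ 0 := by omega
  set i := Nat.log 2 (m / 2) with hi
  have h1 : 2 ^ i ≤ m / 2 := Nat.pow_log_le_self 2 hne
  have h2 : m / 2 < 2 ^ (i + 1) := Nat.lt_pow_succ_log_self (by norm_num) _
  have h3 : m < 4 * 2 ^ i := by
    rw [pow_succ] at h2
    omega
  have h4 : 2 * 2 ^ i ≤ m := by omega
  have h3' : (m : ℝ) < 4 * (2 : ℝ) ^ i := by exact_mod_cast h3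
  have hpos : 0 < 2 ^ i := by positivity
  set h : ℕ := 2 ^ i with hh
  have hhR : (h : ℝ) = (2 : ℝ) ^ i := by rw [hh]; push_cast; ring
  set j := (x + h - 1) / h with hj
  have hdm := Nat.div_add_mod (x + h - 1) h
  have hml := Nat.mod_lt (x + h - 1) hpos
  rw [← hj] at hdm
  have hjx : x ≤ j * h := by
    have : h * j = j * h := mul_comm _ _
    omega
  have hjx2 : j * h < x + h := by
    have : h * j = j * h := mul_comm _ _
    omega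
  have hL' : L ≤ (2 : ℝ) ^ i := by
    have : 8 * L < 4 * (2 : ℝ) ^ i := by linarith
    linarith
  have hfin : j * h + h ≤ x + m := by
    have hh4 : 2 * h ≤ m := h4
    clear_value j h
    omega
  have hxm : m ≤ x := by
    clear hdm hml hj hh
    omega
  refine ⟨i, j, hL', ?_, ?_, hjx, hfin, by linarith, by linarith⟩
  · by_contra hj0
    have hj1 : j = 0 := Nat.lt_one_iff.mp (not_le.mp hj0)
    rw [hj1, Nat.zero_mul] at hjx
    clear_value j h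
    omega
  · have e1 : ((j * h : ℕ) : ℝ) ≤ x + h := by exact_mod_cast hjx2.le
    refine le_trans e1 ?_
    have hhp : (0 : ℝ) < h := by exact_mod_cast hpos
    have e2 : ((m : ℝ) / 8) ^ (1 + σ) ≤ ((h : ℝ) / 2) ^ (1 + σ) := by
      apply Real.rpow_le_rpow (by positivity) _ (by linarith)
      rw [hhR]
      linarith
    have e3 : ((h : ℝ) / 2) ^ (1 + σ) ≤ (h : ℝ) ^ (1 + σ) / 2 := by
      rw [Real.div_rpow hhp.le (by norm_num)]
      apply div_le_div_of_nonneg_left (by positivity) (by norm_num)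
      have : (2 : ℝ) ^ (1 : ℝ) ≤ 2 ^ (1 + σ) :=
        Real.rpow_le_rpow_of_exponent_le (by norm_num) (by linarith)
      simpa using this
    have e4 : 2 ≤ (h : ℝ) ^ σ := by
      refine le_trans hL2 (Real.rpow_le_rpow (by linarith) ?_ hσ.le)
      rw [hhR]
      exact hL'
    have e5 : (h : ℝ) ^ (1 + σ) = h * (h : ℝ) ^ σ := by
      rw [Real.rpow_add hhp, Real.rpow_one]
    have e6 : (h : ℝ) ≤ (h : ℝ) ^ (1 + σ) / 2 := by
      rw [e5]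
      nlinarith
    rw [← hhR]
    linarith

open Classical in
theorem uni (Cn : ℕ → ℕ → ℕ → ℕ → ℝ) (w : ℕ → ℝ → ℝ) (lo hi : ℕ → ℝ) (c' σ : ℝ) (hc' : 0 < c')
    (hσ : 0 < σ) (hσc : σ ≤ c' / 2)
    (hlo : Filter.Tendsto lo Filter.atTop Filter.atTop) (hhi : ∀ N, hi N ≤ N)
    (hmono : ∀ N n x y x' y', x ≤ x' → y' ≤ y → Cn N n x' y' ≤ Cn N n x y)
    (hwmono : ∀ N, ∀ a b : ℝ, 1 ≤ a → a ≤ b → w N a ≤ w N b)
    (hyp : ∃ N0 : ℕ, ∀ N : ℕ, N0 ≤ N → ∀ x h : ℕ, lo N ≤ h → h ≤ x →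
      (x : ℝ) ≤ (h : ℝ) ^ (1 + σ) → ((x + h : ℕ) : ℝ) ≤ hi N →
      (((Ioc (N / 2) N).filter fun n => Even n ∧ Cn N n x (x + h) < w N h).card : ℝ) ≤
        N * (h : ℝ) ^ (-c'))
    (ε : ℝ) (hε : 0 < ε) : ∃ N0 : ℕ, ∀ N : ℕ, N0 ≤ N →
    (((Ioc (N / 2) N).filter fun n => Even n ∧ ∃ x y : ℕ, x < y ∧ y ≤ 2 * x ∧
      8 * lo N ≤ (y : ℝ) - x ∧
      (x : ℝ) ≤ (((y : ℝ) - x) / 8) ^ (1 + σ) ∧ (y : ℝ) ≤ hi N ∧
      Cn N n x y < w N (((y : ℝ) - x) / 4)).card : ℝ) ≤ ε * N := by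
  obtain ⟨N1, hN1⟩ := hyp
  set r : ℝ := (1 - (2 : ℝ) ^ (-(c' / 4)))⁻¹ with hr
  have hr1 : (2 : ℝ) ^ (-(c' / 4)) < 1 := by
    apply Real.rpow_lt_one_of_one_lt_of_neg (by norm_num) (by linarith)
  have hrpos : 0 < r := inv_pos.mpr (by linarith)
  have t1 : ∀ᶠ N in Filter.atTop, 4 ≤ lo N := hlo.eventually_ge_atTop 4
  have t2 : ∀ᶠ N in Filter.atTop, 2 ≤ (lo N) ^ σ :=
    ((tendsto_rpow_atTop hσ).comp hlo).eventually_ge_atTop 2
  have t3 : ∀ᶠ N in Filter.atTop, (lo N) ^ (-(c' / 4)) < ε / r :=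
    ((tendsto_rpow_neg_atTop (y := c' / 4) (by linarith)).comp hlo).eventually_lt_const
      (by positivity)
  obtain ⟨N2, hN2⟩ := Filter.eventually_atTop.mp (t1.and (t2.and t3))
  refine ⟨max N1 N2, fun N hN => ?_⟩
  have hNN1 : N1 ≤ N := le_trans (le_max_left _ _) hN
  obtain ⟨g1, g2, g3⟩ := hN2 N (le_trans (le_max_right _ _) hN)
  -- the exceptional sets
  set S : ℕ → ℕ → Finset ℕ := fun i j => (Ioc (N / 2) N).filter fun n => Even n ∧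
    Cn N n (j * 2 ^ i) (j * 2 ^ i + 2 ^ i) < w N ((2 ^ i : ℕ) : ℝ) with hS
  set J : ℕ → Finset ℕ := fun i => (Icc 1 ⌊((2 : ℝ) ^ i) ^ σ⌋₊).filter fun j =>
    (((j * 2 ^ i + 2 ^ i : ℕ) : ℝ) ≤ hi N) with hJ
  set I : Finset ℕ := (range (N + 1)).filter (fun i : ℕ => lo N ≤ (2 : ℝ) ^ i) with hI
  have hsub : ((Ioc (N / 2) N).filter fun n => Even n ∧ ∃ x y : ℕ, x < y ∧ y ≤ 2 * x ∧
      8 * lo N ≤ (y : ℝ) - x ∧
      (x : ℝ) ≤ (((y : ℝ) - x) / 8) ^ (1 + σ) ∧ (y : ℝ) ≤ hi N ∧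
      Cn N n x y < w N (((y : ℝ) - x) / 4)) ⊆ I.biUnion fun i => (J i).biUnion fun j => S i j := by
    intro n hn
    obtain ⟨hn1, hn2, x, y, hxy, hy2, hl, hx, hyhi, hC⟩ := mem_filter.mp hn
    obtain ⟨i, j, q1, q2, q3, q4, q5, q6, q7⟩ := uni_dy x y (lo N) σ hσ g1 g2 hxy hy2 hl hx
    have q8 : ((j * 2 ^ i + 2 ^ i : ℕ) : ℝ) ≤ hi N :=
      le_trans (by exact_mod_cast q5) hyhi
    simp only [mem_biUnion]
    refine ⟨i, ?_, j, ?_, ?_⟩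
    · refine mem_filter.mpr ⟨mem_range.mpr ?_, q1⟩
      have a1 : i < 2 ^ i := Nat.lt_two_pow_self
      have a2 : j * 2 ^ i + 2 ^ i ≤ N := by exact_mod_cast le_trans q8 (hhi N)
      omega
    · refine mem_filter.mpr ⟨mem_Icc.mpr ⟨q2, ?_⟩, q8⟩
      apply Nat.le_floor
      have hp : (0 : ℝ) < (2 : ℝ) ^ i := by positivity
      rw [Real.rpow_add hp, Real.rpow_one] at q3
      push_cast at q3
      have : (2 : ℝ) ^ i * j ≤ (2 : ℝ) ^ i * ((2 : ℝ) ^ i) ^ σ := by linarith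
      exact le_of_mul_le_mul_left this hp
    · refine mem_filter.mpr ⟨hn1, hn2, ?_⟩
      have b1 := hmono N n x y (j * 2 ^ i) (j * 2 ^ i + 2 ^ i) q4 q5
      have b2 := hwmono N (((y : ℝ) - x) / 4) ((2 ^ i : ℕ) : ℝ) q6 (by push_cast; exact q7)
      linarith
  have hcard : ∀ i ∈ I, ∀ j ∈ J i, ((S i j).card : ℝ) ≤ N * ((2 : ℝ) ^ i) ^ (-c') := by
    intro i hi j hj
    obtain ⟨hj1, hj2⟩ := mem_filter.mp hj
    obtain ⟨hj3, hj4⟩ := mem_Icc.mp hj1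
    have hlo' : lo N ≤ (2 : ℝ) ^ i := (mem_filter.mp hi).2
    have hp : (0 : ℝ) < (2 : ℝ) ^ i := by positivity
    have hj5 : (j : ℝ) ≤ ((2 : ℝ) ^ i) ^ σ := le_trans (by exact_mod_cast hj4)
      (Nat.floor_le (by positivity))
    have := hN1 N hNN1 (j * 2 ^ i) (2 ^ i) (by push_cast; exact hlo')
      (Nat.le_mul_of_pos_left _ hj3) (by
        push_cast
        rw [Real.rpow_add hp, Real.rpow_one]
        nlinarith) hj2
    refine le_trans this (le_of_eq ?_)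
    push_cast
    rfl
  have hJc : ∀ i ∈ I, ((J i).card : ℝ) ≤ ((2 : ℝ) ^ i) ^ σ := by
    intro i hi
    have a1 : (J i).card ≤ ⌊((2 : ℝ) ^ i) ^ σ⌋₊ := by
      refine le_trans (card_filter_le _ _) ?_
      simp
    exact le_trans (by exact_mod_cast a1) (Nat.floor_le (by positivity))
  have h1 : (((Ioc (N / 2) N).filter fun n => Even n ∧ ∃ x y : ℕ, x < y ∧ y ≤ 2 * x ∧
      8 * lo N ≤ (y : ℝ) - x ∧
      (x : ℝ) ≤ (((y : ℝ) - x) / 8) ^ (1 + σ) ∧ (y : ℝ) ≤ hi N ∧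
      Cn N n x y < w N (((y : ℝ) - x) / 4)).card : ℝ) ≤
      ∑ i ∈ I, ∑ j ∈ J i, ((S i j).card : ℝ) := by
    refine le_trans (Nat.cast_le.mpr (card_le_card hsub)) ?_
    refine le_trans (Nat.cast_le.mpr card_biUnion_le) ?_
    push_cast
    apply sum_le_sum
    intro i _
    refine le_trans (Nat.cast_le.mpr card_biUnion_le) ?_
    push_cast
    exact le_rfl
  refine le_trans h1 ?_
  have h2 : ∑ i ∈ I, ∑ j ∈ J i, ((S i j).card : ℝ) ≤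
      ∑ i ∈ I, (N : ℝ) * ((2 : ℝ) ^ i) ^ (-(c' / 2)) := by
    apply sum_le_sum
    intro i hi
    refine le_trans (sum_le_sum (hcard i hi)) ?_
    rw [sum_const, nsmul_eq_mul]
    have hp1 : (1 : ℝ) ≤ (2 : ℝ) ^ i := one_le_pow₀ (by norm_num)
    have hp : (0 : ℝ) < (2 : ℝ) ^ i := by positivity
    calc ((J i).card : ℝ) * (N * ((2 : ℝ) ^ i) ^ (-c'))
        ≤ ((2 : ℝ) ^ i) ^ σ * (N * ((2 : ℝ) ^ i) ^ (-c')) :=
          mul_le_mul_of_nonneg_right (hJc i hi) (by positivity)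
      _ = N * ((2 : ℝ) ^ i) ^ (σ - c') := by
          rw [sub_eq_add_neg, Real.rpow_add hp]
          ring
      _ ≤ N * ((2 : ℝ) ^ i) ^ (-(c' / 2)) := by
          apply mul_le_mul_of_nonneg_left _ (by positivity)
          exact Real.rpow_le_rpow_of_exponent_le hp1 (by linarith)
  refine le_trans h2 ?_
  rw [← mul_sum]
  have h3 := uni_geo c' (lo N) hc' (by linarith) (N + 1)
  rw [← hI, ← hr] at h3
  have h4 : (lo N) ^ (-(c' / 4)) * r ≤ ε := by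
    have := (lt_div_iff₀ hrpos).mp g3
    exact this.le
  calc (N : ℝ) * ∑ i ∈ I, ((2 : ℝ) ^ i) ^ (-(c' / 2)) ≤ N * ε :=
        mul_le_mul_of_nonneg_left (le_trans h3 h4) (by positivity)
    _ = ε * N := mul_comm _ _

end Pool.Agent.Bern3
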