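import Mathlib
import Pool.Agent.Bern3.As1
import Pool.Agent.Bern3.Cof
import Pool.Agent.Bern3.Typ
import Pool.Agent.Bern3.Ls2
import Pool.Agent.Bern3.Uni

/-!
# HK-Apa: theorem A' (large sieve only)

`lsu`: the union bound `uni` applied to the large sieve bound `ls2`.

`thmAp`: `δ = 1/40`, `ρ = δ / 8`. Exceptional `n`: those of `Pool.Agent.Bern2.st2` (`η = 1/2`), of `typ2` and of
`lsu`. For the other `n` the theorem `as1` with `Q = √N * D ^ ρ`, `κ = c * log D / (8 * log N)` excludes the factor.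
-/

namespace Pool.Agent.Bern3

open Polynomial Finset Pool.Agent.Bern2

private theorem cnt_mono {Q Q' : ℝ} (hQ : Q ≤ Q') (N n : ℕ) {x x' y y' : ℕ} (hx : x ≤ x')
    (hy : y' ≤ y) : Cnt Q N n x' y' ≤ Cnt Q' N n x y := by
  unfold Cnt
  apply Finset.card_le_card
  intro p hp
  rw [mem_filter] at hp ⊢
  obtain ⟨h1, h2, h3, h4, h5, h6⟩ := hp
  exact ⟨h1, h2, h3, h4.trans hQ, lt_of_le_of_lt hx h5, h6.trans hy⟩

open Classical in
theorem lsu (ρ : ℝ) (hρ : 0 < ρ) (hρ1 : ρ ≤ 1 / 20) : ∃ c : ℝ, 0 < c ∧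
    ∀ ε : ℝ, 0 < ε → ∃ N0 : ℕ, ∀ N : ℕ, N0 ≤ N →
    (((Ioc (N / 2) N).filter fun n => Even n ∧ ∃ x y : ℕ, x < y ∧ y ≤ 2 * x ∧
      8 * Real.log N ^ 200 ≤ (y : ℝ) - x ∧
      (x : ℝ) ≤ (((y : ℝ) - x) / 8) ^ (1 + 1 / 20 : ℝ) ∧ y ≤ Nat.sqrt N ∧
      (Cnt (√(N : ℝ) * ((y - x : ℕ) : ℝ) ^ ρ) N n x y : ℝ) <
        c * (((y : ℝ) - x) / 4) * Real.log (((y : ℝ) - x) / 4) / Real.log N).card : ℝ) ≤
      ε * N := by
  obtain ⟨c, hc, N1, h1⟩ := ls2 ρ hρ hρ1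
  refine ⟨c, hc, fun ε hε => ?_⟩
  have hlog : Filter.Tendsto (fun N : ℕ => Real.log N ^ 200) Filter.atTop Filter.atTop :=
    (Filter.tendsto_pow_atTop (by norm_num)).comp
      (Real.tendsto_log_atTop.comp tendsto_natCast_atTop_atTop)
  obtain ⟨N0, h0⟩ := uni (fun N n x y => (Cnt (√(N : ℝ) * ((y - x : ℕ) : ℝ) ^ ρ) N n x y : ℝ))
    (fun N a => c * a * Real.log a / Real.log N) (fun N => Real.log N ^ 200)
    (fun N => (Nat.sqrt N : ℝ)) (1 / 3) (1 / 20) (by norm_num) (by norm_num) (by norm_num) hlog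
    (fun N => by exact_mod_cast Nat.sqrt_le_self N)
    (fun N n x y x' y' hx hy => by
      have h2 : √(N : ℝ) * ((y' - x' : ℕ) : ℝ) ^ ρ ≤ √(N : ℝ) * ((y - x : ℕ) : ℝ) ^ ρ := by
        apply mul_le_mul_of_nonneg_left _ (Real.sqrt_nonneg _)
        apply Real.rpow_le_rpow (by positivity) _ hρ.le
        have : y' - x' ≤ y - x := by omega
        exact_mod_cast this
      exact_mod_cast cnt_mono h2 N n hx hy)
    (fun N a b ha hab => by
      have hl : 0 ≤ Real.log N := Real.log_natCast_nonneg N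
      apply div_le_div_of_nonneg_right _ hl
      have h2 : 0 ≤ Real.log a := Real.log_nonneg ha
      have h3 : Real.log a ≤ Real.log b := Real.log_le_log (by linarith) hab
      exact mul_le_mul (mul_le_mul_of_nonneg_left hab hc.le) h3 h2
        (mul_nonneg hc.le (by linarith)))
    ⟨N1, fun N hN x h hlo hhx hx hxh => by
      have h2 := h1 N hN x h hlo hx (by exact_mod_cast hxh)
      simp only [Nat.add_sub_cancel_left]
      exact h2⟩ ε hε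
  refine ⟨N0, fun N hN => le_trans ?_ (h0 N hN)⟩
  have hsub : ((Ioc (N / 2) N).filter fun n => Even n ∧ ∃ x y : ℕ, x < y ∧ y ≤ 2 * x ∧
      8 * Real.log N ^ 200 ≤ (y : ℝ) - x ∧
      (x : ℝ) ≤ (((y : ℝ) - x) / 8) ^ (1 + 1 / 20 : ℝ) ∧ y ≤ Nat.sqrt N ∧
      (Cnt (√(N : ℝ) * ((y - x : ℕ) : ℝ) ^ ρ) N n x y : ℝ) <
        c * (((y : ℝ) - x) / 4) * Real.log (((y : ℝ) - x) / 4) / Real.log N) ⊆
      ((Ioc (N / 2) N).filter fun n => Even n ∧ ∃ x y : ℕ, x < y ∧ y ≤ 2 * x ∧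
      8 * Real.log N ^ 200 ≤ (y : ℝ) - x ∧
      (x : ℝ) ≤ (((y : ℝ) - x) / 8) ^ (1 + 1 / 20 : ℝ) ∧ (y : ℝ) ≤ (Nat.sqrt N : ℝ) ∧
      (Cnt (√(N : ℝ) * ((y - x : ℕ) : ℝ) ^ ρ) N n x y : ℝ) <
        c * (((y : ℝ) - x) / 4) * Real.log (((y : ℝ) - x) / 4) / Real.log N) := by
    intro n hn
    rw [mem_filter] at hn ⊢
    obtain ⟨g1, g2, x, y, g3, g4, g5, g6, g7, g8⟩ := hn
    exact ⟨g1, g2, x, y, g3, g4, g5, g6, by exact_mod_cast g7, g8⟩
  exact_mod_cast Finset.card_le_card hsub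

open Classical in
theorem thmAp : ∃ C : ℝ, 0 < C ∧ ∀ ε : ℝ, 0 < ε → ∃ N0 : ℕ, ∀ N : ℕ, N0 ≤ N →
    (((Ioc (N / 2) N).filter fun n => Even n ∧ ∃ h : ℤ[X], Fac n h ∧
      Real.exp (C * √(Real.log N)) ≤ h.natDegree ∧ 2 * h.natDegree ≤ n).card : ℝ) ≤ ε * N := by
  obtain ⟨c, hc, hlsu⟩ := lsu (1 / 320) (by norm_num) (by norm_num)
  obtain ⟨D0, has⟩ := as1 (1 / 40) (1 / 20) (by norm_num) (by norm_num) (by norm_num)
  obtain ⟨C, hC⟩ : ∃ C : ℝ, C = 1 + 5600 * 8 / (c * (1 / 40)) := ⟨_, rfl⟩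
  have hK0 : 0 < 5600 * 8 / (c * (1 / 40)) := by positivity
  have hC1 : 1 ≤ C := by linarith
  have hC0 : 0 < C := by linarith
  have hC2 : 5600 * 8 / (c * (1 / 40)) ≤ C ^ 2 := by nlinarith
  refine ⟨C, hC0, fun ε hε => ?_⟩
  obtain ⟨N1, hst⟩ := st2 (1 / 2) (by norm_num)
  obtain ⟨N2, htyp⟩ := typ2 (ε / 4) (by positivity)
  obtain ⟨N3, hls⟩ := hlsu (ε / 4) (by positivity)
  -- large N
  have hs : Filter.Tendsto (fun N : ℕ => √(Real.log N)) Filter.atTop Filter.atTop :=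
    Real.tendsto_sqrt_atTop.comp (Real.tendsto_log_atTop.comp tendsto_natCast_atTop_atTop)
  have ev0 : ∀ᶠ s : ℝ in Filter.atTop, 64 * s ^ 400 ≤ Real.exp (1 / 40 * s) := by
    have h1 := (isLittleO_pow_exp_pos_mul_atTop 400 (b := 1 / 40) (by norm_num)).def
      (c := 1 / 64) (by norm_num)
    filter_upwards [h1, Filter.eventually_ge_atTop 0] with s hs1 hs0
    rw [Real.norm_of_nonneg (by positivity), Real.norm_of_nonneg (Real.exp_pos _).le] at hs1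
    linarith
  have ev1 : ∀ᶠ s : ℝ in Filter.atTop, (D0 : ℝ) ≤ Real.exp s :=
    Real.tendsto_exp_atTop.eventually_ge_atTop _
  have ev2' : ∀ᶠ s : ℝ in Filter.atTop, 8 ≤ Real.exp (1 / 320 * s) :=
    (Real.tendsto_exp_atTop.comp (Filter.tendsto_id.const_mul_atTop (by norm_num))).eventually_ge_atTop
      _
  have ev3 : ∀ᶠ s : ℝ in Filter.atTop, 4 / ε + 1 ≤ s := Filter.eventually_ge_atTop _
  have ev := hs.eventually (ev0.and (ev1.and (ev2'.and ev3)))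
  obtain ⟨N4, h4⟩ := Filter.eventually_atTop.mp ev
  refine ⟨max (max N1 N2) (max (max N3 N4) 100), fun N hN => ?_⟩
  have hNN1 : N1 ≤ N := by omega
  have hNN2 : N2 ≤ N := by omega
  have hNN3 : N3 ≤ N := by omega
  have hNN4 : N4 ≤ N := by omega
  have hN100 : 100 ≤ N := by omega
  obtain ⟨b0, b1, b2, b3⟩ := h4 N hNN4
  obtain ⟨s, hsd⟩ : ∃ s : ℝ, s = √(Real.log N) := ⟨_, rfl⟩
  rw [← hsd] at b0 b1 b2 b3
  have hN0 : (0 : ℝ) < N := by
    have : 0 < N := by omega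
    exact_mod_cast this
  have hlnn : 0 ≤ Real.log N := Real.log_natCast_nonneg N
  have hs2 : s ^ 2 = Real.log N := by rw [hsd]; exact Real.sq_sqrt hlnn
  have h4ε : 0 < 4 / ε := by positivity
  have hs1 : 1 ≤ s := by linarith
  have hs0 : 0 < s := by linarith
  have hlog1 : 1 ≤ Real.log N := by rw [← hs2]; nlinarith
  have hlog0 : 0 < Real.log N := by linarith
  have hlog200 : Real.log N ^ 200 = s ^ 400 := by rw [← hs2, ← pow_mul]
  have hlog8 : Real.log N ^ 8 = s ^ 16 := by rw [← hs2, ← pow_mul]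
  -- the inclusion
  have hsub : ((Ioc (N / 2) N).filter fun n => Even n ∧ ∃ h : ℤ[X], Fac n h ∧
      Real.exp (C * √(Real.log N)) ≤ h.natDegree ∧ 2 * h.natDegree ≤ n) ⊆
      ((Ioc (N / 2) N).filter (fun n => Even n ∧ ¬ cofLE n (1 / 2 * √(N : ℝ)))) ∪
      (((Ioc 0 N).filter fun n => ∃ h : ℤ[X], Fac n h ∧ Real.log N ^ 8 ≤ h.natDegree ∧
        (h.natDegree : ℝ) ≤ √(N : ℝ) / 2 ∧
        4 * (h.natDegree : ℝ) ^ (3 / 4 : ℝ) < Real.log |(h.leadingCoeff : ℝ)|) ∪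
      ((Ioc (N / 2) N).filter fun n => Even n ∧ ∃ x y : ℕ, x < y ∧ y ≤ 2 * x ∧
        8 * Real.log N ^ 200 ≤ (y : ℝ) - x ∧
        (x : ℝ) ≤ (((y : ℝ) - x) / 8) ^ (1 + 1 / 20 : ℝ) ∧ y ≤ Nat.sqrt N ∧
        (Cnt (√(N : ℝ) * ((y - x : ℕ) : ℝ) ^ (1 / 320 : ℝ)) N n x y : ℝ) <
          c * (((y : ℝ) - x) / 4) * Real.log (((y : ℝ) - x) / 4) / Real.log N)) := by
    intro n hn
    rw [mem_filter] at hn
    obtain ⟨hnI, hev, h, hfac, hdeg, h2deg⟩ := hn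
    by_contra hcon
    rw [mem_union, mem_union, not_or, not_or, mem_filter, mem_filter, mem_filter] at hcon
    obtain ⟨c1, c2, c3⟩ := hcon
    have hnI' := mem_Ioc.mp hnI
    have hcof : cofLE n (1 / 2 * √(N : ℝ)) := by
      by_contra hc'
      exact c1 ⟨hnI, hev, hc'⟩
    obtain ⟨D, hD⟩ : ∃ D : ℕ, D = h.natDegree := ⟨_, rfl⟩
    have hDN := cof1 N n hN100 hnI'.1 hnI'.2 hcof h hfac h2deg
    rw [← hD] at hdeg h2deg hDN
    rw [← hsd] at hdeg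
    have hsqN : 0 ≤ √(N : ℝ) := Real.sqrt_nonneg _
    have hDN' : (D : ℝ) ≤ √(N : ℝ) := by linarith
    have hDexp : Real.exp s ≤ D := by
      refine le_trans (Real.exp_le_exp.mpr ?_) hdeg
      nlinarith
    have hDpos : (0 : ℝ) < D := lt_of_lt_of_le (Real.exp_pos _) hDexp
    have hD1 : (1 : ℝ) ≤ D := le_trans (Real.one_le_exp hs0.le) hDexp
    have hDpow : ∀ a : ℝ, 0 ≤ a → Real.exp (a * s) ≤ (D : ℝ) ^ a := by
      intro a ha
      rw [mul_comm, Real.exp_mul]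
      exact Real.rpow_le_rpow (Real.exp_pos _).le hDexp ha
    have hDlog : C * s ≤ Real.log D := by
      rw [Real.le_log_iff_exp_le hDpos]
      exact hdeg
    have hlogD0 : 0 < Real.log D := lt_of_lt_of_le (by positivity) hDlog
    have hDδ : 64 * Real.log N ^ 200 ≤ (D : ℝ) ^ (1 / 40 : ℝ) := by
      rw [hlog200]
      exact b0.trans (hDpow (1 / 40) (by norm_num))
    have hDhalf : 64 * Real.log N ^ 200 ≤ √(D : ℝ) := by
      rw [Real.sqrt_eq_rpow]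
      exact hDδ.trans (Real.rpow_le_rpow_of_exponent_le hD1 (by norm_num))
    have h200 : 1 ≤ Real.log N ^ 200 := one_le_pow₀ hlog1
    -- the leading coefficient
    have hlc : Real.log |(h.leadingCoeff : ℝ)| ≤ 4 * (D : ℝ) ^ (3 / 4 : ℝ) := by
      by_contra hc'
      push Not at hc'
      refine c2 ⟨mem_Ioc.mpr ⟨by omega, hnI'.2⟩, h, hfac, ?_, ?_, ?_⟩
      · rw [← hD, hlog8]
        have e1 : s ^ 16 ≤ s ^ 400 := pow_le_pow_right₀ hs1 (by norm_num)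
        have e2 : (1 : ℝ) / 40 * s ≤ s := by linarith
        have e3 := Real.exp_le_exp.mpr e2
        have e4 : 0 ≤ s ^ 400 := by positivity
        linarith
      · rw [← hD]
        exact hDN
      · rw [← hD]
        exact hc'
    -- the counts
    have hcnt : ∀ x y : ℕ, x < y → y ≤ 2 * x → 8 * Real.log N ^ 200 ≤ (y : ℝ) - x →
        (x : ℝ) ≤ (((y : ℝ) - x) / 8) ^ (1 + 1 / 20 : ℝ) → y ≤ D →
        c * (((y : ℝ) - x) / 4) * Real.log (((y : ℝ) - x) / 4) / Real.log N ≤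
          Cnt (√(N : ℝ) * (D : ℝ) ^ (1 / 320 : ℝ)) N n x y := by
      intro x y hxy hy2 h8 hx hyD
      have hysq : y ≤ Nat.sqrt N := by
        rw [Nat.le_sqrt]
        have e1 : (y : ℝ) ≤ √(N : ℝ) := le_trans (by exact_mod_cast hyD) hDN'
        have e2 : (y : ℝ) * y ≤ N := by
          calc (y : ℝ) * y ≤ √(N : ℝ) * √(N : ℝ) :=
                mul_le_mul e1 e1 (by positivity) hsqN
            _ = N := Real.mul_self_sqrt hN0.le
        exact_mod_cast e2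
      have e3 : c * (((y : ℝ) - x) / 4) * Real.log (((y : ℝ) - x) / 4) / Real.log N ≤
          (Cnt (√(N : ℝ) * ((y - x : ℕ) : ℝ) ^ (1 / 320 : ℝ)) N n x y : ℝ) := by
        by_contra hc'
        push Not at hc'
        exact c3 ⟨hnI, hev, x, y, hxy, hy2, h8, hx, hysq, hc'⟩
      refine e3.trans ?_
      have e4 : √(N : ℝ) * ((y - x : ℕ) : ℝ) ^ (1 / 320 : ℝ) ≤
          √(N : ℝ) * (D : ℝ) ^ (1 / 320 : ℝ) := by
        apply mul_le_mul_of_nonneg_left _ hsqN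
        apply Real.rpow_le_rpow (by positivity) _ (by norm_num)
        have : y - x ≤ D := by omega
        exact_mod_cast this
      exact_mod_cast cnt_mono e4 N n le_rfl le_rfl
    refine has N n D (c * Real.log D / (8 * Real.log N)) (√(N : ℝ) * (D : ℝ) ^ (1 / 320 : ℝ))
      ?_ hDN' hnI'.1 hnI'.2 hev (by positivity) ?_ ?_ ?_ ?_ h hfac hD.symm hlc
    · have : (D0 : ℝ) ≤ D := b1.trans hDexp
      exact_mod_cast this
    · have e1 : (C * s) ^ 2 ≤ Real.log D ^ 2 := pow_le_pow_left₀ (by positivity) hDlog 2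
      rw [mul_pow, hs2] at e1
      have e2 : 5600 * 8 / (c * (1 / 40)) * Real.log N ≤ Real.log D ^ 2 :=
        le_trans (mul_le_mul_of_nonneg_right hC2 hlog0.le) e1
      have e3 : c * Real.log D / (8 * Real.log N) * (1 / 40) * Real.log D =
          c * (1 / 40) * Real.log D ^ 2 / (8 * Real.log N) := by ring
      rw [e3, le_div_iff₀ (by positivity)]
      calc 5600 * (8 * Real.log N) = c * (1 / 40) * (5600 * 8 / (c * (1 / 40)) * Real.log N) := by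
            field_simp
        _ ≤ c * (1 / 40) * Real.log D ^ 2 := mul_le_mul_of_nonneg_left e2 (by positivity)
    · have e1 : 8 ≤ (D : ℝ) ^ (1 / 320 : ℝ) := b2.trans (hDpow (1 / 320) (by norm_num))
      have e2 : (D : ℝ) ^ (1 - 1 / 40 / 4 : ℝ) * (D : ℝ) ^ (1 / 320 : ℝ) =
          (D : ℝ) ^ (1 - 1 / 320 : ℝ) := by
        rw [← Real.rpow_add hDpos]
        norm_num
      have e3 : (D : ℝ) ^ (1 - 1 / 320 : ℝ) * (D : ℝ) ^ (1 / 320 : ℝ) = D := by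
        rw [← Real.rpow_add hDpos]
        norm_num
      have e4 : 0 ≤ (D : ℝ) ^ (1 - 1 / 320 : ℝ) := by positivity
      have e5 : 8 * (D : ℝ) ^ (1 - 1 / 320 : ℝ) ≤ √(N : ℝ) := by
        calc 8 * (D : ℝ) ^ (1 - 1 / 320 : ℝ) ≤
            (D : ℝ) ^ (1 / 320 : ℝ) * (D : ℝ) ^ (1 - 1 / 320 : ℝ) :=
              mul_le_mul_of_nonneg_right e1 e4
          _ = D := by rw [mul_comm, e3]
          _ ≤ _ := hDN'
      calc 8 * (D : ℝ) ^ (1 - 1 / 40 / 4 : ℝ) * (√(N : ℝ) * (D : ℝ) ^ (1 / 320 : ℝ)) =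
          8 * ((D : ℝ) ^ (1 - 1 / 40 / 4 : ℝ) * (D : ℝ) ^ (1 / 320 : ℝ)) * √(N : ℝ) := by ring
        _ = 8 * (D : ℝ) ^ (1 - 1 / 320 : ℝ) * √(N : ℝ) := by rw [e2]
        _ ≤ √(N : ℝ) * √(N : ℝ) := mul_le_mul_of_nonneg_right e5 hsqN
        _ = N := Real.mul_self_sqrt hN0.le
    · intro x y hxy hy2 h8 hx hyD
      have e1 : 8 * Real.log N ^ 200 ≤ (y : ℝ) - x := by linarith
      have e2 : (y : ℝ) ≤ D := by
        refine hyD.trans ?_
        calc (D : ℝ) ^ (1 / 40 : ℝ) ≤ (D : ℝ) ^ (1 : ℝ) :=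
              Real.rpow_le_rpow_of_exponent_le hD1 (by norm_num)
          _ = D := Real.rpow_one _
      have e3 := hcnt x y hxy hy2 e1 hx (by exact_mod_cast e2)
      have e4 : 1 < ((y : ℝ) - x) / 4 := by linarith
      have e5 : 0 < Real.log (((y : ℝ) - x) / 4) := Real.log_pos e4
      have e6 : 0 < c * (((y : ℝ) - x) / 4) * Real.log (((y : ℝ) - x) / 4) / Real.log N := by
        positivity
      have e7 : (0 : ℝ) < Cnt (√(N : ℝ) * (D : ℝ) ^ (1 / 320 : ℝ)) N n x y :=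
        lt_of_lt_of_le e6 e3
      have e8 : 0 < Cnt (√(N : ℝ) * (D : ℝ) ^ (1 / 320 : ℝ)) N n x y := by exact_mod_cast e7
      exact e8
    · intro x y hxy hy2 h8 hx hyD
      have e1 : 8 * Real.log N ^ 200 ≤ (y : ℝ) - x := by linarith
      have e3 := hcnt x y hxy hy2 e1 hx hyD
      refine le_trans ?_ e3
      have hsD : 0 < √(D : ℝ) := Real.sqrt_pos.mpr hDpos
      have e4 : Real.log D / 2 ≤ Real.log (((y : ℝ) - x) / 4) := by
        rw [← Real.log_sqrt hDpos.le]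
        exact Real.log_le_log hsD h8
      have e5 : 0 ≤ ((y : ℝ) - x) / 4 := le_trans hsD.le h8
      calc c * Real.log D / (8 * Real.log N) * ((y : ℝ) - x) =
          c * (((y : ℝ) - x) / 4) * (Real.log D / 2) / Real.log N := by
            field_simp
            ring
        _ ≤ c * (((y : ℝ) - x) / 4) * Real.log (((y : ℝ) - x) / 4) / Real.log N := by
            apply div_le_div_of_nonneg_right _ hlog0.le
            exact mul_le_mul_of_nonneg_left e4 (by positivity)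
  have k1 := hst N hNN1
  have k2 := htyp N hNN2
  have k3 := hls N hNN3
  have k4 : (N : ℝ) / Real.log N ^ 2 ≤ ε / 4 * N := by
    rw [div_le_iff₀ (by positivity)]
    have e1 : 4 / ε ≤ Real.log N ^ 2 := by
      have e2 : s ≤ Real.log N := by rw [← hs2]; nlinarith
      nlinarith
    have e3 : 1 ≤ ε / 4 * Real.log N ^ 2 := by
      calc (1 : ℝ) = ε / 4 * (4 / ε) := by field_simp
        _ ≤ _ := mul_le_mul_of_nonneg_left e1 (by positivity)
    calc (N : ℝ) = N * 1 := (mul_one _).symm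
      _ ≤ N * (ε / 4 * Real.log N ^ 2) := mul_le_mul_of_nonneg_left e3 hN0.le
      _ = ε / 4 * N * Real.log N ^ 2 := by ring
  have k5 := Finset.card_le_card hsub
  have k6 := Finset.card_union_le
    ((Ioc (N / 2) N).filter (fun n => Even n ∧ ¬ cofLE n (1 / 2 * √(N : ℝ))))
      (((Ioc 0 N).filter fun n => ∃ h : ℤ[X], Fac n h ∧ Real.log N ^ 8 ≤ h.natDegree ∧
        (h.natDegree : ℝ) ≤ √(N : ℝ) / 2 ∧
        4 * (h.natDegree : ℝ) ^ (3 / 4 : ℝ) < Real.log |(h.leadingCoeff : ℝ)|) ∪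
      ((Ioc (N / 2) N).filter fun n => Even n ∧ ∃ x y : ℕ, x < y ∧ y ≤ 2 * x ∧
        8 * Real.log N ^ 200 ≤ (y : ℝ) - x ∧
        (x : ℝ) ≤ (((y : ℝ) - x) / 8) ^ (1 + 1 / 20 : ℝ) ∧ y ≤ Nat.sqrt N ∧
        (Cnt (√(N : ℝ) * ((y - x : ℕ) : ℝ) ^ (1 / 320 : ℝ)) N n x y : ℝ) <
          c * (((y : ℝ) - x) / 4) * Real.log (((y : ℝ) - x) / 4) / Real.log N))
  have k7 := Finset.card_union_le
      ((Ioc 0 N).filter fun n => ∃ h : ℤ[X], Fac n h ∧ Real.log N ^ 8 ≤ h.natDegree ∧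
        (h.natDegree : ℝ) ≤ √(N : ℝ) / 2 ∧
        4 * (h.natDegree : ℝ) ^ (3 / 4 : ℝ) < Real.log |(h.leadingCoeff : ℝ)|)
      ((Ioc (N / 2) N).filter fun n => Even n ∧ ∃ x y : ℕ, x < y ∧ y ≤ 2 * x ∧
        8 * Real.log N ^ 200 ≤ (y : ℝ) - x ∧
        (x : ℝ) ≤ (((y : ℝ) - x) / 8) ^ (1 + 1 / 20 : ℝ) ∧ y ≤ Nat.sqrt N ∧
        (Cnt (√(N : ℝ) * ((y - x : ℕ) : ℝ) ^ (1 / 320 : ℝ)) N n x y : ℝ) <
          c * (((y : ℝ) - x) / 4) * Real.log (((y : ℝ) - x) / 4) / Real.log N)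
  have k8 : (((Ioc (N / 2) N).filter fun n => Even n ∧ ∃ h : ℤ[X], Fac n h ∧
      Real.exp (C * √(Real.log N)) ≤ h.natDegree ∧ 2 * h.natDegree ≤ n).card : ℝ) ≤
      (((Ioc (N / 2) N).filter (fun n => Even n ∧ ¬ cofLE n (1 / 2 * √(N : ℝ)))).card : ℝ) +
      ((((Ioc 0 N).filter fun n => ∃ h : ℤ[X], Fac n h ∧ Real.log N ^ 8 ≤ h.natDegree ∧
        (h.natDegree : ℝ) ≤ √(N : ℝ) / 2 ∧
        4 * (h.natDegree : ℝ) ^ (3 / 4 : ℝ) < Real.log |(h.leadingCoeff : ℝ)|).card : ℝ) +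
      (((Ioc (N / 2) N).filter fun n => Even n ∧ ∃ x y : ℕ, x < y ∧ y ≤ 2 * x ∧
        8 * Real.log N ^ 200 ≤ (y : ℝ) - x ∧
        (x : ℝ) ≤ (((y : ℝ) - x) / 8) ^ (1 + 1 / 20 : ℝ) ∧ y ≤ Nat.sqrt N ∧
        (Cnt (√(N : ℝ) * ((y - x : ℕ) : ℝ) ^ (1 / 320 : ℝ)) N n x y : ℝ) <
          c * (((y : ℝ) - x) / 4) * Real.log (((y : ℝ) - x) / 4) / Real.log N).card : ℝ)) := by
    exact_mod_cast k5.trans (k6.trans (Nat.add_le_add_left k7 _))
  have hεN : 0 ≤ ε * N := by positivity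
  linarith

end Pool.Agent.Bern3
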