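import Mathlib
import Pool.Agent.Bern3.Apa

/-!
# HK-Aa: theorem A (with the input `EQ`)

`equ` is the union bound `uni` for the input `EQ`. `thmA` combines `thmAp` (factors of large degree), `typ2` (leading coefficients),
`lsu` and `equ` (usable primes in all intervals) with `as1`.
-/

namespace Pool.Agent.Bern3

open Polynomial Finset Pool.Agent.Bern2

private theorem Cnt_mono {Q Q' : ℝ} {N n x y x' y' : ℕ} (hQ : Q' ≤ Q) (hx : x ≤ x')
    (hy : y' ≤ y) : Cnt Q' N n x' y' ≤ Cnt Q N n x y := by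
  classical
  unfold Cnt
  refine card_le_card fun p hp => ?_
  rw [mem_filter] at hp ⊢
  obtain ⟨h0, h1, h2, h3, h4, h5⟩ := hp
  exact ⟨h0, h1, h2, h3.trans hQ, hx.trans_lt h4, h5.trans hy⟩

private theorem cov4 {S E1 E2 E3 E4 : Finset ℕ} {b : ℝ} (h1 : (E1.card : ℝ) ≤ b)
    (h2 : (E2.card : ℝ) ≤ b) (h3 : (E3.card : ℝ) ≤ b) (h4 : (E4.card : ℝ) ≤ b)
    (h : ∀ n ∈ S, n ∉ E1 → n ∉ E2 → n ∉ E3 → n ∉ E4 → False) : (S.card : ℝ) ≤ 4 * b := by
  have hsub : S ⊆ E1 ∪ (E2 ∪ (E3 ∪ E4)) := by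
    intro n hn
    by_contra hc
    rw [mem_union, mem_union, mem_union, not_or, not_or, not_or] at hc
    exact h n hn hc.1 hc.2.1 hc.2.2.1 hc.2.2.2
  have e1 := card_le_card hsub
  have e2 := card_union_le E1 (E2 ∪ (E3 ∪ E4))
  have e3 := card_union_le E2 (E3 ∪ E4)
  have e4 := card_union_le E3 E4
  have e5 : S.card ≤ E1.card + (E2.card + (E3.card + E4.card)) := by omega
  have e6 : (S.card : ℝ) ≤ E1.card + (E2.card + (E3.card + E4.card)) := by exact_mod_cast e5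
  linarith

open Classical in
theorem equ (c c' A σ : ℝ) (hc : 0 < c) (hc' : 0 < c') (hA : 0 < A) (hσ : 0 < σ)
    (hσc : σ ≤ c' / 2) (hEQ : EQ c c' A) (ε : ℝ) (hε : 0 < ε) : ∃ N0 : ℕ, ∀ N : ℕ, N0 ≤ N →
    (((Ioc (N / 2) N).filter fun n => Even n ∧ ∃ x y : ℕ, x < y ∧ y ≤ 2 * x ∧
      8 * Real.log N ^ A ≤ (y : ℝ) - x ∧ (x : ℝ) ≤ (((y : ℝ) - x) / 8) ^ (1 + σ) ∧
      (y : ℝ) ≤ (N : ℝ) ^ (1 / 5 : ℝ) ∧
      (Cnt ((N : ℝ) ^ (79 / 100 : ℝ)) N n x y : ℝ) < c * (((y : ℝ) - x) / 4)).card : ℝ) ≤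
      ε * N := by
  obtain ⟨N1, hN1⟩ := hEQ
  refine uni (fun N n x y => (Cnt ((N : ℝ) ^ (79 / 100 : ℝ)) N n x y : ℝ)) (fun _ a => c * a)
    (fun N => Real.log N ^ A) (fun N => (N : ℝ) ^ (1 / 5 : ℝ)) c' σ hc' hσ hσc ?_ ?_ ?_ ?_ ?_ ε hε
  · exact (tendsto_rpow_atTop hA).comp (Real.tendsto_log_atTop.comp tendsto_natCast_atTop_atTop)
  · intro N
    rcases Nat.eq_zero_or_pos N with h | h
    · subst h
      rw [Nat.cast_zero, Real.zero_rpow (by norm_num)]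
    · have h1 : (1 : ℝ) ≤ N := by exact_mod_cast h
      calc (N : ℝ) ^ (1 / 5 : ℝ) ≤ (N : ℝ) ^ (1 : ℝ) :=
            Real.rpow_le_rpow_of_exponent_le h1 (by norm_num)
        _ = N := Real.rpow_one _
  · intro N n x y x' y' hx hy
    exact_mod_cast Cnt_mono le_rfl hx hy
  · intro N a b _ hab
    exact mul_le_mul_of_nonneg_left hab hc.le
  · refine ⟨N1, fun N hN x h h1 h2 _ h4 => ?_⟩
    refine hN1 N hN x h h1 h2 (le_trans ?_ h4)
    exact_mod_cast Nat.le_add_right x h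

open Classical in
theorem thmA (c c' A : ℝ) (hc : 0 < c) (hc' : 0 < c') (hA : 0 < A) (hEQ : EQ c c' A) :
    ∃ C : ℝ, 0 < C ∧ ∀ ε : ℝ, 0 < ε → ∃ N0 : ℕ, ∀ N : ℕ, N0 ≤ N →
    (((Ioc (N / 2) N).filter fun n => Even n ∧ ∃ h : ℤ[X], Fac n h ∧
      Real.log N ^ C ≤ h.natDegree ∧ 2 * h.natDegree ≤ n).card : ℝ) ≤ ε * N := by
  obtain ⟨C1, hC1, hAp⟩ := thmAp
  obtain ⟨δ, hδd⟩ : ∃ δ : ℝ, δ = min (c' / 6) (1 / 40) := ⟨_, rfl⟩
  have hδ : 0 < δ := by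
    rw [hδd]
    exact lt_min (by linarith) (by norm_num)
  have hδ40 : δ ≤ 1 / 40 := by
    rw [hδd]
    exact min_le_right _ _
  have hδc : 3 * δ ≤ c' / 2 := by
    have : δ ≤ c' / 6 := by
      rw [hδd]
      exact min_le_left _ _
    linarith
  have hδσ : 1 - δ / 4 < (1 - 3 * δ / 2) * (1 + 3 * δ) := by nlinarith
  obtain ⟨D0, has⟩ := as1 δ (3 * δ) hδ (by linarith) hδσ
  obtain ⟨c1, hc1, hls⟩ := lsu (δ / 8) (by linarith) (by linarith)
  obtain ⟨C, hCd⟩ : ∃ C : ℝ, C = (201 + A) / δ := ⟨_, rfl⟩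
  have hCδ : C * δ = 201 + A := by
    rw [hCd]
    field_simp
  have hC40 : 40 * (201 + A) ≤ C := by
    rw [hCd, le_div_iff₀ hδ]
    nlinarith
  refine ⟨C, by linarith, fun ε hε => ?_⟩
  obtain ⟨N1, hN1⟩ := hAp (ε / 4) (by linarith)
  obtain ⟨N2, hN2⟩ := typ2 (ε / 4) (by linarith)
  obtain ⟨N3, hN3⟩ := equ c c' A (3 * δ) hc hc' hA (by linarith) hδc hEQ (ε / 4) (by linarith)
  obtain ⟨N4, hN4⟩ := hls (ε / 4) (by linarith)
  obtain ⟨M, hM⟩ : ∃ M : ℝ, M = 700 + D0 + 25 * C1 ^ 2 + Real.exp (5600 / (c / 4 * δ)) := ⟨_, rfl⟩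
  have hlog : ∀ᶠ N : ℕ in Filter.atTop, M ≤ Real.log N :=
    (Real.tendsto_log_atTop.comp tendsto_natCast_atTop_atTop).eventually_ge_atTop M
  obtain ⟨N5, hN5⟩ := Filter.eventually_atTop.1 hlog
  refine ⟨N1 + N2 + N3 + N4 + N5, fun N hN => ?_⟩
  have hLM := hN5 N (by omega)
  have e0 : ε * N = 4 * (ε / 4 * N) := by ring
  rw [e0]
  refine cov4 (hN1 N (by omega)) (hN2 N (by omega)) (hN3 N (by omega)) (hN4 N (by omega)) ?_
  intro n hn x1 x2 x3 x4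
  rw [mem_filter] at hn x1 x2 x3 x4
  obtain ⟨hnN, hev, h, hF, hLD, h2D⟩ := hn
  -- constants
  obtain ⟨L, hL⟩ : ∃ L : ℝ, L = Real.log N := ⟨_, rfl⟩
  obtain ⟨D, hD⟩ : ∃ D : ℕ, D = h.natDegree := ⟨_, rfl⟩
  rw [← hL] at hLM hLD
  rw [← hD] at hLD h2D
  have hD0n : (0 : ℝ) ≤ D0 := Nat.cast_nonneg _
  have hCn : 0 ≤ 25 * C1 ^ 2 := by positivity
  have hEn : 0 < Real.exp (5600 / (c / 4 * δ)) := Real.exp_pos _
  have hL700 : 700 ≤ L := by linarith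
  have hLD0 : (D0 : ℝ) ≤ L := by linarith
  have hLC : 25 * C1 ^ 2 ≤ L := by linarith
  have hLE : Real.exp (5600 / (c / 4 * δ)) ≤ L := by linarith
  have hL1 : 1 ≤ L := by linarith
  have hL0 : 0 < L := by linarith
  have hN0 : (0 : ℝ) < N := by
    rcases Nat.eq_zero_or_pos N with h0 | h0
    · exfalso
      rw [h0, Nat.cast_zero, Real.log_zero] at hL
      linarith
    · exact_mod_cast h0
  have hpow : ∀ t : ℝ, (N : ℝ) ^ t = Real.exp (L * t) := by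
    intro t
    rw [Real.rpow_def_of_pos hN0, hL]
  -- bounds for `D`
  have hD5 : (D : ℝ) ≤ (N : ℝ) ^ (1 / 5 : ℝ) := by
    have h1 : ¬ Real.exp (C1 * √L) ≤ (D : ℝ) := by
      intro h1
      rw [hL, hD] at h1
      rw [hD] at h2D
      exact x1 ⟨hnN, hev, h, hF, h1, h2D⟩
    push Not at h1
    refine h1.le.trans ?_
    rw [hpow]
    refine Real.exp_le_exp.2 ?_
    have h2 : 5 * C1 ≤ √L := by
      refine Real.le_sqrt_of_sq_le ?_
      linarith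
    have h3 : √L * √L = L := Real.mul_self_sqrt hL0.le
    nlinarith [Real.sqrt_nonneg L]
  have hsq : √(N : ℝ) = (N : ℝ) ^ (1 / 2 : ℝ) := Real.sqrt_eq_rpow _
  have h310 : 2 ≤ (N : ℝ) ^ (3 / 10 : ℝ) := by
    rw [hpow]
    have := Real.add_one_le_exp (L * (3 / 10))
    linarith
  have hDs : (D : ℝ) ≤ √(N : ℝ) / 2 := by
    have h1 : √(N : ℝ) = (N : ℝ) ^ (1 / 5 : ℝ) * (N : ℝ) ^ (3 / 10 : ℝ) := by
      rw [hsq, ← Real.rpow_add hN0]
      norm_num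
    have h2 : 0 < (N : ℝ) ^ (1 / 5 : ℝ) := Real.rpow_pos_of_pos hN0 _
    rw [h1]
    nlinarith
  have hC8 : 8 ≤ C := by linarith
  have hLle : ∀ a : ℝ, a ≤ C → L ^ a ≤ D := fun a ha =>
    (Real.rpow_le_rpow_of_exponent_le hL1 ha).trans hLD
  have hLD1 : L ≤ D := by
    have := hLle 1 (by linarith)
    rwa [Real.rpow_one] at this
  have hLD8 : L ^ 8 ≤ (D : ℝ) := by
    have := hLle 8 hC8
    have h8 : L ^ (8 : ℝ) = L ^ 8 := by exact_mod_cast Real.rpow_natCast L 8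
    rwa [h8] at this
  have hDpos : (0 : ℝ) < D := by linarith
  have hD1 : (1 : ℝ) ≤ D := by linarith
  have hDδ : 64 * L ^ 200 ≤ (D : ℝ) ^ δ := by
    have h1 : (L ^ C) ^ δ ≤ (D : ℝ) ^ δ :=
      Real.rpow_le_rpow (Real.rpow_nonneg hL0.le _) hLD hδ.le
    rw [← Real.rpow_mul hL0.le, hCδ] at h1
    refine le_trans ?_ h1
    have h2 : L ^ (201 : ℝ) ≤ L ^ (201 + A) :=
      Real.rpow_le_rpow_of_exponent_le hL1 (by linarith)
    refine le_trans ?_ h2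
    have h3 : L ^ (201 : ℝ) = L ^ 201 := by exact_mod_cast Real.rpow_natCast L 201
    rw [h3, pow_succ L 200, mul_comm]
    exact mul_le_mul_of_nonneg_left (by linarith) (pow_nonneg hL0.le _)
  have hDA : 2 * L ^ A ≤ √(D : ℝ) := by
    have h1 : √(L ^ C) ≤ √(D : ℝ) := Real.sqrt_le_sqrt hLD
    refine le_trans ?_ h1
    rw [Real.sqrt_eq_rpow, ← Real.rpow_mul hL0.le]
    have h2 : L ^ (A + 1) ≤ L ^ (C * (1 / 2)) :=
      Real.rpow_le_rpow_of_exponent_le hL1 (by linarith)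
    refine le_trans ?_ h2
    rw [Real.rpow_add hL0, Real.rpow_one, mul_comm]
    exact mul_le_mul_of_nonneg_left (by linarith) (Real.rpow_nonneg hL0.le _)
  have hDδD : (D : ℝ) ^ δ ≤ D := by
    calc (D : ℝ) ^ δ ≤ (D : ℝ) ^ (1 : ℝ) :=
          Real.rpow_le_rpow_of_exponent_le hD1 (by linarith)
      _ = D := Real.rpow_one _
  have hlogD : 5600 ≤ c / 4 * δ * Real.log D := by
    have h1 : 5600 / (c / 4 * δ) ≤ Real.log D := by
      rw [Real.le_log_iff_exp_le hDpos]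
      exact hLE.trans hLD1
    rw [div_le_iff₀ (by positivity)] at h1
    linarith
  have hQ : 8 * (D : ℝ) ^ (1 - δ / 4) * (N : ℝ) ^ (79 / 100 : ℝ) ≤ N := by
    have h1 : (D : ℝ) ^ (1 - δ / 4) ≤ (N : ℝ) ^ (1 / 5 : ℝ) := by
      refine le_trans ?_ hD5
      calc (D : ℝ) ^ (1 - δ / 4) ≤ (D : ℝ) ^ (1 : ℝ) :=
            Real.rpow_le_rpow_of_exponent_le hD1 (by linarith)
        _ = D := Real.rpow_one _
    have h2 : 8 ≤ (N : ℝ) ^ (1 / 100 : ℝ) := by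
      rw [hpow]
      have := Real.add_one_le_exp (L * (1 / 100))
      linarith
    have h3 : (N : ℝ) = (N : ℝ) ^ (1 / 100 : ℝ) * (N : ℝ) ^ (1 / 5 : ℝ) *
        (N : ℝ) ^ (79 / 100 : ℝ) := by
      rw [← Real.rpow_add hN0, ← Real.rpow_add hN0]
      norm_num
    calc 8 * (D : ℝ) ^ (1 - δ / 4) * (N : ℝ) ^ (79 / 100 : ℝ)
        ≤ (N : ℝ) ^ (1 / 100 : ℝ) * (N : ℝ) ^ (1 / 5 : ℝ) * (N : ℝ) ^ (79 / 100 : ℝ) := by
          refine mul_le_mul_of_nonneg_right ?_ (Real.rpow_nonneg hN0.le _)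
          exact mul_le_mul h2 h1 (Real.rpow_nonneg hDpos.le _) (Real.rpow_nonneg hN0.le _)
      _ = N := h3.symm
  have hnI := mem_Ioc.1 hnN
  -- the leading coefficient
  have hlc : Real.log |(h.leadingCoeff : ℝ)| ≤ 4 * (D : ℝ) ^ (3 / 4 : ℝ) := by
    by_contra hcon
    push Not at hcon
    apply x2
    refine ⟨mem_Ioc.2 ⟨by omega, hnI.2⟩, h, hF, ?_, ?_, ?_⟩
    · rw [← hD, ← hL]
      exact hLD8
    · rw [← hD]
      exact hDs
    · rw [← hD]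
      exact hcon
  refine has N n D (c / 4) ((N : ℝ) ^ (79 / 100 : ℝ)) ?_ ?_ hnI.1 hnI.2 hev (by linarith) hlogD hQ
    ?_ ?_ h hF hD.symm hlc
  · exact_mod_cast hLD0.trans hLD1
  · linarith [Real.sqrt_nonneg (N : ℝ)]
  · intro x y hxy hy2 h1 h2 h3
    have hyD : (y : ℝ) ≤ D := h3.trans hDδD
    have hys : y ≤ Nat.sqrt N := by
      rw [Nat.le_sqrt']
      have h4 : (y : ℝ) ≤ √(N : ℝ) := by
        have := Real.sqrt_nonneg (N : ℝ)
        linarith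
      have h5 : (y : ℝ) ^ 2 ≤ N := by
        have h6 := pow_le_pow_left₀ (Nat.cast_nonneg y) h4 2
        rwa [Real.sq_sqrt hN0.le] at h6
      exact_mod_cast h5
    have hxy' : (x : ℝ) < y := by exact_mod_cast hxy
    have h8L : 8 * L ^ 200 ≤ (y : ℝ) - x := by linarith
    have hL200 : 1 ≤ L ^ 200 := one_le_pow₀ hL1
    have hbig : 8 ≤ (y : ℝ) - x := by linarith
    have hcnt : 0 < (Cnt (√(N : ℝ) * ((y - x : ℕ) : ℝ) ^ (δ / 8)) N n x y : ℝ) := by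
      have hpos : 0 < c1 * (((y : ℝ) - x) / 4) * Real.log (((y : ℝ) - x) / 4) / Real.log N := by
        have h6 : 0 < Real.log (((y : ℝ) - x) / 4) := Real.log_pos (by linarith)
        rw [← hL]
        exact div_pos (mul_pos (mul_pos hc1 (by linarith)) h6) hL0
      refine lt_of_lt_of_le hpos ?_
      by_contra hcon
      push Not at hcon
      apply x4
      refine ⟨hnN, hev, x, y, hxy, hy2, ?_, h2, hys, hcon⟩
      rw [← hL]
      exact h8L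
    have hcnt' : 1 ≤ Cnt (√(N : ℝ) * ((y - x : ℕ) : ℝ) ^ (δ / 8)) N n x y := by
      exact_mod_cast hcnt
    refine hcnt'.trans (Cnt_mono ?_ le_rfl le_rfl)
    have hcast : ((y - x : ℕ) : ℝ) = (y : ℝ) - x := by
      rw [Nat.cast_sub hxy.le]
    have h7 : ((y - x : ℕ) : ℝ) ^ (δ / 8) ≤ (N : ℝ) ^ (1 / 5 : ℝ) := by
      rw [hcast]
      calc ((y : ℝ) - x) ^ (δ / 8) ≤ ((y : ℝ) - x) ^ (1 : ℝ) :=
            Real.rpow_le_rpow_of_exponent_le (by linarith) (by linarith)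
        _ = (y : ℝ) - x := Real.rpow_one _
        _ ≤ D := by linarith [Nat.cast_nonneg (α := ℝ) x]
        _ ≤ _ := hD5
    calc √(N : ℝ) * ((y - x : ℕ) : ℝ) ^ (δ / 8)
        ≤ (N : ℝ) ^ (1 / 2 : ℝ) * (N : ℝ) ^ (1 / 5 : ℝ) := by
          rw [hsq]
          exact mul_le_mul_of_nonneg_left h7 (Real.rpow_nonneg hN0.le _)
      _ = (N : ℝ) ^ (7 / 10 : ℝ) := by
          rw [← Real.rpow_add hN0]
          norm_num
      _ ≤ (N : ℝ) ^ (79 / 100 : ℝ) := by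
          rw [hpow, hpow]
          refine Real.exp_le_exp.2 ?_
          linarith
  · intro x y hxy hy2 h1 h2 h3
    by_contra hcon
    push Not at hcon
    apply x3
    have hyD : (y : ℝ) ≤ D := by exact_mod_cast h3
    refine ⟨hnN, hev, x, y, hxy, hy2, ?_, h2, hyD.trans hD5, ?_⟩
    · rw [← hL]
      linarith
    · refine hcon.trans_le ?_
      linarith

end Pool.Agent.Bern3
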