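import Mathlib
import Pool.Agent.Bern3.Aa
import Pool.Agent.BMR.EQF
import Pool.Agent.BDN.DefsB

/-!
# HK-Fin: theorem A, unconditional
-/

namespace Pool.Agent.Bern3

open Polynomial Finset

/-- the input from multiplicative number theory holds -/
theorem eq_holds : ∃ c c' A : ℝ, 0 < c ∧ 0 < c' ∧ 0 < A ∧ EQ c c' A := by
  obtain ⟨c, c', A, hc, hc', hA, N0, hN0⟩ := Pool.Agent.BMR.EQ
  obtain ⟨N1, hN1⟩ : ∃ N1 : ℕ, ∀ N : ℕ, N1 ≤ N →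
      2 * √(N : ℝ) ≤ (N : ℝ) ^ (51 / 100 : ℝ) := by
    have h1 : ∀ᶠ x : ℝ in Filter.atTop, 2 ≤ x ^ (1 / 100 : ℝ) :=
      (tendsto_rpow_atTop (by norm_num)).eventually_ge_atTop _
    have h2 := (tendsto_natCast_atTop_atTop (R := ℝ)).eventually
      (h1.and (Filter.eventually_gt_atTop (0 : ℝ)))
    obtain ⟨N1, hN1⟩ := Filter.eventually_atTop.1 h2
    refine ⟨N1, fun N hN => ?_⟩
    obtain ⟨h3, h4⟩ := hN1 N hN
    have h5 : (N : ℝ) ^ (51 / 100 : ℝ) = (N : ℝ) ^ (1 / 100 : ℝ) * √(N : ℝ) := by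
      rw [Real.sqrt_eq_rpow, ← Real.rpow_add h4]
      norm_num
    rw [h5]
    exact mul_le_mul_of_nonneg_right h3 (Real.sqrt_nonneg _)
  refine ⟨c, c', A, hc, hc', hA, max N0 N1, fun N hN u h h1 h2 h3 => ?_⟩
  have hN0' : N0 ≤ N := le_trans (le_max_left _ _) hN
  have hN1' : N1 ≤ N := le_trans (le_max_right _ _) hN
  refine le_trans ?_ (hN0 N hN0' u h h1 h2 h3)
  have hsub : ((Ioc (N / 2) N).filter fun n => Even n ∧
      (Cnt ((N : ℝ) ^ (79 / 100 : ℝ)) N n u (u + h) : ℝ) < c * h) ⊆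
      ((Ioc (N / 2) N).filter (fun n => Even n ∧
        (((Icc 1 N).filter (fun p : ℕ => p.Prime ∧ (N : ℝ) ^ (51 / 100 : ℝ) < p ∧
          (p : ℝ) ≤ (N : ℝ) ^ (79 / 100 : ℝ) ∧ u < n % (p - 1) ∧ n % (p - 1) ≤ u + h)).card : ℝ) <
            c * h)) := by
    intro n hn
    rw [mem_filter] at hn ⊢
    refine ⟨hn.1, hn.2.1, lt_of_le_of_lt ?_ hn.2.2⟩
    unfold Cnt
    norm_cast
    apply card_le_card
    intro p hp
    rw [mem_filter] at hp ⊢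
    exact ⟨hp.1, hp.2.1, lt_of_le_of_lt (hN1 N hN1') hp.2.2.1, hp.2.2.2.1, hp.2.2.2.2.1,
      hp.2.2.2.2.2⟩
  exact_mod_cast card_le_card hsub

open Classical in
/-- THEOREM A. -/
theorem thmA_holds : ∃ C : ℝ, 0 < C ∧ ∀ ε : ℝ, 0 < ε → ∃ N0 : ℕ, ∀ N : ℕ, N0 ≤ N →
    (((Ioc (N / 2) N).filter fun n => Even n ∧ ∃ h : ℤ[X], Fac n h ∧
      Real.log N ^ C ≤ h.natDegree ∧ 2 * h.natDegree ≤ n).card : ℝ) ≤ ε * N := by
  obtain ⟨c, c', A, hc, hc', hA, hEQ⟩ := eq_holds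
  exact thmA c c' A hc hc' hA hEQ

/-- THEOREM A in the form of the project BDN. -/
theorem thmA_bdn : ∃ A : ℝ, Pool.Agent.BDN.ThmA A := by
  classical
  obtain ⟨K, hK, hA⟩ := thmA_holds
  refine ⟨K, hK, fun ε hε => ?_⟩
  obtain ⟨N0, hN0⟩ := hA ε hε
  refine ⟨N0, fun N hN => le_trans ?_ (hN0 N hN)⟩
  norm_cast
  apply card_le_card
  intro n hn
  rw [mem_filter] at hn ⊢
  obtain ⟨h1, h2, H, hH, hd, h3, h4⟩ := hn
  refine ⟨h1, h2, ?_⟩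
  obtain ⟨F, hFp, hFd, c, hc, hFc⟩ := Pool.Agent.Helper29.exists_primitive hH.ne_zero
  refine ⟨F, ⟨hFp, ?_⟩, ?_, ?_⟩
  · obtain ⟨k, hk⟩ := hd
    refine ⟨C c⁻¹ * k, ?_⟩
    have h5 : (C c * C c⁻¹ : ℚ[X]) = 1 := by rw [← C_mul, mul_inv_cancel₀ hc, C_1]
    have h6 : F.map (Int.castRingHom ℚ) = C c * H := hFc
    rw [h6, hk]
    linear_combination (-(H * k)) * h5
  · rw [hFd]; exact h3
  · rw [hFd]; omega

end Pool.Agent.Bern3
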